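import Pool.Agent.TGL.H3

/-!
# H18: midpoints; unipotent isometries have arbitrarily small displacement
-/

set_option autoImplicit false
open Set

namespace Pool.Agent.TGL

variable {n : ℕ}

/-- The midpoint of `x` and `y`. -/
noncomputable def mid (x y : Fin (n+1) → ℝ) : Fin (n+1) → ℝ := (Real.sqrt (2 + 2 * q x y))⁻¹ • (x + y)

/-- Proof: `q (x+y) (x+y) = 2 + 2 q x y > 0`, so `q (mid x y) (mid x y) = 1`;
`q x (mid x y) = (1 + q x y)/√(2+2 q x y) > 0`; `mem_Hyp_of_q_pos`. -/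
theorem mid_mem {x y : Fin (n+1) → ℝ} (hx : x ∈ Hyp n) (hy : y ∈ Hyp n) : mid x y ∈ Hyp n := by
  have h1 := one_le_q hx hy
  have h2 : 0 < 2 + 2 * q x y := by linarith
  have hxx := (mem_Hyp.mp hx).2
  have hyy := (mem_Hyp.mp hy).2
  have h3 : 0 < Real.sqrt (2 + 2 * q x y) := Real.sqrt_pos.mpr h2
  apply mem_Hyp_of_q_pos hx
  · unfold mid
    rw [q_smul_left, q_smul_right, q_add_left, q_add_right, q_add_right, hxx, hyy, q_comm y x]
    have h4 : Real.sqrt (2 + 2 * q x y) * Real.sqrt (2 + 2 * q x y) = 2 + 2 * q x y :=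
      Real.mul_self_sqrt h2.le
    rw [show (1 : ℝ) + q x y + (q x y + 1) = 2 + 2 * q x y by ring, ← mul_assoc, ← mul_inv, h4,
      inv_mul_cancel₀ h2.ne']
  · unfold mid
    rw [q_smul_right, q_add_right, hxx]
    positivity

theorem ac_mid {g : GLn n} (hg : IsIso (g : Matrix (Fin (n+1)) (Fin (n+1)) ℝ))
    (x y : Fin (n+1) → ℝ) : ac g (mid x y) = mid (ac g x) (ac g y) := by
  unfold mid
  rw [ac_smul, ac_add, q_ac hg]

/-- Midpoint convexity. Proof. Write `α = q x y`, `β = q y z`, `γ = q x z` (all `≥ 1`). By bilinearity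
`q (mid x y) (mid y z) = (1 + α + β + γ)/(2 √((1+α)(1+β)))` and
`cosh (hd x z / 2) = √((1+γ)/2)` (`Real.cosh_sq`/`Real.cosh_two_mul`: `cosh d = 2 cosh² (d/2) - 1`). So the
claim is (`hd_le_iff`) `(1+α+β+γ)² ≤ 2(1+α)(1+β)(1+γ)`. Now
`2(1+α)(1+β)(1+γ) - (1+α+β+γ)² = 1 + 2αβγ - α² - β² - γ²` (ring) and this is
`(α²-1)(β²-1) - (αβ-γ)² ≥ 0` by `q_triangle`. -/
theorem hd_mid_le {x y z : Fin (n+1) → ℝ} (hx : x ∈ Hyp n) (hy : y ∈ Hyp n) (hz : z ∈ Hyp n) :
    hd (mid x y) (mid y z) ≤ hd x z / 2 := by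
  have hα := one_le_q hx hy
  have hβ := one_le_q hy hz
  have hγ := one_le_q hx hz
  have hyy := (mem_Hyp.mp hy).2
  have htri := q_triangle hx hy hz
  set α := q x y with hαd
  set β := q y z with hβd
  set γ := q x z with hγd
  rw [hd_le_iff (mid_mem hx hy) (mid_mem hy hz) (by linarith [hd_nonneg hx hz])]
  have hc : Real.cosh (hd x z / 2) ^ 2 = (1 + γ) / 2 := by
    have h1 := Real.cosh_two_mul (hd x z / 2)
    rw [show 2 * (hd x z / 2) = hd x z by ring, cosh_hd hx hz] at h1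
    have h2 := Real.cosh_sq (hd x z / 2)
    rw [← hγd] at h1
    linarith
  have hc0 : 0 < Real.cosh (hd x z / 2) := Real.cosh_pos _
  have hq : q (mid x y) (mid y z) =
      (Real.sqrt (2 + 2 * α))⁻¹ * ((Real.sqrt (2 + 2 * β))⁻¹ * (1 + α + β + γ)) := by
    unfold mid
    rw [q_smul_left, q_smul_right, q_add_left, q_add_right, q_add_right, hyy, ← hαd, ← hβd, ← hγd]
    ring
  rw [hq]
  have hs1 : 0 < Real.sqrt (2 + 2 * α) := Real.sqrt_pos.mpr (by linarith)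
  have hs2 : 0 < Real.sqrt (2 + 2 * β) := Real.sqrt_pos.mpr (by linarith)
  have e1 : Real.sqrt (2 + 2 * α) ^ 2 = 2 + 2 * α := Real.sq_sqrt (by linarith)
  have e2 : Real.sqrt (2 + 2 * β) ^ 2 = 2 + 2 * β := Real.sq_sqrt (by linarith)
  have key : (1 + α + β + γ) ^ 2 ≤ 2 * (1 + α) * (1 + β) * (1 + γ) := by nlinarith
  rw [← mul_assoc, ← mul_inv, inv_mul_le_iff₀ (by positivity)]
  apply le_of_sq_le_sq _ (by positivity)
  rw [mul_pow, mul_pow, e1, e2, hc]
  linarith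

/-- Proof: apply `hd_mid_le` to `x, g x, g² x`, with `mid (g x) (g² x) = g (mid x (g x))`. -/
theorem hd_half {g : GLn n} (hg : IsIso (g : Matrix (Fin (n+1)) (Fin (n+1)) ℝ))
    {x : Fin (n+1) → ℝ} (hx : x ∈ Hyp n) :
    ∃ y ∈ Hyp n, hd y (ac g y) ≤ hd x (ac (g ^ 2) x) / 2 := by
  have hgx := ac_mem hg hx
  have hggx := ac_mem hg hgx
  refine ⟨mid x (ac g x), mid_mem hx hgx, ?_⟩
  rw [ac_mid hg, sq, ac_mul]
  exact hd_mid_le hx hgx hggx

/-- Proof. Induction on `k`. `k = 0`: `y = x`. Step: apply `hd_half` to `h = g ^ (2^k)` (in `O⁺` by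
`IsIso.mul`) and `x`: there is `y'` with `hd y' (h y') ≤ hd x (h² x)/2`, `h² = g ^ (2^(k+1))`; then the
induction hypothesis for `y'`. -/
theorem hd_half_pow {g : GLn n} (hg : IsIso (g : Matrix (Fin (n+1)) (Fin (n+1)) ℝ)) (k : ℕ)
    {x : Fin (n+1) → ℝ} (hx : x ∈ Hyp n) :
    ∃ y ∈ Hyp n, hd y (ac g y) ≤ hd x (ac (g ^ (2 ^ k)) x) / 2 ^ k := by
  induction k generalizing x with
  | zero =>
    refine ⟨x, hx, ?_⟩
    simp
  | succ k ih =>
    have hpow : ∀ m : ℕ, IsIso (((g ^ m : GLn n)) : Matrix (Fin (n+1)) (Fin (n+1)) ℝ) := by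
      intro m
      induction m with
      | zero =>
        rw [pow_zero, Units.val_one]
        exact IsIso.one
      | succ m ihm =>
        rw [pow_succ, Units.val_mul]
        exact ihm.mul hg
    obtain ⟨y', hy', h1⟩ := hd_half (hpow (2 ^ k)) hx
    obtain ⟨y, hy, h2⟩ := ih hy'
    refine ⟨y, hy, h2.trans ?_⟩
    rw [← pow_mul, ← pow_succ] at h1
    rw [pow_succ (2 : ℝ) k, mul_comm ((2 : ℝ) ^ k) 2, ← div_div]
    exact div_le_div_of_nonneg_right h1 (by positivity)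

/-- Polynomial growth of unipotent matrices. Proof. Let `N = g - 1`, `N ^ m = 0`. Then
`g ^ k = ∑_{j < m} C(k,j) N ^ j` (`Commute.add_pow` for `N + 1`), so `|q x (g^k x)| ≤ ∑_{j<m} C(k,j) |q x (N^j x)| ≤
C (k+1)^m` with `C = 1 + ∑_j |q x (N^j x)|` (`Nat.choose_le_pow`: `C(k,j) ≤ k^j ≤ (k+1)^m`). -/
theorem q_pow_le {g : GLn n} {m : ℕ}
    (hu : ((g : Matrix (Fin (n+1)) (Fin (n+1)) ℝ) - 1) ^ m = 0) (x : Fin (n+1) → ℝ) :
    ∃ C : ℝ, 1 ≤ C ∧ ∀ k : ℕ, q x (ac (g ^ k) x) ≤ C * ((k : ℝ) + 1) ^ m := by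
  set N : Matrix (Fin (n+1)) (Fin (n+1)) ℝ := (g : Matrix (Fin (n+1)) (Fin (n+1)) ℝ) - 1 with hN
  set c : ℕ → ℝ := fun j => |q x (Matrix.mulVec (N ^ j) x)| with hc
  refine ⟨1 + ∑ j ∈ Finset.range m, c j, ?_, ?_⟩
  · have : 0 ≤ ∑ j ∈ Finset.range m, c j := Finset.sum_nonneg (fun j _ => abs_nonneg _)
    linarith
  intro k
  have h1 : ((g ^ k : GLn n) : Matrix (Fin (n+1)) (Fin (n+1)) ℝ) =
      ∑ j ∈ Finset.range m, (k.choose j : ℝ) • N ^ j := by
    have e1 : ((g ^ k : GLn n) : Matrix (Fin (n+1)) (Fin (n+1)) ℝ) = (N + 1) ^ k := by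
      rw [Units.val_pow_eq_pow_val, hN, sub_add_cancel]
    rw [e1, (Commute.one_right N).add_pow]
    have e2 : ∀ K : ℕ, ∑ j ∈ Finset.range (m + K), (k.choose j : ℝ) • N ^ j =
        ∑ j ∈ Finset.range m, (k.choose j : ℝ) • N ^ j := by
      intro K
      induction K with
      | zero => rfl
      | succ K ih =>
        rw [← Nat.add_assoc, Finset.sum_range_succ, ih, pow_add, hu, zero_mul, smul_zero, add_zero]
    have e3 : ∑ j ∈ Finset.range (k + 1), N ^ j * 1 ^ (k - j) * (k.choose j : Matrix _ _ ℝ) =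
        ∑ j ∈ Finset.range (k + 1), (k.choose j : ℝ) • N ^ j := by
      apply Finset.sum_congr rfl
      intro j _
      rw [one_pow, mul_one, ← nsmul_eq_mul', Nat.cast_smul_eq_nsmul]
    rw [e3]
    have e4 : ∑ j ∈ Finset.range (k + 1 + m), (k.choose j : ℝ) • N ^ j =
        ∑ j ∈ Finset.range (k + 1), (k.choose j : ℝ) • N ^ j := by
      rw [Finset.sum_range_add]
      have : ∑ i ∈ Finset.range m, (k.choose (k + 1 + i) : ℝ) • N ^ (k + 1 + i) = 0 := by
        apply Finset.sum_eq_zero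
        intro i _
        rw [Nat.choose_eq_zero_of_lt (by omega), Nat.cast_zero, zero_smul]
      rw [this, add_zero]
    rw [← e4, Nat.add_comm (k + 1) m, e2]
  unfold ac
  rw [h1]
  have h2 : q x (Matrix.mulVec (∑ j ∈ Finset.range m, (k.choose j : ℝ) • N ^ j) x) =
      ∑ j ∈ Finset.range m, (k.choose j : ℝ) * q x (Matrix.mulVec (N ^ j) x) := by
    rw [Matrix.sum_mulVec, q_sum_right]
    apply Finset.sum_congr rfl
    intro j _
    rw [Matrix.smul_mulVec, q_smul_right]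
  rw [h2, add_mul, one_mul, Finset.sum_mul]
  have h3 : ∑ j ∈ Finset.range m, (k.choose j : ℝ) * q x (Matrix.mulVec (N ^ j) x) ≤
      ∑ j ∈ Finset.range m, c j * ((k : ℝ) + 1) ^ m := by
    apply Finset.sum_le_sum
    intro j hj
    rw [Finset.mem_range] at hj
    have e1 : q x (Matrix.mulVec (N ^ j) x) ≤ c j := le_abs_self _
    have e2 : (k.choose j : ℝ) ≤ ((k : ℝ) + 1) ^ m := by
      have e3 : (k.choose j : ℝ) ≤ (k : ℝ) ^ j := by exact_mod_cast Nat.choose_le_pow k j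
      have e4 : (k : ℝ) ^ j ≤ ((k : ℝ) + 1) ^ j :=
        pow_le_pow_left₀ (Nat.cast_nonneg k) (by linarith) j
      have e5 : ((k : ℝ) + 1) ^ j ≤ ((k : ℝ) + 1) ^ m :=
        pow_le_pow_right₀ (by linarith [(Nat.cast_nonneg k : (0 : ℝ) ≤ k)]) hj.le
      linarith
    have e6 : 0 ≤ c j := abs_nonneg _
    have e7 : (0 : ℝ) ≤ (k.choose j : ℝ) := Nat.cast_nonneg _
    calc (k.choose j : ℝ) * q x (Matrix.mulVec (N ^ j) x) ≤ (k.choose j : ℝ) * c j :=
          mul_le_mul_of_nonneg_left e1 e7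
      _ ≤ ((k : ℝ) + 1) ^ m * c j := mul_le_mul_of_nonneg_right e2 e6
      _ = c j * ((k : ℝ) + 1) ^ m := mul_comm _ _
  have h4 : (0 : ℝ) ≤ ((k : ℝ) + 1) ^ m := by positivity
  linarith

/-- Unipotent isometries have arbitrarily small displacement. Proof. Fix `x = e0`. For `d = hd x (g^(2^k) x)`:
`exp d / 2 ≤ cosh d = q x (g^(2^k) x) ≤ C (2^k + 1)^m ≤ C 2^((k+1) m)` (`q_pow_le`), so
`d ≤ log (2C) + (k+1) m log 2`, and by `hd_half_pow` there is `y` with
`hd y (g y) ≤ (log (2C) + (k+1) m log 2)/2^k → 0`. -/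
theorem small_displacement {g : GLn n} (hg : IsIso (g : Matrix (Fin (n+1)) (Fin (n+1)) ℝ)) {m : ℕ}
    (hu : ((g : Matrix (Fin (n+1)) (Fin (n+1)) ℝ) - 1) ^ m = 0) (ε : ℝ) (hε : 0 < ε) :
    ∃ y ∈ Hyp n, hd y (ac g y) < ε := by
  have hpow : ∀ m : ℕ, IsIso (((g ^ m : GLn n)) : Matrix (Fin (n+1)) (Fin (n+1)) ℝ) := by
    intro m
    induction m with
    | zero =>
      rw [pow_zero, Units.val_one]
      exact IsIso.one
    | succ m ihm =>
      rw [pow_succ, Units.val_mul]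
      exact ihm.mul hg
  obtain ⟨C, hC1, hC⟩ := q_pow_le hu (e0 n)
  have hx : e0 n ∈ Hyp n := e0_mem
  -- bound of the distance
  have hb : ∀ k : ℕ, hd (e0 n) (ac (g ^ (2 ^ k)) (e0 n)) ≤
      Real.log (2 * C) + ((k : ℝ) + 1) * (m * Real.log 2) := by
    intro k
    have hy := ac_mem (hpow (2 ^ k)) hx
    have h1 := hC (2 ^ k)
    rw [← cosh_hd hx hy] at h1
    set D := hd (e0 n) (ac (g ^ (2 ^ k)) (e0 n)) with hD
    have h2 : Real.exp D ≤ 2 * Real.cosh D := by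
      rw [Real.cosh_eq]
      have := Real.exp_pos (-D)
      linarith
    have h3 : ((2 ^ k : ℕ) : ℝ) + 1 ≤ 2 ^ (k + 1) := by
      push_cast
      rw [pow_succ]
      have : (1 : ℝ) ≤ 2 ^ k := one_le_pow₀ (by norm_num)
      linarith
    have h4 : (((2 ^ k : ℕ) : ℝ) + 1) ^ m ≤ (2 ^ (k + 1)) ^ m :=
      pow_le_pow_left₀ (by positivity) h3 m
    have h5 : Real.exp D ≤ 2 * C * (2 ^ (k + 1)) ^ m := by
      have : C * (((2 ^ k : ℕ) : ℝ) + 1) ^ m ≤ C * (2 ^ (k + 1)) ^ m :=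
        mul_le_mul_of_nonneg_left h4 (by linarith)
      linarith
    have h6 := Real.log_le_log (Real.exp_pos D) h5
    rw [Real.log_exp, Real.log_mul (by positivity) (by positivity), Real.log_pow, Real.log_pow] at h6
    push_cast at h6
    linarith
  -- linear over exponential tends to zero
  have hlim : Filter.Tendsto (fun k : ℕ => (Real.log (2 * C) + ((k : ℝ) + 1) * (m * Real.log 2)) / 2 ^ k)
      Filter.atTop (nhds 0) := by
    have e1 : Filter.Tendsto (fun k : ℕ => (k : ℝ) / 2 ^ k) Filter.atTop (nhds 0) := by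
      have := tendsto_pow_const_div_const_pow_of_one_lt 1 (show (1 : ℝ) < 2 by norm_num)
      simpa using this
    have e2 : Filter.Tendsto (fun k : ℕ => (1 : ℝ) / 2 ^ k) Filter.atTop (nhds 0) := by
      have := tendsto_pow_const_div_const_pow_of_one_lt 0 (show (1 : ℝ) < 2 by norm_num)
      simpa using this
    have e3 := (e2.const_mul (Real.log (2 * C) + m * Real.log 2)).add
      (e1.const_mul (m * Real.log 2))
    rw [mul_zero, mul_zero, add_zero] at e3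
    refine e3.congr ?_
    intro k
    ring
  obtain ⟨k, hk⟩ := ((Filter.Tendsto.eventually_lt_const hε hlim)).exists
  obtain ⟨y, hy, h1⟩ := hd_half_pow hg k hx
  refine ⟨y, hy, h1.trans_lt (lt_of_le_of_lt ?_ hk)⟩
  exact div_le_div_of_nonneg_right (hb k) (by positivity)

end Pool.Agent.TGL
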