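import Pool.Agent.TGL.H13
import Pool.Agent.TGL.H18

/-!
# H21: cocompact properly discontinuous groups contain no unipotent elements
-/

set_option autoImplicit false
open Set

namespace Pool.Agent.TGL

variable {n : ℕ}

/-- A unipotent matrix of finite order over `ℝ` is `1`. Proof. `N = g - 1` is nilpotent and
`0 = (1+N)^k - 1 = N * (k + N * P)` for some matrix `P` commuting with `N` (binomial theorem, or
`Commute.add_pow`); `k • 1 + N * P` is a unit (`k ≠ 0`, `N * P` nilpotent: `IsNilpotent.isUnit_add_left_of_commute`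
or similar), so `N = 0`. (Other proof: the minimal polynomial divides both `(X-1)^m` and the separable `X^k - 1`.) -/
theorem eq_one_of_unip_of_finOrder {g : GLn n} {m k : ℕ}
    (hu : ((g : Matrix (Fin (n+1)) (Fin (n+1)) ℝ) - 1) ^ m = 0) (hk : 0 < k) (hg : g ^ k = 1) :
    g = 1 := by
  set N : Matrix (Fin (n+1)) (Fin (n+1)) ℝ := (g : Matrix (Fin (n+1)) (Fin (n+1)) ℝ) - 1 with hN
  have hg1 : (g : Matrix (Fin (n+1)) (Fin (n+1)) ℝ) = 1 + N := by
    rw [hN]
    abel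
  have hgk : (1 + N) ^ k = 1 := by
    rw [← hg1, ← Units.val_pow_eq_pow_val, hg, Units.val_one]
  have hnil : IsNilpotent N := ⟨m, hu⟩
  -- geometric sum
  have hgs : (∑ i ∈ Finset.range k, (1 + N) ^ i) * N = 0 := by
    have h1 := (Commute.one_right (1 + N)).geom_sum₂_mul k
    simp only [one_pow, mul_one, add_sub_cancel_left] at h1
    rw [h1, hgk, sub_self]
  -- the geometric sum is a unit
  have hunit : IsUnit (∑ i ∈ Finset.range k, (1 + N) ^ i) := by
    have h2 : ∃ P, Commute N P ∧ ∑ i ∈ Finset.range k, (1 + N) ^ i = (k : ℝ) • 1 + N * P := by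
      clear hgs hgk hg hk
      induction k with
      | zero => exact ⟨0, Commute.zero_right _, by simp⟩
      | succ k ih =>
        obtain ⟨P, hP, h3⟩ := ih
        have hpow : ∃ P', Commute N P' ∧ (1 + N) ^ k = 1 + N * P' := by
          clear h3 hP
          induction k with
          | zero => exact ⟨0, Commute.zero_right _, by simp⟩
          | succ k ih =>
            obtain ⟨P', hP', h4⟩ := ih
            refine ⟨P' * (1 + N) + 1, ?_, ?_⟩
            · exact (hP'.mul_right ((Commute.one_right N).add_right (Commute.refl N))).add_right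
                (Commute.one_right N)
            · rw [pow_succ, h4, add_mul, one_mul, mul_add N, mul_one, mul_assoc]
              abel
        obtain ⟨P', hP', h4⟩ := hpow
        refine ⟨P + P', hP.add_right hP', ?_⟩
        rw [Finset.sum_range_succ, h3, h4, mul_add]
        push_cast
        rw [add_smul, one_smul]
        abel
    obtain ⟨P, hP, h3⟩ := h2
    rw [h3]
    have h4 : IsNilpotent (N * P) := hP.isNilpotent_mul_right hnil
    have h5 : IsUnit ((k : ℝ) • (1 : Matrix (Fin (n+1)) (Fin (n+1)) ℝ)) := by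
      have hk0 : (k : ℝ) ≠ 0 := by positivity
      refine ⟨⟨(k : ℝ) • 1, (k : ℝ)⁻¹ • 1, ?_, ?_⟩, rfl⟩
      · rw [smul_mul_smul_comm, mul_one, mul_inv_cancel₀ hk0, one_smul]
      · rw [smul_mul_smul_comm, mul_one, inv_mul_cancel₀ hk0, one_smul]
    refine h4.isUnit_add_left_of_commute h5 ?_
    exact ((Commute.one_left (N * P)).smul_left (k : ℝ)).symm
  have hN0 : N = 0 := by
    have := hunit.mul_left_cancel (a := ∑ i ∈ Finset.range k, (1 + N) ^ i) (b := N) (c := 0)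
      (by rw [hgs, mul_zero])
    exact this
  apply Units.ext
  rw [hg1, hN0, add_zero, Units.val_one]

/-- If conjugates `g j` of elements move points `y j` of a compact set `K` by `≤ 1/(j+1)`, some `g j` has a
fixed point. Proof. Let `K ⊆ ball e0 r` (`exists_ball`), `K' = ball e0 (r+1)` compact. All `g j` belong to the
finite set `{g ∈ Γ | ∃ x ∈ K', g x ∈ K'}`, so (pigeonhole for infinite type, `Finite.exists_infinite_fiber` or
`Set.infinite…`) some `γ` equals `g j` for infinitely many `j`; by compactness of `K` a subsequence of the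
corresponding `y j` converges to `y ∈ K` (`IsCompact.tendsto_subseq`). `q (y j) (γ (y j)) ≤ cosh (1/(j+1)) → 1`, so by
continuity `q y (γ y) ≤ 1`, hence `γ y = y` (`one_le_q`, `eq_of_q_eq_one`). -/
theorem exists_fixed_of_small {Γ : Subgroup (GLn n)} (hΓ : IsoGrp Γ) (hpd : PrDisc Γ)
    {K : Set (Fin (n+1) → ℝ)} (hK : IsCompact K) (hKH : K ⊆ Hyp n) (g : ℕ → GLn n)
    (hg : ∀ j, g j ∈ Γ) (y : ℕ → (Fin (n+1) → ℝ)) (hy : ∀ j, y j ∈ K)
    (hsmall : ∀ j, hd (y j) (ac (g j) (y j)) ≤ 1 / ((j : ℝ) + 1)) :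
    ∃ j, ∃ z ∈ Hyp n, ac (g j) z = z := by
  classical
  obtain ⟨r, hr, hball⟩ := exists_ball hK hKH (e0_mem (n := n))
  have hyH : ∀ j, y j ∈ Hyp n := fun j => hKH (hy j)
  have hfin := hpd {x | x ∈ Hyp n ∧ hd (e0 n) x ≤ r + 1} (isCompact_ball e0_mem (r + 1))
    (fun x hx => hx.1)
  have hmem : ∀ j, g j ∈ {g : GLn n | g ∈ Γ ∧ ∃ x ∈ {x | x ∈ Hyp n ∧ hd (e0 n) x ≤ r + 1},
      ac g x ∈ {x | x ∈ Hyp n ∧ hd (e0 n) x ≤ r + 1}} := by
    intro j
    have h1 : ac (g j) (y j) ∈ Hyp n := ac_mem (hΓ _ (hg j)) (hyH j)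
    have h2 := hd_triangle e0_mem (hyH j) h1
    have h3 := hball _ (hy j)
    have h4 : (1 : ℝ) / ((j : ℝ) + 1) ≤ 1 := by
      rw [div_le_one (by positivity)]
      linarith [(Nat.cast_nonneg j : (0 : ℝ) ≤ (j : ℝ))]
    exact ⟨hg j, y j, ⟨hyH j, by linarith⟩, h1, by linarith [hsmall j]⟩
  obtain ⟨a, haK, φ, hφ, hlim⟩ := hK.tendsto_subseq hy
  have hfreq : ∃ γ : GLn n, ∃ᶠ j in Filter.atTop, g (φ j) = γ := by
    by_contra hcon
    push Not at hcon
    have h1 : ∀ γ ∈ {g : GLn n | g ∈ Γ ∧ ∃ x ∈ {x | x ∈ Hyp n ∧ hd (e0 n) x ≤ r + 1},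
        ac g x ∈ {x | x ∈ Hyp n ∧ hd (e0 n) x ≤ r + 1}}, ∀ᶠ j in Filter.atTop, g (φ j) ≠ γ :=
      fun γ _ => hcon γ
    rw [← Filter.eventually_all_finite hfin] at h1
    obtain ⟨j, hj⟩ := h1.exists
    exact hj _ (hmem (φ j)) rfl
  obtain ⟨γ, hγ⟩ := hfreq
  obtain ⟨ψ, hψ, hgψ⟩ := Filter.extraction_of_frequently_atTop hγ
  have hlim2 : Filter.Tendsto (fun j => y (φ (ψ j))) Filter.atTop (nhds a) :=
    hlim.comp hψ.tendsto_atTop
  have hcont : Continuous fun x : Fin (n+1) → ℝ => q x (ac γ x) := by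
    unfold q ac Matrix.mulVec dotProduct
    fun_prop
  have hlim3 : Filter.Tendsto (fun j => q (y (φ (ψ j))) (ac γ (y (φ (ψ j))))) Filter.atTop
      (nhds (q a (ac γ a))) := (hcont.tendsto a).comp hlim2
  have hle : ∀ j, q (y (φ (ψ j))) (ac γ (y (φ (ψ j)))) ≤ Real.cosh (1 / ((j : ℝ) + 1)) := by
    intro j
    have h1 : ac (g (φ (ψ j))) (y (φ (ψ j))) ∈ Hyp n := ac_mem (hΓ _ (hg _)) (hyH _)
    have h2 := hsmall (φ (ψ j))
    rw [hgψ j] at h1 h2
    have h3 : (1 : ℝ) / ((φ (ψ j) : ℝ) + 1) ≤ 1 / ((j : ℝ) + 1) := by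
      apply one_div_le_one_div_of_le (by positivity)
      have h4 : j ≤ φ (ψ j) := (hψ.id_le j).trans (hφ.id_le (ψ j))
      have h5 : (j : ℝ) ≤ (φ (ψ j) : ℝ) := by exact_mod_cast h4
      linarith
    exact (hd_le_iff (hyH _) h1 (by positivity)).1 (h2.trans h3)
  have hlim4 : Filter.Tendsto (fun j : ℕ => Real.cosh (1 / ((j : ℝ) + 1))) Filter.atTop (nhds 1) := by
    have h1 := (Real.continuous_cosh.tendsto 0).comp (tendsto_one_div_add_atTop_nhds_zero_nat (𝕜 := ℝ))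
    rw [Real.cosh_zero] at h1
    exact h1
  have hqle : q a (ac γ a) ≤ 1 := le_of_tendsto_of_tendsto' hlim3 hlim4 hle
  have haH : a ∈ Hyp n := hKH haK
  have hγΓ : γ ∈ Γ := by rw [← hgψ 0]; exact hg _
  have hγa : ac γ a ∈ Hyp n := ac_mem (hΓ _ hγΓ) haH
  have heq := eq_of_q_eq_one haH hγa (le_antisymm hqle (one_le_q haH hγa))
  exact ⟨φ (ψ 0), a, haH, by rw [hgψ 0]; exact heq.symm⟩

/-- An element of `Γ` with a fixed point has finite order. Proof: the set `{g ∈ Γ | ∃ x ∈ {z}, g x ∈ {z}}` is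
finite (`PrDisc` with `K = {z}`) and contains all powers of `g`; so `g^a = g^b` for some `a < b`
(`Set.Finite`/`isOfFinOrder_iff_…`, `Set.infinite…`). -/
theorem finOrder_of_fixed {Γ : Subgroup (GLn n)} (hpd : PrDisc Γ) {g : GLn n} (hg : g ∈ Γ)
    {z : Fin (n+1) → ℝ} (hz : z ∈ Hyp n) (hfix : ac g z = z) : ∃ k : ℕ, 0 < k ∧ g ^ k = 1 := by
  have hfin := hpd {z} isCompact_singleton (Set.singleton_subset_iff.2 hz)
  have hpow : ∀ k : ℕ, ac (g ^ k) z = z := by
    intro k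
    induction k with
    | zero => rw [pow_zero, ac_one]
    | succ k ih => rw [pow_succ, ac_mul, hfix, ih]
  have hmem : ∀ k : ℕ, g ^ k ∈ {g : GLn n | g ∈ Γ ∧ ∃ x ∈ ({z} : Set (Fin (n+1) → ℝ)), ac g x ∈ ({z} : Set (Fin (n+1) → ℝ))} :=
    fun k => ⟨pow_mem hg k, z, Set.mem_singleton z, by rw [hpow]; exact Set.mem_singleton z⟩
  have hni : ¬ Function.Injective fun k : ℕ => g ^ k := fun hinj =>
    Set.infinite_of_injective_forall_mem hinj hmem hfin
  rw [injective_pow_iff_not_isOfFinOrder, not_not] at hni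
  exact isOfFinOrder_iff_pow_eq_one.1 hni

/-- Proof. For each `j` take `x j ∈ Hyp n` with `hd (x j) (g (x j)) < 1/(j+1)` (`small_displacement`), and
`h j ∈ Γ`, `y j ∈ K` with `ac (h j) (y j) = x j` (`Cocpt`). Then `g' j = (h j)⁻¹ g (h j) ∈ Γ` moves `y j` by the same
amount (`hd_ac`). By `exists_fixed_of_small` some `g' j` fixes a point, so has finite order
(`finOrder_of_fixed`), and so does `g`; then `eq_one_of_unip_of_finOrder`. -/
theorem no_unipotent {Γ : Subgroup (GLn n)} (hΓ : IsoGrp Γ) (hpd : PrDisc Γ) (hco : Cocpt Γ)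
    {g : GLn n} (hg : g ∈ Γ) {m : ℕ}
    (hu : ((g : Matrix (Fin (n+1)) (Fin (n+1)) ℝ) - 1) ^ m = 0) : g = 1 := by
  obtain ⟨K, hK, hKH, hKc⟩ := hco
  have h1 : ∀ j : ℕ, ∃ h : GLn n, h ∈ Γ ∧ ∃ y ∈ K, hd (ac h y) (ac g (ac h y)) ≤ 1 / ((j : ℝ) + 1) := by
    intro j
    obtain ⟨x, hx, hxg⟩ := small_displacement (hΓ g hg) hu (1 / ((j : ℝ) + 1)) (by positivity)
    obtain ⟨h, hh, y, hy, hyx⟩ := hKc x hx
    refine ⟨h, hh, y, hy, ?_⟩
    rw [hyx]
    exact hxg.le
  choose h hh y hy hd1 using h1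
  obtain ⟨j, z, hz, hfix⟩ := exists_fixed_of_small hΓ hpd hK hKH (fun j => (h j)⁻¹ * g * h j)
    (fun j => Γ.mul_mem (Γ.mul_mem (Γ.inv_mem (hh j)) hg) (hh j)) y hy (fun j => by
      rw [← hd_ac (hΓ (h j) (hh j)) (y j)]
      have h3 : ac (h j) (ac ((h j)⁻¹ * g * h j) (y j)) = ac g (ac (h j) (y j)) := by
        rw [ac_mul, ac_mul, ac_ac_inv]
      rw [h3]
      exact hd1 j)
  have hfix' : ac g (ac (h j) z) = ac (h j) z := by
    have h4 : ac (h j) (ac ((h j)⁻¹ * g * h j) z) = ac g (ac (h j) z) := by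
      rw [ac_mul, ac_mul, ac_ac_inv]
    rw [← h4]
    exact congrArg (ac (h j)) hfix
  obtain ⟨k, hk, hgk⟩ := finOrder_of_fixed hpd hg (ac_mem (hΓ (h j) (hh j)) hz) hfix'
  exact eq_one_of_unip_of_finOrder hu hk hgk

end Pool.Agent.TGL
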