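import Pool.Agent.TGL.Defs

set_option autoImplicit false
open Set

namespace Pool.Agent.TGL

variable {E : Type*} {D : E → E → ℝ}

theorem PMet.nonneg (h : PMet D) (x y : E) : 0 ≤ D x y := by
  have h1 := h.tri x y x
  rw [h.self, h.symm y x] at h1
  linarith

theorem PMet.eq_left (h : PMet D) {x y : E} (hxy : D x y = 0) (z : E) : D x z = D y z := by
  have h1 := h.tri x y z
  have h2 := h.tri y x z
  rw [h.symm y x] at h2
  linarith

theorem PMet.eq_right (h : PMet D) {x y : E} (hxy : D x y = 0) (z : E) : D z x = D z y := by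
  rw [h.symm z x, h.symm z y]
  exact h.eq_left hxy z

theorem gp_comm (h : PMet D) (x y w : E) : gp D x y w = gp D y x w := by
  unfold gp
  rw [h.symm x y]
  ring

theorem gp_nonneg (h : PMet D) (x y w : E) : 0 ≤ gp D x y w := by
  unfold gp
  have := h.tri x w y
  rw [h.symm w y] at this
  linarith

/-- `gp(x,y;w) ≥ D(x,w) - D(x,y)`. -/
theorem gp_ge (h : PMet D) (x y w : E) : D x w - D x y ≤ gp D x y w := by
  unfold gp
  have := h.tri x y w
  linarith

theorem gp_ge' (h : PMet D) (x y w : E) : D y w - D x y ≤ gp D x y w := by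
  rw [gp_comm h, h.symm x y]
  exact gp_ge h y x w

theorem gp_le_left (h : PMet D) (x y w : E) : gp D x y w ≤ D x w := by
  unfold gp
  have := h.tri y x w
  rw [h.symm y x] at this
  linarith

theorem gp_le_right (h : PMet D) (x y w : E) : gp D x y w ≤ D y w := by
  rw [gp_comm h]
  exact gp_le_left h y x w

/-- `gp(a,x;b) + gp(b,x;a) = D(a,b)`. -/
theorem gp_sum (h : PMet D) (a b x : E) : gp D a x b + gp D b x a = D a b := by
  unfold gp
  rw [h.symm b a, h.symm x b, h.symm x a]
  ring

/-- The Gromov product is 1-Lipschitz in each variable (here the second). -/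
theorem gp_lip (h : PMet D) (x y y' w : E) : gp D x y w ≤ gp D x y' w + D y y' := by
  unfold gp
  have h1 := h.tri y y' w
  have h2 := h.tri x y y'
  rw [] at h2
  linarith

/-- Truncation: if `x'` lies on a geodesic from `w` to `x`, the Gromov product decreases. -/
theorem gp_trunc (h : PMet D) {x x' z w : E} (hx : D x w = D x x' + D x' w) :
    gp D x' z w ≤ gp D x z w := by
  unfold gp
  have h1 := h.tri x x' z
  linarith

theorem gp_trunc' (h : PMet D) {x z z' w : E} (hz : D z w = D z z' + D z' w) :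
    gp D x z' w ≤ gp D x z w := by
  rw [gp_comm h x z' w, gp_comm h x z w]
  exact gp_trunc h hz

/-- Hyperbolicity in terms of Gromov products. -/
theorem gp_hyp (h : PMet D) {R δ : ℝ} (hLH : LH D R δ) (x y z w : E) (hxy : D x y ≤ R)
    (hxz : D x z ≤ R) (hyz : D y z ≤ R) (hxw : D x w ≤ R) (hyw : D y w ≤ R) (hzw : D z w ≤ R) :
    min (gp D x y w) (gp D y z w) - δ ≤ gp D x z w := by
  have h1 := hLH x z y w hxz hxy hxw (by rw [h.symm]; exact hyz) hzw hyw
  unfold gp
  rcases le_max_iff.mp (show D x z + D y w - 2 * δ ≤ max (D x y + D z w) (D x w + D z y) by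
    linarith) with h2 | h2
  · have : min ((D x w + D y w - D x y) / 2) ((D y w + D z w - D y z) / 2) ≤
      (D x w + D y w - D x y) / 2 := min_le_left _ _
    linarith
  · have : min ((D x w + D y w - D x y) / 2) ((D y w + D z w - D y z) / 2) ≤
      (D y w + D z w - D y z) / 2 := min_le_right _ _
    rw [h.symm z y] at h2
    linarith

/-- Projection lemma: a point `a` and a path `Q` whose ends are almost as far apart as possible. -/
theorem proj (h : PMet D) {R δ K : ℝ} (hLH : LH D R δ) (Q : ℝ → E) (α β : ℝ) (hαβ : α ≤ β)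
    (hup : ∀ s ∈ Icc α β, ∀ t ∈ Icc α β, D (Q s) (Q t) ≤ |s - t|)
    (hlow : (β - α) - K ≤ D (Q α) (Q β)) (a : E) (hR : D a (Q α) + (β - α) ≤ R) :
    ∃ s ∈ Icc α β, D a (Q s) ≤ gp D (Q α) (Q β) a + K + 2 * δ := by
  have hα : α ∈ Icc α β := ⟨le_rfl, hαβ⟩
  have hβ : β ∈ Icc α β := ⟨hαβ, le_rfl⟩
  set u := gp D a (Q β) (Q α) with hu
  have hu0 : 0 ≤ u := gp_nonneg h _ _ _
  have hul : u ≤ D (Q β) (Q α) := gp_le_right h _ _ _
  have hd : D (Q β) (Q α) ≤ β - α := by
    have := hup β hβ α hα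
    rwa [abs_of_nonneg (by linarith)] at this
  have hs : α + u ∈ Icc α β := ⟨by linarith, by linarith⟩
  refine ⟨α + u, hs, ?_⟩
  have h1 : D (Q (α + u)) (Q α) ≤ u := by
    have := hup _ hs _ hα
    rwa [show α + u - α = u by ring, abs_of_nonneg hu0] at this
  have h2 : D (Q (α + u)) (Q β) ≤ β - α - u := by
    have := hup _ hs _ hβ
    rwa [show α + u - β = -(β - α - u) by ring, abs_neg, abs_of_nonneg (by linarith)] at this
  have hub : ∀ s ∈ Icc α β, D a (Q s) ≤ R := by
    intro s hs
    have h3 := h.tri a (Q α) (Q s)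
    have h4 := hup α hα s hs
    have h5 : |α - s| ≤ β - α := by
      rw [abs_le]
      constructor <;> linarith [hs.1, hs.2]
    linarith
  have hQ : ∀ s ∈ Icc α β, ∀ t ∈ Icc α β, D (Q s) (Q t) ≤ R := by
    intro s hs t ht
    have h4 := hup s hs t ht
    have h5 : |s - t| ≤ β - α := by
      rw [abs_le]
      constructor <;> linarith [hs.1, hs.2, ht.1, ht.2]
    have h6 := h.nonneg a (Q α)
    linarith
  have h3 := hLH a (Q (α + u)) (Q α) (Q β) (hub _ hs) (hub _ hα) (hub _ hβ) (hQ _ hs _ hα)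
    (hQ _ hs _ hβ) (hQ _ hα _ hβ)
  have h4 : D a (Q α) = gp D (Q α) (Q β) a + u := by
    have := gp_sum h a (Q α) (Q β)
    rw [hu]
    linarith
  have h5 : D a (Q β) = gp D (Q α) (Q β) a + (D (Q β) (Q α) - u) := by
    rw [hu]
    unfold gp
    rw [h.symm (Q α) a, h.symm (Q β) a, h.symm (Q α) (Q β)]
    ring
  rw [h.symm (Q α) (Q β)] at hlow
  rw [h.symm (Q α) (Q β)] at h3
  rcases le_max_iff.mp (show D a (Q (α + u)) + D (Q β) (Q α) - 2 * δ ≤
    max (D a (Q α) + D (Q (α + u)) (Q β)) (D a (Q β) + D (Q (α + u)) (Q α)) by linarith) with h6 | h6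
  · linarith
  · have : 0 ≤ K ∨ K < 0 := le_or_gt 0 K
    rcases this with hK | hK
    · linarith
    · exfalso
      linarith

end Pool.Agent.TGL
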