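import Pool.Agent.TGL.A5

set_option autoImplicit false
open Set

namespace Pool.Agent.TGL

variable {E : Type*} {D d : E → E → ℝ}

/-- `g` is a geodesic from `x` to `w` for both `D` and `d`. -/
structure Both (D d : E → E → ℝ) (g : ℝ → E) (x w : E) : Prop where
  left : g 0 = x
  right : g (D x w) = w
  distD : ∀ s ∈ Icc (0 : ℝ) (D x w), ∀ t ∈ Icc (0 : ℝ) (D x w), D (g s) (g t) = |s - t|
  distd : ∀ s ∈ Icc (0 : ℝ) (D x w), ∀ t ∈ Icc (0 : ℝ) (D x w), d (g s) (g t) = |s - t|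

theorem long_path {δ κ μ K Λ L R B : ℝ} (hc : Cst δ κ μ K Λ L R B) (hD : PMet D) (hd : PMet d)
    (hLH : LH D R δ) (o : E)
    (hlift : ∀ x y : E, ∃ w, D w y = 0 ∧ ∃ g, Both D d g x w)
    (hNDE : ∀ y : E, ∃ z z', Λ / 2 ≤ D y z ∧ D y z ≤ 3 * Λ ∧ Λ / 2 ≤ D y z' ∧ D y z' ≤ 3 * Λ ∧
      gp D z z' y ≤ κ - δ) (T0 : ℝ) :
    ∃ P : Pth D o K L, d (P.p 0) o = 0 ∧ T0 ≤ P.T ∧
      ∀ s ∈ Icc (0 : ℝ) P.T, ∀ t ∈ Icc (0 : ℝ) P.T, d (P.p s) (P.p t) ≤ |s - t| := by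
  have hc' := hc
  obtain ⟨hδ, hκ, hμ, hK, hΛ, hL, hR, hB⟩ := hc
  have hKnn : 0 ≤ K := by rw [hK]; nlinarith
  have hΛ0 : 0 < Λ := by linarith
  have hRΛ : 100000 * Λ ≤ R := by
    rw [hL] at hR
    linarith
  have next : ∀ p : E × E, D p.1 p.2 ≤ 3 * Λ → ∃ w, Λ / 2 ≤ D p.2 w ∧ D p.2 w ≤ 3 * Λ ∧
      gp D p.1 w p.2 ≤ κ ∧ ∃ g, Both D d g p.2 w := by
    rintro ⟨a, y⟩ hay
    simp only at hay ⊢
    obtain ⟨z, z', h1, h2, h3, h4, h5⟩ := hNDE y
    have hz : ∃ z, Λ / 2 ≤ D y z ∧ D y z ≤ 3 * Λ ∧ gp D a z y ≤ κ := by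
      have t1 := hD.tri z y a
      have t2 := hD.tri z y z'
      have t3 := hD.tri a y z'
      rw [hD.symm z y] at t1 t2
      rw [hD.symm y a] at t1
      have h6 := gp_hyp hD hLH z a z' y (by linarith) (by linarith) (by linarith)
        (by rw [hD.symm]; linarith) (by linarith) (by rw [hD.symm]; linarith)
      rcases min_choice (gp D z a y) (gp D a z' y) with h7 | h7
      · rw [h7] at h6
        exact ⟨z, h1, h2, by rw [gp_comm hD]; linarith⟩
      · rw [h7] at h6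
        exact ⟨z', h3, h4, by linarith⟩
    obtain ⟨z, h1, h2, h6⟩ := hz
    obtain ⟨w, hw, hg⟩ := hlift y z
    have e1 : D y w = D y z := hD.eq_right hw y
    refine ⟨w, by rw [e1]; exact h1, by rw [e1]; exact h2, ?_, hg⟩
    unfold gp at h6 ⊢
    rw [hD.eq_left hw, hD.eq_right hw]
    exact h6
  have : Nonempty E := ⟨o⟩
  choose! N hN1 hN2 hN3 G hG using next
  set st : ℕ → E × E := fun a => Nat.rec (o, o) (fun _ p => (p.2, N p)) a with hst
  have st0 : st 0 = (o, o) := rfl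
  have stS : ∀ a, st (a + 1) = ((st a).2, N (st a)) := fun a => rfl
  set u : ℕ → E := fun a => (st a).2 with hu
  have hst3 : ∀ a, D (st a).1 (st a).2 ≤ 3 * Λ := by
    intro a
    induction a with
    | zero =>
      rw [st0]
      simp only
      rw [hD.self]
      linarith
    | succ a ih =>
      rw [stS]
      exact hN2 _ ih
  have uS : ∀ a, u (a + 1) = N (st a) := fun a => rfl
  have l1 : ∀ a, Λ / 2 ≤ D (u a) (u (a + 1)) := fun a => hN1 _ (hst3 a)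
  have l2 : ∀ a, D (u a) (u (a + 1)) ≤ 3 * Λ := fun a => hN2 _ (hst3 a)
  have l3 : ∀ a, gp D (u a) (u (a + 2)) (u (a + 1)) ≤ κ := by
    intro a
    have := hN3 _ (hst3 (a + 1))
    rw [stS a] at this
    have e : u (a + 2) = N (st (a + 1)) := rfl
    rw [e, stS a]
    exact this
  have l4 : ∀ a, Both D d (G (st a)) (u a) (u (a + 1)) := fun a => hG _ (hst3 a)
  set g : ℕ → ℝ → E := fun a => G (st a) with hg
  have hgeod : ∀ a, IsGeod D (g a) (D (u a) (u (a + 1))) (u a) (u (a + 1)) := by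
    intro a
    refine ⟨hD.nonneg _ _, ?_, ?_, (l4 a).distD⟩
    · show D (G (st a) 0) (u a) = 0
      rw [(l4 a).left, hD.self]
    · show D (G (st a) (D (u a) (u (a + 1)))) (u (a + 1)) = 0
      rw [(l4 a).right, hD.self]
  obtain ⟨m, hm⟩ := exists_nat_ge (max (2 * T0 / Λ) 1)
  have hm1 : 1 ≤ m := by
    have : (1 : ℝ) ≤ (m : ℝ) := (le_max_right _ _).trans hm
    exact_mod_cast this
  have hmT : 2 * T0 / Λ ≤ (m : ℝ) := (le_max_left _ _).trans hm
  obtain ⟨P, hPT, hPp⟩ := bg hc' hD hLH o u g m hm1 (by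
      show D (st 0).2 o = 0
      rw [st0]
      exact hD.self o) (fun a _ => hgeod a) (fun a _ => l2 a) (fun a _ => l1 a) (fun a _ => l3 a)
  set l : ℕ → ℝ := fun a => D (u a) (u (a + 1)) with hl
  have hl0 : ∀ j, 0 ≤ l j := fun j => hD.nonneg _ _
  have hg1 : ∀ a < m, ∀ s ∈ Icc (0 : ℝ) (l a), ∀ t ∈ Icc (0 : ℝ) (l a),
      d (g a s) (g a t) ≤ |s - t| := fun a _ s hs t ht => ((l4 a).distd s hs t ht).le
  have hgg : ∀ a, a + 1 < m → d (g a (l a)) (g (a + 1) 0) = 0 := by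
    intro a _
    have e1 : g a (l a) = u (a + 1) := (l4 a).right
    have e2 : g (a + 1) 0 = u (a + 1) := (l4 (a + 1)).left
    rw [e1, e2, hd.self]
  refine ⟨P, ?_, ?_, ?_⟩
  · have e1 := cat_eq hd hl0 hm1 hg1 hgg 0 (by omega) 0 ⟨le_rfl, hl0 0⟩
    rw [Sm_zero, add_zero] at e1
    rw [hPp, hd.eq_left e1]
    have e2 : g 0 0 = u 0 := (l4 0).left
    rw [e2]
    exact hd.self o
  · rw [hPT]
    have : ∀ k : ℕ, (k : ℝ) * (Λ / 2) ≤ Sm l k := by
      intro k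
      induction k with
      | zero => rw [Sm_zero]; simp
      | succ k ih =>
        rw [Sm_succ]
        have e : Λ / 2 ≤ l k := l1 k
        push_cast
        linarith
    have e1 := this m
    rw [div_le_iff₀ hΛ0] at hmT
    linarith
  · rw [hPT, hPp]
    exact cat_lip hd hl0 hm1 hg1 hgg

end Pool.Agent.TGL
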