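import Pool.Agent.TGL.A1

set_option autoImplicit false
open Set

namespace Pool.Agent.TGL

/-- Partial sums of the lengths. -/
noncomputable def Sm (l : ℕ → ℝ) (a : ℕ) : ℝ := ∑ j ∈ Finset.range a, l j

/-- Index of the segment containing time `t`. -/
noncomputable def ix (l : ℕ → ℝ) (m : ℕ) (t : ℝ) : ℕ :=
  haveI : DecidablePred (fun a => Sm l a ≤ t) := Classical.decPred _
  Nat.findGreatest (fun a => Sm l a ≤ t) (m - 1)

/-- Concatenation of the segments `g 0, …, g (m-1)` of lengths `l 0, …, l (m-1)`. -/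
noncomputable def cat {E : Type*} (l : ℕ → ℝ) (g : ℕ → ℝ → E) (m : ℕ) (t : ℝ) : E :=
  g (ix l m t) (t - Sm l (ix l m t))

theorem Sm_zero (l : ℕ → ℝ) : Sm l 0 = 0 := by simp [Sm]

theorem Sm_succ (l : ℕ → ℝ) (a : ℕ) : Sm l (a + 1) = Sm l a + l a := by
  simp [Sm, Finset.sum_range_succ]

theorem Sm_mono {l : ℕ → ℝ} (hl : ∀ j, 0 ≤ l j) {a b : ℕ} (h : a ≤ b) : Sm l a ≤ Sm l b := by
  induction b, h using Nat.le_induction with
  | base => exact le_rfl
  | succ b _ ih =>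
    rw [Sm_succ]
    linarith [hl b]

theorem ix_spec {l : ℕ → ℝ} {m : ℕ} (hm : 1 ≤ m) {t : ℝ} (ht : t ∈ Icc (0 : ℝ) (Sm l m)) :
    ix l m t < m ∧ Sm l (ix l m t) ≤ t ∧ t ≤ Sm l (ix l m t + 1) := by
  classical
  have h1 : ix l m t ≤ m - 1 := by
    unfold ix
    exact Nat.findGreatest_le _
  have h2 : Sm l (ix l m t) ≤ t := by
    unfold ix
    exact Nat.findGreatest_spec (P := fun a => Sm l a ≤ t) (Nat.zero_le (m - 1))
      (by rw [Sm_zero]; exact ht.1)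
  refine ⟨by omega, h2, ?_⟩
  rcases lt_or_ge (ix l m t) (m - 1) with h3 | h3
  · have h4 : ¬ (Sm l (ix l m t + 1) ≤ t) := by
      have : ix l m t < ix l m t + 1 := Nat.lt_succ_self _
      exact Nat.findGreatest_is_greatest (P := fun a => Sm l a ≤ t) (n := m - 1)
        (k := ix l m t + 1) (by unfold ix at this ⊢; exact this) (by omega)
    push Not at h4
    exact h4.le
  · have : ix l m t + 1 = m := by omega
    rw [this]
    exact ht.2

theorem ix_mono {l : ℕ → ℝ} {m : ℕ} (hm : 1 ≤ m) {s t : ℝ} (hs : s ∈ Icc (0 : ℝ) (Sm l m))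
    (hst : s ≤ t) : ix l m s ≤ ix l m t := by
  classical
  have h1 := ix_spec hm hs
  unfold ix at h1 ⊢
  exact Nat.le_findGreatest (by omega) (h1.2.1.trans hst)

section seg

variable {E : Type*} {D : E → E → ℝ} {l : ℕ → ℝ} {g : ℕ → ℝ → E} {m : ℕ}

theorem seg_le (hD : PMet D) (hl : ∀ j, 0 ≤ l j)
    (hg : ∀ a < m, ∀ s ∈ Icc (0 : ℝ) (l a), ∀ t ∈ Icc (0 : ℝ) (l a), D (g a s) (g a t) ≤ |s - t|)
    (hgg : ∀ a, a + 1 < m → D (g a (l a)) (g (a + 1) 0) = 0)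
    (a k : ℕ) (hak : a ≤ k) (hk : k < m) (s : ℝ) (hs : s ∈ Icc (0 : ℝ) (l a)) :
    ∀ r ∈ Icc (0 : ℝ) (l k), Sm l a + s ≤ Sm l k + r →
      D (g a s) (g k r) ≤ (Sm l k + r) - (Sm l a + s) := by
  induction k, hak using Nat.le_induction with
  | base =>
    intro r hr h
    have h1 := hg a hk s hs r hr
    rw [abs_sub_comm, abs_of_nonneg (by linarith)] at h1
    linarith
  | succ k hak ih =>
    intro r hr h
    have hlk : l k ∈ Icc (0 : ℝ) (l k) := ⟨hl k, le_rfl⟩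
    have h0 : Sm l a + s ≤ Sm l k + l k := by
      rw [← Sm_succ]
      have : Sm l (a + 1) ≤ Sm l (k + 1) := Sm_mono hl (by omega)
      rw [Sm_succ l a] at this
      linarith [hs.2]
    have h1 := ih (by omega) (l k) hlk h0
    have h2 := hgg k hk
    have h3 := hg (k + 1) hk 0 ⟨le_rfl, hl _⟩ r hr
    rw [abs_sub_comm, sub_zero, abs_of_nonneg hr.1] at h3
    have h4 := hD.tri (g a s) (g k (l k)) (g (k + 1) r)
    have h5 := hD.tri (g k (l k)) (g (k + 1) 0) (g (k + 1) r)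
    rw [Sm_succ]
    linarith

theorem cat_lip (hD : PMet D) (hl : ∀ j, 0 ≤ l j) (hm : 1 ≤ m)
    (hg : ∀ a < m, ∀ s ∈ Icc (0 : ℝ) (l a), ∀ t ∈ Icc (0 : ℝ) (l a), D (g a s) (g a t) ≤ |s - t|)
    (hgg : ∀ a, a + 1 < m → D (g a (l a)) (g (a + 1) 0) = 0) :
    ∀ s ∈ Icc (0 : ℝ) (Sm l m), ∀ t ∈ Icc (0 : ℝ) (Sm l m), D (cat l g m s) (cat l g m t) ≤ |s - t| := by
  have key : ∀ s ∈ Icc (0 : ℝ) (Sm l m), ∀ t ∈ Icc (0 : ℝ) (Sm l m), s ≤ t →
      D (cat l g m s) (cat l g m t) ≤ t - s := by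
    intro s hs t ht hst
    have h1 := ix_spec hm hs
    have h2 := ix_spec hm ht
    have h3 := ix_mono hm hs hst
    rw [Sm_succ] at h1 h2
    have h4 := seg_le hD hl hg hgg _ _ h3 h2.1 (s - Sm l (ix l m s))
      ⟨by linarith [h1.2.1], by linarith [h1.2.2]⟩ (t - Sm l (ix l m t))
      ⟨by linarith [h2.2.1], by linarith [h2.2.2]⟩ (by linarith)
    unfold cat
    linarith
  intro s hs t ht
  rcases le_total s t with h | h
  · rw [abs_sub_comm, abs_of_nonneg (by linarith)]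
    exact key s hs t ht h
  · rw [abs_of_nonneg (by linarith), hD.symm]
    exact key t ht s hs h

theorem cat_eq (hD : PMet D) (hl : ∀ j, 0 ≤ l j) (hm : 1 ≤ m)
    (hg : ∀ a < m, ∀ s ∈ Icc (0 : ℝ) (l a), ∀ t ∈ Icc (0 : ℝ) (l a), D (g a s) (g a t) ≤ |s - t|)
    (hgg : ∀ a, a + 1 < m → D (g a (l a)) (g (a + 1) 0) = 0)
    (a : ℕ) (ha : a < m) (r : ℝ) (hr : r ∈ Icc (0 : ℝ) (l a)) :
    D (cat l g m (Sm l a + r)) (g a r) = 0 := by
  have ht : Sm l a + r ∈ Icc (0 : ℝ) (Sm l m) := by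
    have h0 : Sm l 0 ≤ Sm l a := Sm_mono hl (Nat.zero_le a)
    rw [Sm_zero] at h0
    have h1 : Sm l (a + 1) ≤ Sm l m := Sm_mono hl ha
    rw [Sm_succ] at h1
    exact ⟨by linarith [hr.1], by linarith [hr.2]⟩
  have h1 := ix_spec hm ht
  rw [Sm_succ] at h1
  have h0 := hD.nonneg (cat l g m (Sm l a + r)) (g a r)
  have hi : Sm l a + r - Sm l (ix l m (Sm l a + r)) ∈ Icc (0 : ℝ) (l (ix l m (Sm l a + r))) :=
    ⟨by linarith [h1.2.1], by linarith [h1.2.2]⟩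
  rcases le_total (ix l m (Sm l a + r)) a with h2 | h2
  · have h3 := seg_le hD hl hg hgg _ _ h2 ha _ hi r hr (by linarith)
    unfold cat at h0 ⊢
    linarith
  · have h3 := seg_le hD hl hg hgg _ _ h2 h1.1 r hr _ hi (by linarith)
    rw [hD.symm] at h3
    unfold cat at h0 ⊢
    linarith

end seg

end Pool.Agent.TGL
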