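import Pool.Agent.TGL.A4

set_option autoImplicit false
open Set

namespace Pool.Agent.TGL

variable {E : Type*} {D : E → E → ℝ}

/-- Broken geodesics with long sides and small Gromov products at the vertices are local
quasi-geodesics. -/
theorem bg {δ κ μ K Λ L R B : ℝ} (hc : Cst δ κ μ K Λ L R B) (hD : PMet D) (hLH : LH D R δ) (o : E)
    (u : ℕ → E) (g : ℕ → ℝ → E) (m : ℕ) (hm : 1 ≤ m) (hu0 : D (u 0) o = 0)
    (hg : ∀ a < m, IsGeod D (g a) (D (u a) (u (a + 1))) (u a) (u (a + 1)))
    (hup : ∀ a < m, D (u a) (u (a + 1)) ≤ 3 * Λ)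
    (hlo : ∀ a, a + 1 < m → Λ / 2 ≤ D (u a) (u (a + 1)))
    (hgp : ∀ a, a + 1 < m → gp D (u a) (u (a + 2)) (u (a + 1)) ≤ κ) :
    ∃ P : Pth D o K L, P.T = Sm (fun a => D (u a) (u (a + 1))) m ∧
      P.p = cat (fun a => D (u a) (u (a + 1))) g m := by
  obtain ⟨hδ, hκ, hμ, hK, hΛ, hL, hR, hB⟩ := hc
  have hKnn : 0 ≤ K := by rw [hK]; nlinarith
  have hΛ0 : 0 < Λ := by linarith
  set l : ℕ → ℝ := fun a => D (u a) (u (a + 1)) with hldef
  have hl : ∀ j, 0 ≤ l j := fun j => hD.nonneg _ _
  have hg1 : ∀ a < m, ∀ s ∈ Icc (0 : ℝ) (l a), ∀ t ∈ Icc (0 : ℝ) (l a),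
      D (g a s) (g a t) ≤ |s - t| := fun a ha s hs t ht => ((hg a ha).dist s hs t ht).le
  have hgg : ∀ a, a + 1 < m → D (g a (l a)) (g (a + 1) 0) = 0 := by
    intro a ha
    have h1 := (hg a (by omega)).right
    have h2 := (hg (a + 1) ha).left
    rw [hD.eq_left h1, hD.symm]
    exact h2
  have hlip := cat_lip hD hl hm hg1 hgg
  have h0m : ∀ a, (0 : ℝ) ∈ Icc (0 : ℝ) (l a) := fun a => ⟨le_rfl, hl a⟩
  have hlm : ∀ a, l a ∈ Icc (0 : ℝ) (l a) := fun a => ⟨hl a, le_rfl⟩
  -- lower bound
  have low : ∀ s ∈ Icc (0 : ℝ) (Sm l m), ∀ t ∈ Icc (0 : ℝ) (Sm l m), s ≤ t → t - s ≤ L →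
      (t - s) - K ≤ D (cat l g m s) (cat l g m t) := by
    intro s hs t ht hst htL
    have hi := ix_spec hm hs
    have hj := ix_spec hm ht
    have hij := ix_mono hm hs hst
    set i := ix l m s with hidef
    set j := ix l m t with hjdef
    rw [Sm_succ] at hi hj
    have hs' : s - Sm l i ∈ Icc (0 : ℝ) (l i) := ⟨by linarith [hi.2.1], by linarith [hi.2.2]⟩
    have ht' : t - Sm l j ∈ Icc (0 : ℝ) (l j) := ⟨by linarith [hj.2.1], by linarith [hj.2.2]⟩
    have hX : cat l g m s = g i (s - Sm l i) := rfl
    have hY : cat l g m t = g j (t - Sm l j) := rfl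
    rw [hX, hY]
    rcases Nat.eq_or_lt_of_le hij with hij' | hij'
    · have h1 := (hg i hi.1).dist _ hs' (t - Sm l i) (by rw [hij']; exact ht')
      have h2 : g j (t - Sm l j) = g i (t - Sm l i) := by rw [← hij']
      rw [h2, h1, show s - Sm l i - (t - Sm l i) = s - t by ring, abs_sub_comm,
        abs_of_nonneg (by linarith)]
      linarith
    · -- bounds on distances of points in the window
      have hwin : ∀ a, i ≤ a → a ≤ j → ∀ r ∈ Icc (0 : ℝ) (l a), ∀ b, i ≤ b → b ≤ j →
          ∀ r' ∈ Icc (0 : ℝ) (l b), D (g a r) (g b r') ≤ R := by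
        have aux : ∀ a, i ≤ a → a ≤ j → ∀ r ∈ Icc (0 : ℝ) (l a), ∀ b, i ≤ b → b ≤ j →
            ∀ r' ∈ Icc (0 : ℝ) (l b), Sm l a + r ≤ Sm l b + r' → a ≤ b →
            D (g a r) (g b r') ≤ R := by
          intro a ha1 ha2 r hr b hb1 hb2 r' hr' h1 h2
          have h3 := seg_le hD hl hg1 hgg a b h2 (by omega) r hr r' hr' h1
          have h4 : Sm l i ≤ Sm l a := Sm_mono hl ha1
          have h5 : Sm l (b + 1) ≤ Sm l (j + 1) := Sm_mono hl (by omega)
          rw [Sm_succ, Sm_succ] at h5
          have h6 := hup i hi.1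
          have h7 := hup j hj.1
          have h8 : l i ≤ 3 * Λ := h6
          have h9 : l j ≤ 3 * Λ := h7
          linarith [hr.1, hr'.2, hi.2.2, hj.2.1]
        intro a ha1 ha2 r hr b hb1 hb2 r' hr'
        rcases lt_trichotomy a b with h | h | h
        · rcases le_total (Sm l a + r) (Sm l b + r') with h1 | h1
          · exact aux a ha1 ha2 r hr b hb1 hb2 r' hr' h1 h.le
          · have h2 : Sm l (a + 1) ≤ Sm l b := Sm_mono hl h
            rw [Sm_succ] at h2
            exact aux a ha1 ha2 r hr b hb1 hb2 r' hr' (by linarith [hr.2, hr'.1]) h.le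
        · subst h
          rcases le_total r r' with h1 | h1
          · exact aux a ha1 ha2 r hr a hb1 hb2 r' hr' (by linarith) le_rfl
          · rw [hD.symm]
            exact aux a ha1 ha2 r' hr' a hb1 hb2 r hr (by linarith) le_rfl
        · have h2 : Sm l (b + 1) ≤ Sm l a := Sm_mono hl h
          rw [Sm_succ] at h2
          rw [hD.symm]
          exact aux b hb1 hb2 r' hr' a ha1 ha2 r hr (by linarith [hr.1, hr'.2]) h.le
      set X := g i (s - Sm l i) with hXdef
      -- vertices
      have hul : ∀ a < m, D (g a 0) (u a) = 0 := fun a ha => (hg a ha).left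
      have hur : ∀ a < m, D (g a (l a)) (u (a + 1)) = 0 := fun a ha => (hg a ha).right
      have hgu : ∀ a < m, ∀ r ∈ Icc (0 : ℝ) (l a), D (g a r) (u a) = r := by
        intro a ha r hr
        rw [← hD.eq_right (hul a ha), (hg a ha).dist r hr 0 (h0m a), sub_zero, abs_of_nonneg hr.1]
      have hgu' : ∀ a < m, ∀ r ∈ Icc (0 : ℝ) (l a), D (g a r) (u (a + 1)) = l a - r := by
        intro a ha r hr
        rw [← hD.eq_right (hur a ha), (hg a ha).dist r hr _ (hlm a), abs_sub_comm,
          abs_of_nonneg (by linarith [hr.2])]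
      -- truncated products
      have htr : ∀ a, a + 1 < m → ∀ r ∈ Icc (0 : ℝ) (l (a + 1)),
          gp D (u a) (g (a + 1) r) (u (a + 1)) ≤ κ := by
        intro a ha r hr
        refine le_trans (gp_trunc' hD ?_) (hgp a ha)
        rw [hgu (a + 1) ha r hr, hD.symm (u (a + 2)) (g (a + 1) r), hgu' (a + 1) ha r hr,
          hD.symm (u (a + 2)) (u (a + 1))]
        simp only [hldef]
        ring
      have key : ∀ k, i + 1 ≤ k → k ≤ j →
          (∀ r ∈ Icc (0 : ℝ) (l k), gp D X (g k r) (u k) ≤ κ + δ) ∧
          (Sm l k - s) - 2 * (κ + δ) * ((k : ℝ) - i - 1) ≤ D X (u k) := by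
        intro k hk
        induction k, hk using Nat.le_induction with
        | base =>
          intro hkj
          constructor
          · intro r hr
            have h1 := htr i (by omega) r hr
            refine le_trans (gp_trunc hD ?_) (h1.trans (by linarith))
            rw [hgu' i hi.1 _ hs', hD.symm (u i) X, hgu i hi.1 _ hs']
            simp only [hldef]
            ring
          · rw [hgu' i hi.1 _ hs', Sm_succ]
            push_cast
            linarith
        | succ k hk ih =>
          intro hkj
          obtain ⟨ihA, ihB⟩ := ih (by omega)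
          have hkm : k < m := by omega
          have hA := ihA (l k) (hlm k)
          have hA' : gp D X (u (k + 1)) (u k) ≤ κ + δ := by
            unfold gp at hA ⊢
            rw [← hD.eq_right (hur k hkm) X, ← hD.eq_left (hur k hkm) (u k)]
            exact hA
          have hlk : Λ / 2 ≤ l k := hlo k (by omega)
          constructor
          · intro r hr
            have h1 := htr k (by omega) r hr
            have hpt : ∀ w, D (u k) w = D (g k 0) w := fun w => (hD.eq_left (hul k hkm) w).symm
            have hpt' : ∀ w, D (u (k + 1)) w = D (g (k + 1) 0) w :=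
              fun w => (hD.eq_left (hul (k + 1) (by omega)) w).symm
            have d1 : D (u k) X ≤ R := by
              rw [hpt]
              exact hwin k (by omega) (by omega) 0 (h0m k) i le_rfl (by omega) _ hs'
            have d2 : D (u k) (g (k + 1) r) ≤ R := by
              rw [hpt]
              exact hwin k (by omega) (by omega) 0 (h0m k) (k + 1) (by omega) hkj r hr
            have d3 : D X (g (k + 1) r) ≤ R :=
              hwin i le_rfl (by omega) _ hs' (k + 1) (by omega) hkj r hr
            have d4 : D (u k) (u (k + 1)) ≤ R := by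
              rw [hpt, hD.symm, hpt']
              exact hwin (k + 1) (by omega) hkj 0 (h0m _) k (by omega) (by omega) 0 (h0m k)
            have d5 : D X (u (k + 1)) ≤ R := by
              rw [hD.symm, hpt']
              exact hwin (k + 1) (by omega) hkj 0 (h0m _) i le_rfl (by omega) _ hs'
            have d6 : D (g (k + 1) r) (u (k + 1)) ≤ R := by
              rw [hD.symm, hpt']
              exact hwin (k + 1) (by omega) hkj 0 (h0m _) (k + 1) (by omega) hkj r hr
            have h2 := gp_hyp hD hLH (u k) X (g (k + 1) r) (u (k + 1)) d1 d2 d3 d4 d5 d6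
            have h3 : gp D (u k) X (u (k + 1)) = l k - gp D (u (k + 1)) X (u k) := by
              have := gp_sum hD (u k) (u (k + 1)) X
              simp only [hldef]
              linarith
            rw [gp_comm hD (u (k + 1)) X] at h3
            rcases min_choice (gp D (u k) X (u (k + 1))) (gp D X (g (k + 1) r) (u (k + 1)))
              with h4 | h4
            · rw [h4] at h2
              exfalso
              have : 1000 * (K + κ + δ + μ + 1) ≤ Λ := hΛ
              linarith
            · rw [h4] at h2
              linarith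
          · have h5 : D X (u (k + 1)) = D X (u k) + l k - 2 * gp D X (u (k + 1)) (u k) := by
              unfold gp
              rw [hD.symm (u (k + 1)) (u k)]
              simp only [hldef]
              ring
            rw [h5, Sm_succ]
            push_cast
            nlinarith
      obtain ⟨hA, hB'⟩ := key j hij' le_rfl
      have hA1 := hA _ ht'
      have h6 : D X (g j (t - Sm l j)) =
          D X (u j) + (t - Sm l j) - 2 * gp D X (g j (t - Sm l j)) (u j) := by
        unfold gp
        rw [hgu j hj.1 _ ht']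
        ring
      rw [h6]
      -- counting
      have hcount : ((j : ℝ) - i - 1) * (Λ / 2) ≤ Sm l j - Sm l (i + 1) := by
        have : ∀ k, i + 1 ≤ k → k ≤ j → ((k : ℝ) - i - 1) * (Λ / 2) ≤ Sm l k - Sm l (i + 1) := by
          intro k hk
          induction k, hk using Nat.le_induction with
          | base => intro _; push_cast; simp
          | succ k hk ih =>
            intro hkj
            have h1 := ih (by omega)
            have h2 : Λ / 2 ≤ l k := hlo k (by omega)
            rw [Sm_succ]
            push_cast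
            nlinarith
        exact this j hij' le_rfl
      have h7 : Sm l j - Sm l (i + 1) ≤ t - s := by
        rw [Sm_succ]
        linarith [hi.2.2, hj.2.1]
      have h8 : ((j : ℝ) - i - 1) * (Λ / 2) ≤ 20000 * (Λ / 2) := by
        refine (hcount.trans h7).trans (htL.trans ?_)
        rw [hL]
        linarith
      have h9 : (j : ℝ) - i - 1 ≤ 20000 := by
        exact le_of_mul_le_mul_right h8 (by linarith)
      have h10 : 2 * (κ + δ) * ((j : ℝ) - i - 1) ≤ 2 * (κ + δ) * 20000 :=
        mul_le_mul_of_nonneg_left h9 (by linarith)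
      linarith
  refine ⟨⟨cat l g m, Sm l m, ?_, ?_, hlip, ?_⟩, rfl, rfl⟩
  · have := Sm_mono hl (Nat.zero_le m)
    rwa [Sm_zero] at this
  · have h1 := cat_eq hD hl hm hg1 hgg 0 (by omega) 0 (h0m 0)
    rw [Sm_zero, add_zero] at h1
    rw [hD.eq_left h1, hD.eq_left (hg 0 (by omega)).left]
    exact hu0
  · intro s hs t ht hst
    rcases le_total s t with h | h
    · rw [abs_sub_comm, abs_of_nonneg (by linarith)] at hst ⊢
      exact low s hs t ht h hst
    · rw [abs_of_nonneg (by linarith)] at hst ⊢
      rw [hD.symm]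
      exact low t ht s hs h hst

end Pool.Agent.TGL
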