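import Pool.Agent.TGL.A1

set_option autoImplicit false
open Set

namespace Pool.Agent.TGL

variable {E : Type*} {D : E → E → ℝ}

theorem Mat.symm {o : E} {K L B a b : ℝ} (hD : PMet D) {P Q : Pth D o K L} {M : ℝ → ℝ → Prop}
    (h : Mat P Q B a b M) : Mat Q P B a b (fun s t => M t s) where
  mem := fun t s hM => ⟨(h.mem s t hM).2, (h.mem s t hM).1⟩
  close := fun t s hM => by
    rw [hD.symm]
    exact h.close s t hM
  zero := h.zero
  last := h.last
  totl := h.totr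
  totr := h.totl
  lipr := fun t s t' s' h1 h2 => h.lipl s t s' t' h1 h2
  lipl := fun t s t' s' h1 h2 => h.lipr s t s' t' h1 h2

theorem imp_half {δ κ μ K Λ L R B : ℝ} (hc : Cst δ κ μ K Λ L R B) (hD : PMet D) (hLH : LH D R δ)
    {o : E} (P Q : Pth D o K L) (M : ℝ → ℝ → Prop) (hM : Mat P Q (6 * Λ) 8 (7 * Λ) M)
    (hend : D P.fin Q.fin ≤ μ) (t : ℝ) (ht : t ∈ Icc (0 : ℝ) P.T) :
    ∃ s ∈ Icc (0 : ℝ) Q.T, D (P.p t) (Q.p s) ≤ B ∧
      ∃ t' s', M t' s' ∧ |t - t'| ≤ 410 * Λ ∧ |s - s'| ≤ 410 * Λ := by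
  obtain ⟨hδ, hκ, hμ, hK, hΛ, hL, hR, hB⟩ := hc
  have hKnn : 0 ≤ K := by rw [hK]; nlinarith
  have hΛ0 : 0 < Λ := by linarith
  have hstart : D (P.p 0) (Q.p 0) = 0 := by
    rw [hD.eq_left P.start, hD.symm]
    exact Q.start
  have h0 : ∃ t0 β0, M t0 β0 ∧ t0 ≤ t ∧ t - t0 ≤ 25 * Λ ∧
      (D (P.p t0) (Q.p β0) = 0 ∨ t - t0 = 25 * Λ) := by
    rcases le_total t (25 * Λ) with h | h
    · exact ⟨0, 0, hM.zero, ht.1, by linarith, Or.inl hstart⟩
    · obtain ⟨s, hs⟩ := hM.totl (t - 25 * Λ) ⟨by linarith, by linarith [ht.2]⟩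
      exact ⟨t - 25 * Λ, s, hs, by linarith, by linarith, Or.inr (by ring)⟩
  have h1 : ∃ t1 β1, M t1 β1 ∧ t ≤ t1 ∧ t1 - t ≤ 25 * Λ ∧
      (D (P.p t1) (Q.p β1) ≤ μ ∨ t1 - t = 25 * Λ) := by
    rcases le_total P.T (t + 25 * Λ) with h | h
    · exact ⟨P.T, Q.T, hM.last, ht.2, by linarith, Or.inl hend⟩
    · obtain ⟨s, hs⟩ := hM.totl (t + 25 * Λ) ⟨by linarith [ht.1], h⟩
      exact ⟨t + 25 * Λ, s, hs, by linarith, by linarith, Or.inr (by ring)⟩
  obtain ⟨t0, β0, hM0, ht0, ht0', hc0⟩ := h0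
  obtain ⟨t1, β1, hM1, ht1, ht1', hc1⟩ := h1
  obtain ⟨ht0m, hβ0m⟩ := hM.mem _ _ hM0
  obtain ⟨ht1m, hβ1m⟩ := hM.mem _ _ hM1
  have hβ := hM.lipr _ _ _ _ hM0 hM1
  have ht01 : |t0 - t1| ≤ 50 * Λ := by
    rw [abs_le]
    constructor <;> linarith
  have hβ' : |β0 - β1| ≤ 407 * Λ := by linarith
  set a := P.p t with ha
  set a0 := P.p t0 with ha0
  set a1 := P.p t1 with ha1
  set b0 := Q.p β0 with hb0
  set b1 := Q.p β1 with hb1
  have daa0 : D a0 a ≤ t - t0 := by
    have := P.up t0 ht0m t ht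
    rwa [abs_sub_comm, abs_of_nonneg (by linarith)] at this
  have daa1 : D a1 a ≤ t1 - t := by
    have := P.up t1 ht1m t ht
    rwa [abs_of_nonneg (by linarith)] at this
  have da01 : (t1 - t0) - K ≤ D a0 a1 := by
    have := P.low t0 ht0m t1 ht1m (by rw [hL]; linarith)
    rwa [abs_sub_comm, abs_of_nonneg (by linarith)] at this
  have da01' : D a0 a1 ≤ 50 * Λ := (P.up t0 ht0m t1 ht1m).trans ht01
  have dab0 : D a0 b0 ≤ 6 * Λ := hM.close _ _ hM0
  have dab1 : D a1 b1 ≤ 6 * Λ := hM.close _ _ hM1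
  have dbb : D b0 b1 ≤ 407 * Λ := (Q.up β0 hβ0m β1 hβ1m).trans hβ'
  have dab0' : D b0 a ≤ 31 * Λ := by
    have := hD.tri b0 a0 a
    rw [hD.symm b0 a0] at this
    linarith
  have dab1' : D b1 a ≤ 31 * Λ := by
    have := hD.tri b1 a1 a
    rw [hD.symm b1 a1] at this
    linarith
  have da0b1 : D a0 b1 ≤ 56 * Λ := by
    have := hD.tri a0 a1 b1
    linarith
  have g01 : gp D a0 a1 a ≤ K / 2 := by
    unfold gp
    linarith
  have hRΛ : 100000 * Λ ≤ R := by
    rw [hL] at hR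
    linarith
  have claim1 : gp D a0 b1 a ≤ K / 2 + δ + μ := by
    rcases hc1 with h | h
    · have h2 := gp_lip hD a0 b1 a1 a
      rw [hD.symm b1 a1] at h2
      linarith
    · have hfar : 25 * Λ - K ≤ D a1 a := by
        have := P.low t1 ht1m t ht (by rw [abs_of_nonneg (by linarith), hL]; linarith)
        rw [abs_of_nonneg (by linarith)] at this
        linarith
      have h2 := gp_hyp hD hLH a0 b1 a1 a (by linarith) (by linarith) (by rw [hD.symm]; linarith)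
        (by linarith) (by linarith) (by linarith)
      have h3 := gp_ge' hD b1 a1 a
      rw [hD.symm b1 a1] at h3
      rcases min_choice (gp D a0 b1 a) (gp D b1 a1 a) with h4 | h4
      · rw [h4] at h2
        linarith
      · rw [h4] at h2
        exfalso
        linarith
  have claim2 : gp D b0 b1 a ≤ K / 2 + 2 * δ + μ := by
    rcases hc0 with h | h
    · have h2 := gp_lip hD b1 b0 a0 a
      rw [hD.symm b0 a0, h, gp_comm hD b1 b0, gp_comm hD b1 a0] at h2
      linarith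
    · have hfar : 25 * Λ - K ≤ D a0 a := by
        have := P.low t0 ht0m t ht (by
          rw [abs_sub_comm, abs_of_nonneg (by linarith), hL]; linarith)
        rw [abs_sub_comm, abs_of_nonneg (by linarith)] at this
        linarith
      have h2 := gp_hyp hD hLH a0 b0 b1 a (by linarith) (by linarith) (by linarith)
        (by linarith) (by linarith) (by linarith)
      have h3 := gp_ge hD a0 b0 a
      rcases min_choice (gp D a0 b0 a) (gp D b0 b1 a) with h4 | h4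
      · rw [h4] at h2
        exfalso
        linarith
      · rw [h4] at h2
        linarith
  -- projection
  have hproj : ∃ s, (min β0 β1 ≤ s ∧ s ≤ max β0 β1) ∧ D a (Q.p s) ≤ B := by
    rcases le_total β0 β1 with h | h
    · have hlow := Q.low β0 hβ0m β1 hβ1m (by rw [hL]; linarith)
      rw [abs_sub_comm, abs_of_nonneg (by linarith)] at hlow hβ'
      obtain ⟨s, hs, h5⟩ := proj hD hLH Q.p β0 β1 h
        (fun s hs t ht => Q.up s ⟨hβ0m.1.trans hs.1, hs.2.trans hβ1m.2⟩ t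
          ⟨hβ0m.1.trans ht.1, ht.2.trans hβ1m.2⟩) hlow a (by rw [hD.symm a]; linarith)
      refine ⟨s, ⟨by rw [min_eq_left h]; exact hs.1, by rw [max_eq_right h]; exact hs.2⟩, ?_⟩
      rw [hB]
      linarith
    · have hlow := Q.low β1 hβ1m β0 hβ0m (by rw [hL, abs_sub_comm]; linarith)
      rw [abs_sub_comm, abs_of_nonneg (by linarith)] at hlow
      rw [abs_of_nonneg (by linarith)] at hβ'
      obtain ⟨s, hs, h5⟩ := proj hD hLH Q.p β1 β0 h
        (fun s hs t ht => Q.up s ⟨hβ1m.1.trans hs.1, hs.2.trans hβ0m.2⟩ t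
          ⟨hβ1m.1.trans ht.1, ht.2.trans hβ0m.2⟩) hlow a (by rw [hD.symm a]; linarith)
      refine ⟨s, ⟨by rw [min_eq_right h]; exact hs.1, by rw [max_eq_left h]; exact hs.2⟩, ?_⟩
      rw [hB]
      rw [gp_comm hD] at h5
      linarith
  obtain ⟨s, ⟨hs1, hs2⟩, hs3⟩ := hproj
  have hsm : s ∈ Icc (0 : ℝ) Q.T :=
    ⟨(le_min hβ0m.1 hβ1m.1).trans hs1, hs2.trans (max_le hβ0m.2 hβ1m.2)⟩
  refine ⟨s, hsm, hs3, t0, β0, hM0, ?_, ?_⟩
  · rw [abs_of_nonneg (by linarith)]
    linarith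
  · rw [abs_le] at hβ' ⊢
    rcases le_total β0 β1 with h | h
    · rw [min_eq_left h] at hs1
      rw [max_eq_right h] at hs2
      constructor <;> linarith
    · rw [min_eq_right h] at hs1
      rw [max_eq_left h] at hs2
      constructor <;> linarith

/-- From small steps to all steps. -/
theorem chain_lip (M : ℝ → ℝ → Prop) (T Λ ε : ℝ) (hΛ : 0 < Λ) (hε : 0 ≤ ε) (hεΛ : ε ≤ Λ)
    (mem : ∀ t s, M t s → t ∈ Icc (0 : ℝ) T) (tot : ∀ t ∈ Icc (0 : ℝ) T, ∃ s, M t s)
    (loc : ∀ t s t' s', M t s → M t' s' → |t - t'| ≤ Λ → |s - s'| ≤ |t - t'| + ε) :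
    ∀ t s t' s', M t s → M t' s' → |s - s'| ≤ 2 * |t - t'| + Λ := by
  have key : ∀ N : ℕ, ∀ t s t' s', M t s → M t' s' → |t - t'| ≤ ((N : ℝ) + 1) * Λ →
      |s - s'| ≤ |t - t'| + ((N : ℝ) + 1) * ε := by
    intro N
    induction N with
    | zero =>
      intro t s t' s' h h' hle
      have := loc t s t' s' h h' (by simpa using hle)
      simpa using this
    | succ N ih =>
      intro t s t' s' h h' hle
      have hNn : (0 : ℝ) ≤ (N : ℝ) := Nat.cast_nonneg N
      push_cast at hle ⊢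
      rcases le_total (|t - t'|) Λ with h1 | h1
      · have := loc t s t' s' h h' h1
        nlinarith
      · have hm := mem _ _ h
        have hm' := mem _ _ h'
        have hmid : ∃ t'' ∈ Icc (0 : ℝ) T, |t - t''| = Λ ∧ |t'' - t'| = |t - t'| - Λ := by
          rcases le_total t t' with h2 | h2
          · rw [abs_sub_comm, abs_of_nonneg (by linarith)] at h1
            refine ⟨t + Λ, ⟨by linarith [hm.1], by linarith [hm'.2]⟩, ?_, ?_⟩
            · rw [abs_sub_comm, abs_of_nonneg (by linarith)]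
              ring
            · rw [abs_sub_comm, abs_of_nonneg (by linarith), abs_sub_comm t t',
                abs_of_nonneg (by linarith)]
              ring
          · rw [abs_of_nonneg (by linarith)] at h1
            refine ⟨t - Λ, ⟨by linarith [hm'.1], by linarith [hm.2]⟩, ?_, ?_⟩
            · rw [abs_of_nonneg (by linarith)]
              ring
            · rw [abs_of_nonneg (by linarith), abs_of_nonneg (by linarith)]
              ring
        obtain ⟨t'', ht'', h3, h4⟩ := hmid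
        obtain ⟨s'', hs''⟩ := tot t'' ht''
        have h5 := loc t s t'' s'' h hs'' h3.le
        have h6 := ih t'' s'' t' s' hs'' h' (by rw [h4]; linarith)
        have h7 := abs_sub_le s s'' s'
        rw [h3] at h5
        rw [h4] at h6
        linarith
  intro t s t' s' h h'
  have hx : 0 ≤ |t - t'| / Λ := div_nonneg (abs_nonneg _) hΛ.le
  set N := ⌊|t - t'| / Λ⌋₊ with hN
  have h1 : |t - t'| / Λ < (N : ℝ) + 1 := Nat.lt_floor_add_one _
  have h2 : (N : ℝ) ≤ |t - t'| / Λ := Nat.floor_le hx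
  rw [div_lt_iff₀ hΛ] at h1
  rw [le_div_iff₀ hΛ] at h2
  have h3 := key N t s t' s' h h' h1.le
  have hNn : (0 : ℝ) ≤ (N : ℝ) := Nat.cast_nonneg N
  have h4 : (N : ℝ) * ε ≤ (N : ℝ) * Λ := mul_le_mul_of_nonneg_left hεΛ hNn
  linarith

/-- Improvement lemma. -/
theorem imp {δ κ μ K Λ L R B : ℝ} (hc : Cst δ κ μ K Λ L R B) (hD : PMet D) (hLH : LH D R δ)
    {o : E} (P Q : Pth D o K L) (M : ℝ → ℝ → Prop) (hM : Mat P Q (6 * Λ) 8 (7 * Λ) M)
    (hend : D P.fin Q.fin ≤ μ) : Sim B Λ P Q := by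
  have hc' := hc
  obtain ⟨hδ, hκ, hμ, hK, hΛ, hL, hR, hB⟩ := hc
  have hKnn : 0 ≤ K := by rw [hK]; nlinarith
  have hΛ0 : 0 < Λ := by linarith
  have hBnn : 0 ≤ B := by rw [hB]; linarith
  have hstart : D (P.p 0) (Q.p 0) = 0 := by
    rw [hD.eq_left P.start, hD.symm]
    exact Q.start
  have hεΛ : K + 2 * B ≤ Λ := by rw [hB]; linarith
  set M' : ℝ → ℝ → Prop := fun t s => t ∈ Icc (0 : ℝ) P.T ∧ s ∈ Icc (0 : ℝ) Q.T ∧
    D (P.p t) (Q.p s) ≤ B ∧ ∃ t' s', M t' s' ∧ |t - t'| ≤ 410 * Λ ∧ |s - s'| ≤ 410 * Λ with hM'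
  have tl : ∀ t ∈ Icc (0 : ℝ) P.T, ∃ s, M' t s := by
    intro t ht
    obtain ⟨s, hs, h1, h2⟩ := imp_half hc' hD hLH P Q M hM hend t ht
    exact ⟨s, ht, hs, h1, h2⟩
  have tr' : ∀ s ∈ Icc (0 : ℝ) Q.T, ∃ t, M' t s := by
    intro s hs
    obtain ⟨t, ht, h1, s', t', h2, h3, h4⟩ := imp_half hc' hD hLH Q P (fun s t => M t s) (hM.symm hD)
      (by rw [hD.symm]; exact hend) s hs
    exact ⟨t, ht, hs, by rw [hD.symm]; exact h1, t', s', h2, h4, h3⟩
  -- local Lipschitz property, right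
  have lr : ∀ t s t' s', M' t s → M' t' s' → |t - t'| ≤ Λ → |s - s'| ≤ |t - t'| + (K + 2 * B) := by
    rintro t s t' s' ⟨ht, hs, h1, τ, σ, h2, h3, h4⟩ ⟨ht', hs', h1', τ', σ', h2', h3', h4'⟩ hle
    have h5 : |τ - τ'| ≤ 821 * Λ := by
      have e : τ - τ' = (t - t') - (t - τ) + (t' - τ') := by ring
      rw [e]
      calc |t - t' - (t - τ) + (t' - τ')| ≤ |t - t' - (t - τ)| + |t' - τ'| := abs_add_le _ _
        _ ≤ |t - t'| + |t - τ| + |t' - τ'| := by
          have := abs_sub (t - t') (t - τ)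
          linarith
        _ ≤ 821 * Λ := by linarith
    have h6 := hM.lipr _ _ _ _ h2 h2'
    have h7 : |s - s'| ≤ L := by
      have e : s - s' = (σ - σ') + (s - σ) - (s' - σ') := by ring
      rw [e]
      calc |σ - σ' + (s - σ) - (s' - σ')| ≤ |σ - σ' + (s - σ)| + |s' - σ'| := abs_sub _ _
        _ ≤ |σ - σ'| + |s - σ| + |s' - σ'| := by
          have := abs_add_le (σ - σ') (s - σ)
          linarith
        _ ≤ L := by rw [hL]; linarith
    have h8 := Q.low s hs s' hs' h7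
    have h9 := hD.tri (Q.p s) (P.p t) (Q.p s')
    have h10 := hD.tri (P.p t) (P.p t') (Q.p s')
    have h11 := P.up t ht t' ht'
    rw [hD.symm (Q.p s) (P.p t)] at h9
    linarith
  have ll : ∀ t s t' s', M' t s → M' t' s' → |s - s'| ≤ Λ → |t - t'| ≤ |s - s'| + (K + 2 * B) := by
    rintro t s t' s' ⟨ht, hs, h1, τ, σ, h2, h3, h4⟩ ⟨ht', hs', h1', τ', σ', h2', h3', h4'⟩ hle
    have h5 : |σ - σ'| ≤ 821 * Λ := by
      have e : σ - σ' = (s - s') - (s - σ) + (s' - σ') := by ring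
      rw [e]
      calc |s - s' - (s - σ) + (s' - σ')| ≤ |s - s' - (s - σ)| + |s' - σ'| := abs_add_le _ _
        _ ≤ |s - s'| + |s - σ| + |s' - σ'| := by
          have := abs_sub (s - s') (s - σ)
          linarith
        _ ≤ 821 * Λ := by linarith
    have h6 := hM.lipl _ _ _ _ h2 h2'
    have h7 : |t - t'| ≤ L := by
      have e : t - t' = (τ - τ') + (t - τ) - (t' - τ') := by ring
      rw [e]
      calc |τ - τ' + (t - τ) - (t' - τ')| ≤ |τ - τ' + (t - τ)| + |t' - τ'| := abs_sub _ _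
        _ ≤ |τ - τ'| + |t - τ| + |t' - τ'| := by
          have := abs_add_le (τ - τ') (t - τ)
          linarith
        _ ≤ L := by rw [hL]; linarith
    have h8 := P.low t ht t' ht' h7
    have h9 := hD.tri (P.p t) (Q.p s) (P.p t')
    have h10 := hD.tri (Q.p s) (Q.p s') (P.p t')
    have h11 := Q.up s hs s' hs'
    rw [hD.symm (Q.p s') (P.p t')] at h10
    linarith
  refine ⟨M', ⟨fun t s h => ⟨h.1, h.2.1⟩, fun t s h => h.2.2.1, ?_, ?_, tl, tr', ?_, ?_⟩⟩
  · refine ⟨⟨le_rfl, P.nonneg⟩, ⟨le_rfl, Q.nonneg⟩, by rw [hstart]; exact hBnn, 0, 0, hM.zero, ?_, ?_⟩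
    · simp only [sub_self, abs_zero]
      linarith
    · simp only [sub_self, abs_zero]
      linarith
  · refine ⟨⟨P.nonneg, le_rfl⟩, ⟨Q.nonneg, le_rfl⟩, ?_, P.T, Q.T, hM.last, ?_, ?_⟩
    · have : D P.fin Q.fin ≤ B := by rw [hB]; linarith
      exact this
    · simp only [sub_self, abs_zero]
      linarith
    · simp only [sub_self, abs_zero]
      linarith
  · exact chain_lip M' P.T Λ (K + 2 * B) hΛ0 (by linarith) hεΛ (fun t s h => h.1) tl lr
  · intro t s t' s' h h'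
    exact chain_lip (fun s t => M' t s) Q.T Λ (K + 2 * B) hΛ0 (by linarith) hεΛ
      (fun s t h => h.2.1) tr' (fun s t s' t' h1 h2 h3 => ll t s t' s' h1 h2 h3) s t s' t' h h'

end Pool.Agent.TGL
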