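import Pool.Agent.TGL.A5
import Pool.Agent.TGL.A6

set_option autoImplicit false
open Set

namespace Pool.Agent.TGL

variable {E : Type*} {D : E → E → ℝ}

/-- Appending a short geodesic to a path. -/
theorem app {δ κ μ K Λ L R B : ℝ} (hc : Cst δ κ μ K Λ L R B) (hD : PMet D)
    (hgeo : ∀ x y, ∃ g, IsGeod D g (D x y) x y) {o : E} (P : Pth D o K L) (w : E)
    (hw : D P.fin w ≤ μ) :
    ∃ (p' : ℝ → E) (T' : ℝ), P.T ≤ T' ∧ T' ≤ P.T + μ ∧ (∀ t, t ≤ P.T → p' t = P.p t) ∧
      D (p' T') w = 0 ∧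
      (∀ s ∈ Icc (0 : ℝ) T', ∀ t ∈ Icc (0 : ℝ) T', D (p' s) (p' t) ≤ |s - t|) ∧
      (∀ s ∈ Icc (0 : ℝ) T', ∀ t ∈ Icc (0 : ℝ) T', |s - t| ≤ L →
        |s - t| - (K + 2 * μ) ≤ D (p' s) (p' t)) := by
  obtain ⟨hδ, hκ, hμ, hK, hΛ, hL, hR, hB⟩ := hc
  have hKnn : 0 ≤ K := by rw [hK]; nlinarith
  obtain ⟨h, hg⟩ := hgeo P.fin w
  set l := D P.fin w with hl
  have hl0 : 0 ≤ l := hg.nonneg
  have hPT := P.nonneg
  set p' : ℝ → E := fun t => if t ≤ P.T then P.p t else h (t - P.T) with hp'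
  have e1 : ∀ t, t ≤ P.T → p' t = P.p t := fun t ht => by simp only [hp', if_pos ht]
  have e2 : ∀ t, P.T < t → p' t = h (t - P.T) := fun t ht => by
    simp only [hp', if_neg (not_le.mpr ht)]
  have h0 : D (h 0) P.fin = 0 := hg.left
  have h0m : (0 : ℝ) ∈ Icc (0 : ℝ) l := ⟨le_rfl, hl0⟩
  have hPm : P.T ∈ Icc (0 : ℝ) P.T := ⟨hPT, le_rfl⟩
  have mix : ∀ s ∈ Icc (0 : ℝ) P.T, ∀ r ∈ Icc (0 : ℝ) l,
      D (P.p s) (h r) ≤ (P.T - s) + r ∧
      ((P.T - s) ≤ L → (P.T - s) - K - r ≤ D (P.p s) (h r)) := by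
    intro s hs r hr
    have h1 : D P.fin (h r) = r := by
      rw [← hD.eq_left h0, hg.dist 0 h0m r hr, abs_sub_comm, sub_zero, abs_of_nonneg hr.1]
    have h2 := P.up s hs P.T hPm
    rw [abs_sub_comm, abs_of_nonneg (by linarith [hs.2])] at h2
    constructor
    · have h3 := hD.tri (P.p s) P.fin (h r)
      have h4 : D (P.p s) P.fin ≤ P.T - s := h2
      linarith
    · intro hle
      have h5 := P.low s hs P.T hPm (by
        rw [abs_sub_comm, abs_of_nonneg (by linarith [hs.2])]; exact hle)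
      rw [abs_sub_comm, abs_of_nonneg (by linarith [hs.2])] at h5
      have h3 := hD.tri (P.p s) (h r) P.fin
      rw [hD.symm (h r) P.fin] at h3
      have h4 : D (P.p s) P.fin = D (P.p s) (P.p P.T) := rfl
      linarith
  have up' : ∀ s ∈ Icc (0 : ℝ) (P.T + l), ∀ t ∈ Icc (0 : ℝ) (P.T + l), s ≤ t →
      D (p' s) (p' t) ≤ t - s := by
    intro s hs t ht hst
    rcases le_or_gt t P.T with h1 | h1
    · rw [e1 s (hst.trans h1), e1 t h1]
      have := P.up s ⟨hs.1, hst.trans h1⟩ t ⟨ht.1, h1⟩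
      rwa [abs_sub_comm, abs_of_nonneg (by linarith)] at this
    · rcases le_or_gt s P.T with h2 | h2
      · rw [e1 s h2, e2 t h1]
        have := (mix s ⟨hs.1, h2⟩ (t - P.T) ⟨by linarith, by linarith [ht.2]⟩).1
        linarith
      · rw [e2 s h2, e2 t h1, hg.dist _ ⟨by linarith, by linarith [hs.2]⟩ _
          ⟨by linarith, by linarith [ht.2]⟩, show s - P.T - (t - P.T) = -(t - s) by ring, abs_neg,
          abs_of_nonneg (by linarith)]
  have low' : ∀ s ∈ Icc (0 : ℝ) (P.T + l), ∀ t ∈ Icc (0 : ℝ) (P.T + l), s ≤ t → t - s ≤ L →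
      (t - s) - (K + 2 * μ) ≤ D (p' s) (p' t) := by
    intro s hs t ht hst hle
    rcases le_or_gt t P.T with h1 | h1
    · rw [e1 s (hst.trans h1), e1 t h1]
      have := P.low s ⟨hs.1, hst.trans h1⟩ t ⟨ht.1, h1⟩ (by
        rw [abs_sub_comm, abs_of_nonneg (by linarith)]; exact hle)
      rw [abs_sub_comm, abs_of_nonneg (by linarith)] at this
      linarith
    · rcases le_or_gt s P.T with h2 | h2
      · rw [e1 s h2, e2 t h1]
        have := (mix s ⟨hs.1, h2⟩ (t - P.T) ⟨by linarith, by linarith [ht.2]⟩).2 (by linarith)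
        linarith [ht.2]
      · rw [e2 s h2, e2 t h1, hg.dist _ ⟨by linarith, by linarith [hs.2]⟩ _
          ⟨by linarith, by linarith [ht.2]⟩, show s - P.T - (t - P.T) = -(t - s) by ring, abs_neg,
          abs_of_nonneg (by linarith)]
        linarith
  refine ⟨p', P.T + l, by linarith, by linarith, e1, ?_, ?_, ?_⟩
  · rcases eq_or_lt_of_le hl0 with h1 | h1
    · rw [e1 _ (by linarith), ← h1, add_zero]
      show D P.fin w = 0
      linarith
    · rw [e2 _ (by linarith), show P.T + l - P.T = l by ring]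
      exact hg.right
  · intro s hs t ht
    rcases le_total s t with h1 | h1
    · rw [abs_sub_comm, abs_of_nonneg (by linarith)]
      exact up' s hs t ht h1
    · rw [abs_of_nonneg (by linarith), hD.symm]
      exact up' t ht s hs h1
  · intro s hs t ht hle
    rcases le_total s t with h1 | h1
    · rw [abs_sub_comm, abs_of_nonneg (by linarith)] at hle ⊢
      exact low' s hs t ht h1 hle
    · rw [abs_of_nonneg (by linarith)] at hle ⊢
      rw [hD.symm]
      exact low' t ht s hs h1 hle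

/-- Sampling times. -/
theorem exists_times {Λ T' : ℝ} (hΛ : 0 < Λ) (hT : 0 ≤ T') : ∃ (m : ℕ) (τ : ℕ → ℝ), 1 ≤ m ∧
    τ 0 = 0 ∧ τ m = T' ∧ (∀ a < m, τ a = a * Λ) ∧ (∀ a < m, τ a ≤ τ (a + 1)) ∧
    (∀ a < m, τ (a + 1) ≤ τ a + 2 * Λ) ∧ (2 ≤ m → ∀ a < m, τ a + Λ ≤ τ (a + 1)) ∧
    (∀ a ≤ m, 0 ≤ τ a ∧ τ a ≤ T') := by
  set f := ⌊T' / Λ⌋₊ with hf
  have hx : 0 ≤ T' / Λ := div_nonneg hT hΛ.le
  have h1 : T' / Λ < (f : ℝ) + 1 := Nat.lt_floor_add_one _
  have h2 : (f : ℝ) ≤ T' / Λ := Nat.floor_le hx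
  rw [div_lt_iff₀ hΛ] at h1
  rw [le_div_iff₀ hΛ] at h2
  set m := max 1 f with hm
  have hm1 : 1 ≤ m := le_max_left _ _
  have hfm : f ≤ m := le_max_right _ _
  have hfm' : (f : ℝ) ≤ m := by exact_mod_cast hfm
  have h3 : T' < ((m : ℝ) + 1) * Λ := by nlinarith
  have h4 : 2 ≤ m → (m : ℝ) * Λ ≤ T' := by
    intro h
    have : m = f := by
      rw [hm]
      apply max_eq_right
      by_contra hcon
      push Not at hcon
      rw [max_eq_left hcon.le] at hm
      omega
    rw [this]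
    exact h2
  refine ⟨m, fun a => if a < m then a * Λ else T', hm1, ?_, ?_, ?_, ?_, ?_, ?_, ?_⟩
  · simp [show 0 < m by omega]
  · simp
  · intro a ha
    simp [ha]
  · intro a ha
    simp only [if_pos ha]
    rcases lt_or_ge (a + 1) m with h5 | h5
    · rw [if_pos h5]
      push_cast
      nlinarith
    · rw [if_neg (not_lt.mpr h5)]
      rcases Nat.eq_zero_or_pos a with h6 | h6
      · subst h6
        simpa using hT
      · have h7 := h4 (by omega)
        have h8 : (a : ℝ) ≤ m := by exact_mod_cast ha.le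
        nlinarith
  · intro a ha
    simp only [if_pos ha]
    rcases lt_or_ge (a + 1) m with h5 | h5
    · rw [if_pos h5]
      push_cast
      nlinarith
    · rw [if_neg (not_lt.mpr h5)]
      have h6 : (m : ℝ) = a + 1 := by
        have : m = a + 1 := by omega
        rw [this]
        push_cast
        ring
      rw [h6] at h3
      linarith
  · intro hm2 a ha
    simp only [if_pos ha]
    rcases lt_or_ge (a + 1) m with h5 | h5
    · rw [if_pos h5]
      push_cast
      linarith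
    · rw [if_neg (not_lt.mpr h5)]
      have h6 : (m : ℝ) = a + 1 := by
        have : m = a + 1 := by omega
        rw [this]
        push_cast
        ring
      have h7 := h4 hm2
      rw [h6] at h7
      linarith
  · intro a ha
    rcases lt_or_ge a m with h5 | h5
    · simp only [if_pos h5]
      refine ⟨by positivity, ?_⟩
      rcases Nat.eq_zero_or_pos a with h6 | h6
      · subst h6
        simpa using hT
      · have h7 := h4 (by omega)
        have h8 : (a : ℝ) ≤ m := by exact_mod_cast ha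
        nlinarith
    · simp only [if_neg (not_lt.mpr h5)]
      exact ⟨hT, le_rfl⟩

/-- The new vertices. -/
theorem exists_vertices {δ κ μ K Λ L R B : ℝ} (hc : Cst δ κ μ K Λ L R B) (hD : PMet D)
    (hLH : LH D R δ) (hgeo : ∀ x y, ∃ g, IsGeod D g (D x y) x y) (p' : ℝ → E) (T' : ℝ)
    (hup : ∀ s ∈ Icc (0 : ℝ) T', ∀ t ∈ Icc (0 : ℝ) T', D (p' s) (p' t) ≤ |s - t|)
    (hlow : ∀ s ∈ Icc (0 : ℝ) T', ∀ t ∈ Icc (0 : ℝ) T', |s - t| ≤ L →
        |s - t| - (K + 2 * μ) ≤ D (p' s) (p' t))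
    (m : ℕ) (τ : ℕ → ℝ) (h3 : ∀ a < m, τ a ≤ τ (a + 1))
    (h4 : ∀ a < m, τ (a + 1) ≤ τ a + 2 * Λ) (h5 : 2 ≤ m → ∀ a < m, τ a + Λ ≤ τ (a + 1))
    (h6 : ∀ a ≤ m, 0 ≤ τ a ∧ τ a ≤ T') :
    ∃ u : ℕ → E, u 0 = p' (τ 0) ∧ u m = p' (τ m) ∧
      (∀ a ≤ m, D (u a) (p' (τ a)) ≤ (K + 2 * μ) / 2 + 2 * δ) ∧
      (∀ a < m, D (u a) (u (a + 1)) ≤ 3 * Λ) ∧
      (∀ a, a + 1 < m → Λ / 2 ≤ D (u a) (u (a + 1))) ∧
      (∀ a, a + 1 < m → gp D (u a) (u (a + 2)) (u (a + 1)) ≤ κ) := by
  obtain ⟨hδ, hκ, hμ, hK, hΛ, hL, hR, hB⟩ := hc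
  have hKnn : 0 ≤ K := by rw [hK]; nlinarith
  have hΛ0 : 0 < Λ := by linarith
  have hη0 : 0 ≤ (K + 2 * μ) / 2 + 2 * δ := by linarith
  have hRΛ : 100000 * Λ ≤ R := by
    rw [hL] at hR
    linarith
  set v : ℕ → E := fun a => p' (τ a) with hv
  have hm6 : ∀ a ≤ m, τ a ∈ Icc (0 : ℝ) T' := fun a ha => h6 a ha
  -- distances of consecutive sample points
  have vup : ∀ a < m, D (v a) (v (a + 1)) ≤ 2 * Λ := by
    intro a ha
    have h7 := hup _ (hm6 a ha.le) _ (hm6 (a + 1) ha)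
    rw [abs_sub_comm, abs_of_nonneg (by linarith [h3 a ha])] at h7
    linarith [h4 a ha]
  have vlow : 2 ≤ m → ∀ a < m, Λ - (K + 2 * μ) ≤ D (v a) (v (a + 1)) := by
    intro hm2 a ha
    have h7 := hlow _ (hm6 a ha.le) _ (hm6 (a + 1) ha) (by
      rw [abs_sub_comm, abs_of_nonneg (by linarith [h3 a ha]), hL]
      linarith [h4 a ha])
    rw [abs_sub_comm, abs_of_nonneg (by linarith [h3 a ha])] at h7
    linarith [h5 hm2 a ha]
  have vgp : ∀ b, b + 1 < m → gp D (v b) (v (b + 2)) (v (b + 1)) ≤ (K + 2 * μ) / 2 := by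
    intro b hb
    have e1 := hup _ (hm6 b (by omega)) _ (hm6 (b + 1) (by omega))
    have e2 := hup _ (hm6 (b + 2) (by omega)) _ (hm6 (b + 1) (by omega))
    have e3 := hlow _ (hm6 b (by omega)) _ (hm6 (b + 2) (by omega))
    have f1 := h3 b (by omega)
    have f2 := h3 (b + 1) (by omega)
    have f3 := h4 b (by omega)
    have f4 := h4 (b + 1) (by omega)
    have f5 : τ (b + 1 + 1) = τ (b + 2) := rfl
    rw [f5] at f2 f4
    rw [abs_sub_comm, abs_of_nonneg (by linarith)] at e1 e3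
    rw [abs_of_nonneg (by linarith)] at e2
    have e4 := e3 (by rw [hL]; linarith)
    unfold gp
    simp only [hv]
    linarith
  have hex : ∀ b, b + 1 < m → ∃ w, D w (v (b + 1)) ≤ (K + 2 * μ) / 2 + 2 * δ ∧
      D (v b) w + D w (v (b + 2)) = D (v b) (v (b + 2)) := by
    intro b hb
    obtain ⟨G, hG⟩ := hgeo (v b) (v (b + 2))
    set β := D (v b) (v (b + 2)) with hβ
    have hβ0 : 0 ≤ β := hG.nonneg
    have e1 := vup b (by omega)
    have e2 := vup (b + 1) (by omega)
    have e3 := hD.tri (v b) (v (b + 1)) (v (b + 2))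
    have hβm : β ∈ Icc (0 : ℝ) β := ⟨hβ0, le_rfl⟩
    have h0m : (0 : ℝ) ∈ Icc (0 : ℝ) β := ⟨le_rfl, hβ0⟩
    obtain ⟨s, hs, h7⟩ := proj hD hLH (K := 0) G 0 β hβ0
      (fun s hs t ht => (hG.dist s hs t ht).le)
      (by rw [hG.dist 0 h0m β hβm, abs_sub_comm]; linarith [le_abs_self (β - 0)])
      (v (b + 1)) (by
        rw [hD.eq_right hG.left, hD.symm]
        have : v (b + 1 + 1) = v (b + 2) := rfl
        rw [this] at e2
        linarith)
    refine ⟨G s, ?_, ?_⟩
    · have h8 : gp D (G 0) (G β) (v (b + 1)) = gp D (v b) (v (b + 2)) (v (b + 1)) := by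
        unfold gp
        rw [hD.eq_left hG.left, hD.eq_left hG.right, hD.eq_left hG.left, hD.eq_right hG.right]
      rw [h8] at h7
      rw [hD.symm]
      linarith [vgp b hb]
    · rw [← hD.eq_left hG.left, ← hD.eq_right hG.right, hG.dist 0 h0m s hs, hG.dist s hs β hβm,
        abs_sub_comm, sub_zero, abs_of_nonneg hs.1, abs_sub_comm, abs_of_nonneg (by linarith [hs.2])]
      ring
  classical
  have : Nonempty E := ⟨p' 0⟩
  choose! W hW1 hW2 using hex
  set u : ℕ → E := fun a => if 0 < a ∧ a < m then W (a - 1) else v a with hu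
  have hu_in : ∀ b, b + 1 < m → u (b + 1) = W b := by
    intro b hb
    simp only [hu]
    rw [if_pos ⟨by omega, hb⟩]
    simp
  have hclose : ∀ a ≤ m, D (u a) (v a) ≤ (K + 2 * μ) / 2 + 2 * δ := by
    intro a ha
    by_cases h : 0 < a ∧ a < m
    · obtain ⟨b, rfl⟩ : ∃ b, a = b + 1 := ⟨a - 1, by omega⟩
      rw [hu_in b h.2]
      exact hW1 b h.2
    · simp only [hu, if_neg h]
      rw [hD.self]
      exact hη0
  have huv : ∀ a < m, |D (u a) (u (a + 1)) - D (v a) (v (a + 1))| ≤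
      2 * ((K + 2 * μ) / 2 + 2 * δ) := by
    intro a ha
    have e1 := hclose a ha.le
    have e2 := hclose (a + 1) ha
    have e3 := hD.tri (u a) (v a) (u (a + 1))
    have e4 := hD.tri (v a) (v (a + 1)) (u (a + 1))
    have e5 := hD.tri (v a) (u a) (v (a + 1))
    have e6 := hD.tri (u a) (u (a + 1)) (v (a + 1))
    rw [hD.symm (v (a + 1)) (u (a + 1))] at e4
    rw [hD.symm (v a) (u a)] at e5
    rw [abs_le]
    constructor <;> linarith
  refine ⟨u, ?_, ?_, hclose, ?_, ?_, ?_⟩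
  · simp [hu, hv]
  · simp [hu, hv]
  · intro a ha
    have e1 := (abs_le.mp (huv a ha)).2
    have e2 := vup a ha
    linarith
  · intro a ha
    have e1 := (abs_le.mp (huv a (by omega))).1
    have e2 := vlow (by omega) a (by omega)
    linarith
  · intro a ha
    have hm2 : 2 ≤ m := by omega
    have hw1 := hW1 a ha
    have hw2 := hW2 a ha
    rw [hu_in a ha]
    set w := W a with hw
    have c1 := hclose a (by omega)
    have c2 := hclose (a + 2) (by omega)
    have l1 := vlow hm2 a (by omega)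
    have l2 := vlow hm2 (a + 1) ha
    have l3 : v (a + 1 + 1) = v (a + 2) := rfl
    rw [l3] at l2
    have b1 := vup a (by omega)
    have b2 := vup (a + 1) ha
    rw [l3] at b2
    have g0 : gp D (v a) (v (a + 2)) w = 0 := by
      unfold gp
      rw [hD.symm (v (a + 2)) w]
      linarith
    have t1 := hD.tri (v a) w (v (a + 1))
    have t2 := hD.tri (v (a + 1)) w (v (a + 2))
    rw [hD.symm (v (a + 1)) w] at t2
    have t3 := hD.tri (v a) (v (a + 1)) (v (a + 2))
    have t4 := hD.tri (v a) (v (a + 1)) w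
    rw [hD.symm (v (a + 1)) w] at t4
    have t5 := hD.tri w (v (a + 1)) (v (a + 2))
    have s1 := hD.symm (v a) (u a)
    have s2 := hD.symm (v (a + 2)) (u (a + 2))
    have s3 := hD.symm (v (a + 2)) w
    have far1 := gp_ge hD (v a) (u a) w
    have far2 := gp_ge' hD (u (a + 2)) (v (a + 2)) w
    have r1 := hD.tri (u a) (v a) (v (a + 2))
    have r2 := hD.tri (u a) (v a) w
    have r3 := hD.tri (u (a + 2)) (v (a + 2)) w
    have r4 := hD.tri (u a) (v (a + 2)) (u (a + 2))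
    have p1 := gp_hyp hD hLH (v a) (u a) (v (a + 2)) w (by linarith) (by linarith) (by linarith)
      (by linarith) (by linarith) (by linarith)
    have q1 : gp D (u a) (v (a + 2)) w ≤ δ := by
      rcases min_choice (gp D (v a) (u a) w) (gp D (u a) (v (a + 2)) w) with h8 | h8
      · rw [h8] at p1
        exfalso
        linarith
      · rw [h8] at p1
        linarith
    have p2 := gp_hyp hD hLH (u a) (u (a + 2)) (v (a + 2)) w (by linarith) (by linarith)
      (by linarith) (by linarith) (by linarith) (by linarith)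
    rcases min_choice (gp D (u a) (u (a + 2)) w) (gp D (u (a + 2)) (v (a + 2)) w) with h8 | h8
    · rw [h8] at p2
      linarith
    · rw [h8] at p2
      exfalso
      linarith

end Pool.Agent.TGL
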