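import Pool.Agent.TGL.A8

set_option autoImplicit false
open Set

namespace Pool.Agent.TGL

variable {E : Type*} {D : E → E → ℝ}

theorem exists_seg (τ : ℕ → ℝ) (m : ℕ) (hm : 1 ≤ m) (t : ℝ) (h0 : τ 0 ≤ t) (h1 : t ≤ τ m) :
    ∃ a < m, τ a ≤ t ∧ t ≤ τ (a + 1) := by
  induction m, hm using Nat.le_induction with
  | base => exact ⟨0, by omega, h0, h1⟩
  | succ m hm ih =>
    rcases le_total t (τ m) with h | h
    · obtain ⟨a, ha, h2⟩ := ih h
      exact ⟨a, by omega, h2⟩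
    · exact ⟨m, by omega, h, h1⟩

/-- Moving the end point of a path by at most `μ`. -/
theorem step_exists {δ κ μ K Λ L R B : ℝ} (hc : Cst δ κ μ K Λ L R B) (hD : PMet D)
    (hLH : LH D R δ) (hgeo : ∀ x y, ∃ g, IsGeod D g (D x y) x y) {o : E} (P : Pth D o K L) (w : E)
    (hw : D P.fin w ≤ μ) : ∃ Q : Pth D o K L, D Q.fin w = 0 ∧ Sim B Λ P Q := by
  have hc' := hc
  obtain ⟨hδ, hκ, hμ, hK, hΛ, hL, hR, hB⟩ := hc
  have hKnn : 0 ≤ K := by rw [hK]; nlinarith
  have hΛ0 : 0 < Λ := by linarith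
  obtain ⟨p', T', hT1, hT2, hp', hpend, hup, hlow⟩ := app hc' hD hgeo P w hw
  have hT0 : 0 ≤ T' := P.nonneg.trans hT1
  obtain ⟨m, τ, hm, hτ0, hτm, h2, h3, h4, h5, h6⟩ := exists_times hΛ0 hT0
  obtain ⟨u, hu0, hum, hclose, huu, hul, hugp⟩ :=
    exists_vertices hc' hD hLH hgeo p' T' hup hlow m τ h3 h4 h5 h6
  choose g hg using fun a : ℕ => hgeo (u a) (u (a + 1))
  have hstart : D (u 0) o = 0 := by
    rw [hu0, hτ0, hp' 0 P.nonneg]
    exact P.start
  obtain ⟨Q, hQT, hQp⟩ := bg hc' hD hLH o u g m hm hstart (fun a _ => hg a) huu hul hugp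
  set l : ℕ → ℝ := fun a => D (u a) (u (a + 1)) with hl
  have hl0 : ∀ j, 0 ≤ l j := fun j => hD.nonneg _ _
  have hg1 : ∀ a < m, ∀ s ∈ Icc (0 : ℝ) (l a), ∀ t ∈ Icc (0 : ℝ) (l a),
      D (g a s) (g a t) ≤ |s - t| := fun a _ s hs t ht => ((hg a).dist s hs t ht).le
  have hgg : ∀ a, a + 1 < m → D (g a (l a)) (g (a + 1) 0) = 0 := by
    intro a _
    rw [hD.eq_left (hg a).right, hD.symm]
    exact (hg (a + 1)).left
  have hfin : D Q.fin w = 0 := by
    obtain ⟨b, rfl⟩ : ∃ b, m = b + 1 := ⟨m - 1, by omega⟩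
    have e1 := cat_eq hD hl0 hm hg1 hgg b (by omega) (l b) ⟨hl0 b, le_rfl⟩
    rw [← Sm_succ] at e1
    have e2 : Q.fin = cat l g (b + 1) (Sm l (b + 1)) := by
      unfold Pth.fin
      rw [hQT, hQp]
    rw [e2, hD.eq_left e1, hD.eq_left (hg b).right, hum, hτm]
    exact hpend
  refine ⟨Q, hfin, ?_⟩
  have hendμ : D P.fin Q.fin ≤ μ := by
    rw [hD.eq_right hfin]
    exact hw
  -- monotonicity of sampling times
  have hlast : τ (m - 1) ≤ P.T := by
    rcases Nat.lt_or_ge m 2 with h | h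
    · have : m - 1 = 0 := by omega
      rw [this, hτ0]
      exact P.nonneg
    · have e1 := h5 h (m - 1) (by omega)
      have e2 : m - 1 + 1 = m := by omega
      rw [e2, hτm] at e1
      linarith
  have hτle : ∀ a < m, τ a ≤ P.T := by
    intro a ha
    refine le_trans ?_ hlast
    rw [h2 a ha, h2 (m - 1) (by omega)]
    have : (a : ℝ) ≤ ((m - 1 : ℕ) : ℝ) := by exact_mod_cast (by omega : a ≤ m - 1)
    nlinarith
  have hSm0 : ∀ a, 0 ≤ Sm l a := by
    intro a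
    have := Sm_mono hl0 (Nat.zero_le a)
    rwa [Sm_zero] at this
  -- the matching
  set M : ℝ → ℝ → Prop := fun t s => t ∈ Icc (0 : ℝ) P.T ∧ ∃ a < m, (τ a ≤ t ∧ t ≤ τ (a + 1)) ∧
    Sm l a ≤ s ∧ s ≤ Sm l (a + 1) with hMdef
  -- comparison of increments
  have cmp : ∀ t s t' s' : ℝ, ∀ a < m, ∀ a' < m, a ≤ a' → (τ a ≤ t ∧ t ≤ τ (a + 1)) →
      (Sm l a ≤ s ∧ s ≤ Sm l (a + 1)) → (τ a' ≤ t' ∧ t' ≤ τ (a' + 1)) →
      (Sm l a' ≤ s' ∧ s' ≤ Sm l (a' + 1)) →
      |s - s'| ≤ 3 * |t - t'| + 6 * Λ ∧ |t - t'| ≤ 2 * |s - s'| + 3 * Λ := by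
    intro t s t' s' a ha a' ha' haa' ht hs ht' hs'
    have k1 : Sm l (a' + 1) ≤ Sm l a + 3 * Λ * ((a' : ℝ) + 1 - a) := by
      have : ∀ b, a ≤ b → b ≤ a' → Sm l (b + 1) ≤ Sm l a + 3 * Λ * ((b : ℝ) + 1 - a) := by
        intro b hb
        induction b, hb using Nat.le_induction with
        | base =>
          intro _
          rw [Sm_succ]
          have := huu a ha
          have e : l a ≤ 3 * Λ := this
          linarith
        | succ b hb ih =>
          intro hba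
          have e1 := ih (by omega)
          have e2 : l (b + 1) ≤ 3 * Λ := huu (b + 1) (by omega)
          rw [Sm_succ]
          push_cast
          linarith
      exact this a' haa' le_rfl
    have k2 : ((a' : ℝ) - a - 1) * Λ ≤ |t - t'| := by
      rcases Nat.eq_or_lt_of_le haa' with h | h
      · rw [h]
        have := abs_nonneg (t - t')
        nlinarith
      · have e1 : τ (a + 1) = ((a + 1 : ℕ) : ℝ) * Λ := h2 (a + 1) (by omega)
        have e2 := h2 a' ha'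
        push_cast at e1
        have e3 : t' - t ≤ |t - t'| := by
          rw [abs_sub_comm]
          exact le_abs_self _
        have : ((a' : ℝ) - a - 1) * Λ = τ a' - τ (a + 1) := by
          rw [e1, e2]
          ring
        linarith [ht.2, ht'.1]
    have k3 : ((a' : ℝ) - a - 1) * (Λ / 2) ≤ |s - s'| := by
      rcases Nat.eq_or_lt_of_le haa' with h | h
      · rw [h]
        have := abs_nonneg (s - s')
        nlinarith
      · have : ∀ b, a + 1 ≤ b → b ≤ a' → ((b : ℝ) - a - 1) * (Λ / 2) ≤ Sm l b - Sm l (a + 1) := by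
          intro b hb
          induction b, hb using Nat.le_induction with
          | base =>
            intro _
            push_cast
            simp
          | succ b hb ih =>
            intro hba
            have e1 := ih (by omega)
            have e2 : Λ / 2 ≤ l b := hul b (by omega)
            rw [Sm_succ]
            push_cast
            nlinarith
        have e1 := this a' h le_rfl
        have e3 : s' - s ≤ |s - s'| := by
          rw [abs_sub_comm]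
          exact le_abs_self _
        linarith [hs.2, hs'.1]
    have k4 : |s - s'| ≤ Sm l (a' + 1) - Sm l a := by
      have e1 : Sm l a ≤ Sm l a' := Sm_mono hl0 haa'
      have e2 : Sm l (a + 1) ≤ Sm l (a' + 1) := Sm_mono hl0 (by omega)
      rw [abs_le]
      constructor <;> linarith [hs.1, hs.2, hs'.1, hs'.2]
    have k5 : |t - t'| ≤ ((a' : ℝ) - a) * Λ + 2 * Λ := by
      have e1 := h2 a ha
      have e2 := h2 a' ha'
      have e3 := h4 a' ha'
      have e4 := h4 a ha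
      have e5 : (a : ℝ) ≤ a' := by exact_mod_cast haa'
      have e6 : τ a ≤ τ a' := by rw [e1, e2]; nlinarith
      rw [abs_le]
      constructor <;> nlinarith [ht.1, ht.2, ht'.1, ht'.2]
    constructor
    · linarith
    · linarith
  have hM : Mat P Q (6 * Λ) 8 (7 * Λ) M := by
    refine ⟨?_, ?_, ?_, ?_, ?_, ?_, ?_, ?_⟩
    · rintro t s ⟨ht, a, ha, hta, hsa⟩
      refine ⟨ht, (hSm0 a).trans hsa.1, ?_⟩
      rw [hQT]
      exact hsa.2.trans (Sm_mono hl0 ha)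
    · rintro t s ⟨ht, a, ha, hta, hsa⟩
      rw [Sm_succ] at hsa
      have hr : s - Sm l a ∈ Icc (0 : ℝ) (l a) := ⟨by linarith [hsa.1], by linarith [hsa.2]⟩
      have e1 := cat_eq hD hl0 hm hg1 hgg a ha _ hr
      rw [show Sm l a + (s - Sm l a) = s by ring] at e1
      have e2 : D (g a (s - Sm l a)) (u a) = s - Sm l a := by
        rw [← hD.eq_right (hg a).left, (hg a).dist _ hr 0 ⟨le_rfl, hl0 a⟩, sub_zero,
          abs_of_nonneg hr.1]
      have e3 : Q.p s = cat l g m s := by rw [hQp]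
      have e4 := hclose a ha.le
      have e5 := hup t ⟨ht.1, ht.2.trans hT1⟩ (τ a) (h6 a ha.le)
      rw [abs_of_nonneg (by linarith [hta.1])] at e5
      rw [hp' t ht.2] at e5
      have e6 := h4 a ha
      rw [e3, hD.eq_right e1]
      have e7 := hD.tri (P.p t) (p' (τ a)) (g a (s - Sm l a))
      have e8 := hD.tri (p' (τ a)) (u a) (g a (s - Sm l a))
      rw [hD.symm (p' (τ a)) (u a), hD.symm (u a) (g a (s - Sm l a))] at e8
      have e9 : l a ≤ 3 * Λ := huu a ha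
      linarith [hta.2, hr.2]
    · refine ⟨⟨le_rfl, P.nonneg⟩, 0, by omega, ⟨hτ0.le, ?_⟩, (Sm_zero l).le, hSm0 1⟩
      have := h3 0 (by omega)
      rwa [hτ0] at this
    · obtain ⟨b, rfl⟩ : ∃ b, m = b + 1 := ⟨m - 1, by omega⟩
      refine ⟨⟨P.nonneg, le_rfl⟩, b, by omega, ⟨?_, ?_⟩, ?_, ?_⟩
      · simpa using hlast
      · rw [hτm]
        exact hT1
      · rw [hQT]
        exact Sm_mono hl0 (by omega)
      · rw [hQT]
    · intro t ht
      obtain ⟨a, ha, h8⟩ := exists_seg τ m hm t (by rw [hτ0]; exact ht.1)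
        (by rw [hτm]; exact ht.2.trans hT1)
      exact ⟨Sm l a, ht, a, ha, h8, le_rfl, Sm_mono hl0 (by omega)⟩
    · intro s hs
      rw [hQT] at hs
      obtain ⟨a, ha, h8⟩ := exists_seg (Sm l) m hm s (by rw [Sm_zero]; exact hs.1) hs.2
      exact ⟨τ a, ⟨(h6 a ha.le).1, hτle a ha⟩, a, ha, ⟨le_rfl, h3 a ha⟩, h8⟩
    · rintro t s t' s' ⟨ht, a, ha, hta, hsa⟩ ⟨ht', a', ha', hta', hsa'⟩
      have hn := abs_nonneg (t - t')
      rcases le_total a a' with h | h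
      · have := (cmp t s t' s' a ha a' ha' h hta hsa hta' hsa').1
        linarith
      · have := (cmp t' s' t s a' ha' a ha h hta' hsa' hta hsa).1
        rw [abs_sub_comm s' s, abs_sub_comm t' t] at this
        linarith
    · rintro t s t' s' ⟨ht, a, ha, hta, hsa⟩ ⟨ht', a', ha', hta', hsa'⟩
      have hn := abs_nonneg (s - s')
      rcases le_total a a' with h | h
      · have := (cmp t s t' s' a ha a' ha' h hta hsa hta' hsa').2
        linarith
      · have := (cmp t' s' t s a' ha' a ha h hta' hsa' hta hsa).2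
        rw [abs_sub_comm s' s, abs_sub_comm t' t] at this
        linarith
  exact imp hc' hD hLH P Q M hM hendμ

theorem Sim.refl {δ κ μ K Λ L R B : ℝ} (hc : Cst δ κ μ K Λ L R B) (hD : PMet D) {o : E}
    (P : Pth D o K L) : Sim B Λ P P := by
  obtain ⟨hδ, hκ, hμ, hK, hΛ, hL, hR, hB⟩ := hc
  have hKnn : 0 ≤ K := by rw [hK]; nlinarith
  have hΛ0 : 0 < Λ := by linarith
  refine ⟨fun t s => t ∈ Icc (0 : ℝ) P.T ∧ t = s, ?_, ?_, ?_, ?_, ?_, ?_, ?_, ?_⟩
  · rintro t s ⟨ht, rfl⟩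
    exact ⟨ht, ht⟩
  · rintro t s ⟨ht, rfl⟩
    rw [hD.self, hB]
    linarith
  · exact ⟨⟨le_rfl, P.nonneg⟩, rfl⟩
  · exact ⟨⟨P.nonneg, le_rfl⟩, rfl⟩
  · intro t ht
    exact ⟨t, ht, rfl⟩
  · intro t ht
    exact ⟨t, ht, rfl⟩
  · rintro t s t' s' ⟨ht, rfl⟩ ⟨ht', rfl⟩
    have := abs_nonneg (t - t')
    linarith
  · rintro t s t' s' ⟨ht, rfl⟩ ⟨ht', rfl⟩
    have := abs_nonneg (t - t')
    linarith

theorem Sim.symm {Λ B K L : ℝ} (hD : PMet D) {o : E} {P Q : Pth D o K L} (h : Sim B Λ P Q) :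
    Sim B Λ Q P := by
  obtain ⟨M, hM⟩ := h
  exact ⟨_, hM.symm hD⟩

/-- Transitivity of similarity for chains of four paths with close ends. -/
theorem Sim.trans4 {δ κ μ K Λ L R B : ℝ} (hc : Cst δ κ μ K Λ L R B) (hD : PMet D)
    (hLH : LH D R δ) {o : E} {P1 P2 P3 P4 : Pth D o K L} (h12 : Sim B Λ P1 P2) (h23 : Sim B Λ P2 P3)
    (h34 : Sim B Λ P3 P4) (hend : D P1.fin P4.fin ≤ μ) : Sim B Λ P1 P4 := by
  have hc' := hc
  obtain ⟨hδ, hκ, hμ, hK, hΛ, hL, hR, hB⟩ := hc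
  have hKnn : 0 ≤ K := by rw [hK]; nlinarith
  have hΛ0 : 0 < Λ := by linarith
  obtain ⟨M1, hM1⟩ := h12
  obtain ⟨M2, hM2⟩ := h23
  obtain ⟨M3, hM3⟩ := h34
  refine imp hc' hD hLH P1 P4 (fun t s => ∃ t2 t3, M1 t t2 ∧ M2 t2 t3 ∧ M3 t3 s) ?_ hend
  refine ⟨?_, ?_, ?_, ?_, ?_, ?_, ?_, ?_⟩
  · rintro t s ⟨t2, t3, h1, h2, h3⟩
    exact ⟨(hM1.mem _ _ h1).1, (hM3.mem _ _ h3).2⟩
  · rintro t s ⟨t2, t3, h1, h2, h3⟩
    have e1 := hM1.close _ _ h1
    have e2 := hM2.close _ _ h2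
    have e3 := hM3.close _ _ h3
    have e4 := hD.tri (P1.p t) (P2.p t2) (P4.p s)
    have e5 := hD.tri (P2.p t2) (P3.p t3) (P4.p s)
    rw [hB] at e1 e2 e3
    linarith
  · exact ⟨0, 0, hM1.zero, hM2.zero, hM3.zero⟩
  · exact ⟨_, _, hM1.last, hM2.last, hM3.last⟩
  · intro t ht
    obtain ⟨t2, h1⟩ := hM1.totl t ht
    obtain ⟨t3, h2⟩ := hM2.totl t2 (hM1.mem _ _ h1).2
    obtain ⟨s, h3⟩ := hM3.totl t3 (hM2.mem _ _ h2).2
    exact ⟨s, t2, t3, h1, h2, h3⟩
  · intro s hs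
    obtain ⟨t3, h3⟩ := hM3.totr s hs
    obtain ⟨t2, h2⟩ := hM2.totr t3 (hM3.mem _ _ h3).1
    obtain ⟨t, h1⟩ := hM1.totr t2 (hM2.mem _ _ h2).1
    exact ⟨t, t2, t3, h1, h2, h3⟩
  · rintro t s t' s' ⟨t2, t3, h1, h2, h3⟩ ⟨t2', t3', h1', h2', h3'⟩
    have e1 := hM1.lipr _ _ _ _ h1 h1'
    have e2 := hM2.lipr _ _ _ _ h2 h2'
    have e3 := hM3.lipr _ _ _ _ h3 h3'
    linarith
  · rintro t s t' s' ⟨t2, t3, h1, h2, h3⟩ ⟨t2', t3', h1', h2', h3'⟩
    have e1 := hM1.lipl _ _ _ _ h1 h1'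
    have e2 := hM2.lipl _ _ _ _ h2 h2'
    have e3 := hM3.lipl _ _ _ _ h3 h3'
    linarith

theorem Sim.len {Λ B K L : ℝ} {o : E} {P Q : Pth D o K L} (h : Sim B Λ P Q) :
    P.T ≤ 2 * Q.T + Λ := by
  obtain ⟨M, hM⟩ := h
  have e1 := hM.lipl _ _ _ _ hM.last hM.zero
  rw [sub_zero, sub_zero, abs_of_nonneg P.nonneg, abs_of_nonneg Q.nonneg] at e1
  exact e1

end Pool.Agent.TGL
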