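import Pool.Agent.TGL.Defs

set_option autoImplicit false
open Set

namespace Pool.Agent.TGL

/-- Abstract local system data: a type `Q` of paths with end points in `E` and a similarity relation. -/
structure Mono {E Q : Type*} (fin : Q → E) (S : Q → Q → Prop) (D d : E → E → ℝ) (μ : ℝ) : Prop where
  hD : PMet D
  hd : PMet d
  hDd : ∀ x y, D x y ≤ d x y
  hμ : 0 < μ
  refl : ∀ P, S P P
  symm : ∀ P P', S P P' → S P' P
  trans4 : ∀ P1 P2 P3 P4, S P1 P2 → S P2 P3 → S P3 P4 → D (fin P1) (fin P4) ≤ μ → S P1 P4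
  step : ∀ P w, D (fin P) w ≤ μ → ∃ P', D (fin P') w = 0 ∧ S P P'

variable {E Q : Type*} {fin : Q → E} {S : Q → Q → Prop} {D d : E → E → ℝ} {μ : ℝ}

theorem eq_left' (h : PMet D) {x y : E} (hxy : D x y = 0) (z : E) : D x z = D y z := by
  have h1 := h.tri x y z
  have h2 := h.tri y x z
  rw [h.symm y x] at h2
  linarith

theorem eq_right' (h : PMet D) {x y : E} (hxy : D x y = 0) (z : E) : D z x = D z y := by
  rw [h.symm z x, h.symm z y]
  exact eq_left' h hxy z

theorem Mono.trans3 (h : Mono fin S D d μ) {P1 P2 P3 : Q} (h1 : S P1 P2) (h2 : S P2 P3)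
    (he : D (fin P1) (fin P3) ≤ μ) : S P1 P3 :=
  h.trans4 P1 P2 P3 P3 h1 h2 (h.refl P3) he

theorem Mono.ladder (h : Mono fin S D d μ) (P P' : ℕ → Q) (k : ℕ)
    (h1 : ∀ i < k, S (P i) (P (i + 1))) (h2 : ∀ i < k, S (P' i) (P' (i + 1)))
    (h0 : S (P 0) (P' 0)) (he : ∀ i ≤ k, D (fin (P i)) (fin (P' i)) ≤ μ) :
    ∀ i ≤ k, S (P i) (P' i) := by
  intro i
  induction i with
  | zero => intro _; exact h0
  | succ i ih =>
    intro hi
    exact h.trans4 _ _ _ _ (h.symm _ _ (h1 i (by omega))) (ih (by omega)) (h2 i (by omega))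
      (he (i + 1) hi)

/-- A contraction of `E` to `o`. -/
structure Cone (d : E → E → ℝ) (o : E) (h : ℝ → E → E) : Prop where
  zero : ∀ z, h 0 z = o
  one : ∀ z, h 1 z = z
  speed : ∀ z, ∀ s ∈ Icc (0 : ℝ) 1, ∀ t ∈ Icc (0 : ℝ) 1, d (h s z) (h t z) ≤ |s - t| * d o z
  contr : ∀ z w, ∀ t ∈ Icc (0 : ℝ) 1, d (h t z) (h t w) ≤ d z w

variable {o : E} {hh : ℝ → E → E}

theorem Mono.exists_dev (h : Mono fin S D d μ) (hc : Cone d o hh) (P0 : Q) (hP0 : D (fin P0) o = 0)
    (z : E) (k : ℕ) (hk : 1 ≤ k) (hz : d o z ≤ k * μ) :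
    ∃ P : ℕ → Q, P 0 = P0 ∧ (∀ i ≤ k, D (fin (P i)) (hh ((i : ℝ) / k) z) = 0) ∧
      ∀ i < k, S (P i) (P (i + 1)) := by
  have : Nonempty Q := ⟨P0⟩
  choose! nx hnx1 hnx2 using h.step
  set P : ℕ → Q := fun i => Nat.rec P0 (fun i p => nx p (hh (((i : ℝ) + 1) / k) z)) i with hP
  have hPS : ∀ i, P (i + 1) = nx (P i) (hh (((i : ℝ) + 1) / k) z) := fun i => rfl
  have hk0 : (0 : ℝ) < k := by exact_mod_cast hk
  have hmem : ∀ i ≤ k, ((i : ℝ) / k) ∈ Icc (0 : ℝ) 1 := by
    intro i hi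
    refine ⟨by positivity, ?_⟩
    rw [div_le_one hk0]
    exact_mod_cast hi
  have hstep : ∀ i < k, d (hh ((i : ℝ) / k) z) (hh (((i : ℝ) + 1) / k) z) ≤ μ := by
    intro i hi
    have h1 := hc.speed z _ (hmem i hi.le) (((i : ℝ) + 1) / k) (by
      have := hmem (i + 1) hi
      push_cast at this
      exact this)
    have h2 : |(i : ℝ) / k - ((i : ℝ) + 1) / k| = 1 / k := by
      rw [← sub_div, show (i : ℝ) - (i + 1) = -1 by ring, neg_div, abs_neg, abs_of_pos (by positivity)]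
    rw [h2] at h1
    refine h1.trans ?_
    rw [one_div, inv_mul_eq_div, div_le_iff₀ hk0]
    linarith
  have key : ∀ i ≤ k, D (fin (P i)) (hh ((i : ℝ) / k) z) = 0 := by
    intro i
    induction i with
    | zero =>
      intro _
      simp only [Nat.cast_zero, zero_div, hc.zero]
      exact hP0
    | succ i ih =>
      intro hi
      have h1 := ih (by omega)
      rw [hPS]
      push_cast
      apply hnx1
      rw [eq_left' h.hD h1]
      exact (h.hDd _ _).trans (hstep i (by omega))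
  refine ⟨P, rfl, key, ?_⟩
  intro i hi
  rw [hPS]
  apply hnx2
  rw [eq_left' h.hD (key i hi.le)]
  exact (h.hDd _ _).trans (hstep i hi)

/-- Refinement does not change the end result. -/
theorem Mono.refine (h : Mono fin S D d μ) (hc : Cone d o hh) (P0 : Q) (z : E) (k k' : ℕ)
    (hk : 1 ≤ k) (hk' : 1 ≤ k') (hz : d o z ≤ k * μ) (P P' : ℕ → Q) (h0 : P 0 = P0) (h0' : P' 0 = P0)
    (hf : ∀ i ≤ k, D (fin (P i)) (hh ((i : ℝ) / k) z) = 0)
    (hf' : ∀ i ≤ k * k', D (fin (P' i)) (hh ((i : ℝ) / ((k * k' : ℕ) : ℝ)) z) = 0)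
    (hs : ∀ i < k, S (P i) (P (i + 1))) (hs' : ∀ i < k * k', S (P' i) (P' (i + 1))) :
    S (P k) (P' (k * k')) := by
  have hk0 : (0 : ℝ) < k := by exact_mod_cast hk
  have hk0' : (0 : ℝ) < k' := by exact_mod_cast hk'
  have hl := h.ladder (fun j => P (j / k')) P' (k * k') ?_ hs' ?_ ?_ (k * k') le_rfl
  · simpa [Nat.mul_div_cancel _ (by omega : 0 < k')] using hl
  · intro j hj
    have h1 : j / k' < k := by
      rw [Nat.div_lt_iff_lt_mul (by omega)]
      exact hj
    have h2 : (j + 1) / k' = j / k' ∨ (j + 1) / k' = j / k' + 1 := by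
      have e1 : j / k' ≤ (j + 1) / k' := Nat.div_le_div_right (by omega)
      have e2 : (j + 1) / k' ≤ (j + k') / k' := Nat.div_le_div_right (by omega)
      rw [Nat.add_div_right _ (by omega)] at e2
      omega
    rcases h2 with h2 | h2
    · rw [h2]
      exact h.refl _
    · rw [h2]
      exact hs _ h1
  · simp only [Nat.zero_div, h0, h0']
    exact h.refl _
  · intro j hj
    have h1 : j / k' ≤ k := by
      have : j / k' ≤ k * k' / k' := Nat.div_le_div_right hj
      rwa [Nat.mul_div_cancel _ (by omega : 0 < k')] at this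
    rw [eq_left' h.hD (hf _ h1), eq_right' h.hD (hf' j hj)]
    refine (h.hDd _ _).trans ?_
    have hm1 : (((j / k' : ℕ) : ℝ) / k) ∈ Icc (0 : ℝ) 1 := by
      refine ⟨by positivity, ?_⟩
      rw [div_le_one hk0]
      exact_mod_cast h1
    have hkk : (0 : ℝ) < ((k * k' : ℕ) : ℝ) := by
      push_cast
      positivity
    have hm2 : ((j : ℝ) / ((k * k' : ℕ) : ℝ)) ∈ Icc (0 : ℝ) 1 := by
      refine ⟨by positivity, ?_⟩
      rw [div_le_one hkk]
      exact_mod_cast hj
    refine (hc.speed z _ hm1 _ hm2).trans ?_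
    have h3 : (j : ℝ) = (k' : ℝ) * ((j / k' : ℕ) : ℝ) + ((j % k' : ℕ) : ℝ) := by
      exact_mod_cast (Nat.div_add_mod j k').symm
    have h4 : ((j % k' : ℕ) : ℝ) ≤ k' := by
      exact_mod_cast (Nat.mod_lt j (by omega : 0 < k')).le
    have h5 : (0 : ℝ) ≤ ((j % k' : ℕ) : ℝ) := Nat.cast_nonneg _
    have h6 : |((j / k' : ℕ) : ℝ) / k - (j : ℝ) / ((k * k' : ℕ) : ℝ)| ≤ 1 / k := by
      have e : ((j / k' : ℕ) : ℝ) / k - (j : ℝ) / ((k * k' : ℕ) : ℝ) =
          -(((j % k' : ℕ) : ℝ) / ((k : ℝ) * k')) := by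
        push_cast
        rw [h3]
        field_simp
        ring
      rw [e, abs_neg, abs_of_nonneg (by positivity), div_le_div_iff₀ (by positivity) hk0]
      nlinarith
    have h7 : 0 ≤ d o z := by
      have e1 := h.hd.tri o z o
      rw [h.hd.self, h.hd.symm z o] at e1
      linarith
    calc |((j / k' : ℕ) : ℝ) / k - (j : ℝ) / ((k * k' : ℕ) : ℝ)| * d o z ≤ 1 / k * d o z :=
          mul_le_mul_of_nonneg_right h6 h7
      _ ≤ μ := by
        rw [one_div, inv_mul_eq_div, div_le_iff₀ hk0]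
        linarith

/-- The section. -/
theorem Mono.exists_section (h : Mono fin S D d μ) (hc : Cone d o hh) (P0 : Q)
    (hP0 : D (fin P0) o = 0) :
    ∃ T : E → Q, (∀ z, D (fin (T z)) z = 0) ∧ (∀ z w, d z w ≤ μ → S (T z) (T w)) ∧
      S P0 (T o) := by
  have hex : ∀ z : E, ∃ k : ℕ, 1 ≤ k ∧ d o z ≤ k * μ := by
    intro z
    obtain ⟨k, hk⟩ := exists_nat_ge (max (d o z / μ) 1)
    refine ⟨k, ?_, ?_⟩
    · have : (1 : ℝ) ≤ (k : ℝ) := (le_max_right _ _).trans hk
      exact_mod_cast this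
    · have : d o z / μ ≤ (k : ℝ) := (le_max_left _ _).trans hk
      rwa [div_le_iff₀ h.hμ] at this
  choose k hk1 hk2 using hex
  choose P hPz hPf hPs using fun z : E => h.exists_dev hc P0 hP0 z (k z) (hk1 z) (hk2 z)
  have hfin : ∀ z, D (fin (P z (k z))) z = 0 := by
    intro z
    have := hPf z (k z) le_rfl
    have hk0 : ((k z : ℕ) : ℝ) ≠ 0 := by
      have := hk1 z
      positivity
    rwa [div_self hk0, hc.one] at this
  refine ⟨fun z => P z (k z), hfin, ?_, ?_⟩
  · intro z w hzw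
    simp only
    have hkk : 1 ≤ k z * k w := Nat.one_le_iff_ne_zero.mpr (Nat.mul_ne_zero (by have := hk1 z; omega)
      (by have := hk1 w; omega))
    have e1 : d o z ≤ ((k z * k w : ℕ) : ℝ) * μ := by
      refine (hk2 z).trans ?_
      push_cast
      have : (1 : ℝ) ≤ k w := by exact_mod_cast hk1 w
      have h2 : (0 : ℝ) ≤ k z * μ := mul_nonneg (Nat.cast_nonneg _) h.hμ.le
      nlinarith
    have e2 : d o w ≤ ((k z * k w : ℕ) : ℝ) * μ := by
      refine (hk2 w).trans ?_
      push_cast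
      have : (1 : ℝ) ≤ k z := by exact_mod_cast hk1 z
      have h2 : (0 : ℝ) ≤ k w * μ := mul_nonneg (Nat.cast_nonneg _) h.hμ.le
      nlinarith
    obtain ⟨A, hA0, hAf, hAs⟩ := h.exists_dev hc P0 hP0 z (k z * k w) hkk e1
    obtain ⟨A', hA0', hAf', hAs'⟩ := h.exists_dev hc P0 hP0 w (k z * k w) hkk e2
    have r1 := h.refine hc P0 z (k z) (k w) (hk1 z) (hk1 w) (hk2 z) (P z) A (hPz z) hA0 (hPf z) hAf
      (hPs z) hAs
    have r2 := h.refine hc P0 w (k w) (k z) (hk1 w) (hk1 z) (hk2 w) (P w) A' (hPz w) hA0' (hPf w)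
      (by rw [mul_comm (k w) (k z)]; exact hAf') (hPs w) (by rw [mul_comm (k w) (k z)]; exact hAs')
    rw [mul_comm (k w) (k z)] at r2
    have hkk0 : (0 : ℝ) < ((k z * k w : ℕ) : ℝ) := by exact_mod_cast hkk
    have r3 := h.ladder A A' (k z * k w) hAs hAs' (by rw [hA0, hA0']; exact h.refl _) (by
      intro i hi
      rw [eq_left' h.hD (hAf i hi), eq_right' h.hD (hAf' i hi)]
      refine (h.hDd _ _).trans ((hc.contr z w _ ⟨by positivity, ?_⟩).trans hzw)
      rw [div_le_one hkk0]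
      exact_mod_cast hi) (k z * k w) le_rfl
    refine h.trans4 _ _ _ _ r1 r3 (h.symm _ _ r2) ?_
    rw [eq_left' h.hD (hfin z), eq_right' h.hD (hfin w)]
    exact (h.hDd _ _).trans hzw
  · have := h.ladder (fun _ => P0) (P o) (k o) (fun i _ => h.refl _) (hPs o)
      (by rw [hPz]; exact h.refl _) (by
        intro i hi
        rw [eq_left' h.hD hP0, eq_right' h.hD (hPf o i hi)]
        have hk0 : (0 : ℝ) < k o := by exact_mod_cast hk1 o
        have e1 := hc.speed o 0 ⟨le_rfl, zero_le_one⟩ ((i : ℝ) / k o) ⟨by positivity, by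
          rw [div_le_one hk0]; exact_mod_cast hi⟩
        rw [h.hd.self, mul_zero, hc.zero] at e1
        exact (h.hDd _ _).trans (e1.trans h.hμ.le)) (k o) le_rfl
    exact this

/-- A property that propagates along steps of size `μ` and holds somewhere holds everywhere. -/
theorem propagate (hμ : 0 < μ) (hc : Cone d o hh) (Pr : E → Prop)
    (hs : ∀ z w, Pr z → d z w ≤ μ → Pr w) (c : E) (hPc : Pr c) (z : E) : Pr z := by
  have hex : ∀ z : E, ∃ k : ℕ, 1 ≤ k ∧ d o z ≤ k * μ := by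
    intro z
    obtain ⟨k, hk⟩ := exists_nat_ge (max (d o z / μ) 1)
    refine ⟨k, ?_, ?_⟩
    · have : (1 : ℝ) ≤ (k : ℝ) := (le_max_right _ _).trans hk
      exact_mod_cast this
    · have : d o z / μ ≤ (k : ℝ) := (le_max_left _ _).trans hk
      rwa [div_le_iff₀ hμ] at this
  have stepd : ∀ (w : E) (k : ℕ), 1 ≤ k → d o w ≤ k * μ → ∀ a b : ℕ, a ≤ k → b ≤ k →
      |(a : ℝ) - b| ≤ 1 → d (hh ((a : ℝ) / k) w) (hh ((b : ℝ) / k) w) ≤ μ := by
    intro w k hk hw a b ha hb hab
    have hk0 : (0 : ℝ) < k := by exact_mod_cast hk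
    refine (hc.speed w _ ⟨by positivity, by rw [div_le_one hk0]; exact_mod_cast ha⟩ _
      ⟨by positivity, by rw [div_le_one hk0]; exact_mod_cast hb⟩).trans ?_
    rw [← sub_div, abs_div, abs_of_pos hk0]
    rcases le_total 0 (d o w) with h1 | h1
    · calc |(a : ℝ) - b| / k * d o w ≤ 1 / k * d o w := by
            apply mul_le_mul_of_nonneg_right _ h1
            exact div_le_div_of_nonneg_right hab hk0.le
        _ ≤ μ := by
          rw [one_div, inv_mul_eq_div, div_le_iff₀ hk0]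
          linarith
    · have : 0 ≤ |(a : ℝ) - b| / k := by positivity
      nlinarith
  -- from c to o
  have ho : Pr o := by
    obtain ⟨k, hk, hk2⟩ := hex c
    have hk0 : ((k : ℕ) : ℝ) ≠ 0 := by positivity
    have : ∀ i ≤ k, Pr (hh (((k - i : ℕ) : ℝ) / k) c) := by
      intro i
      induction i with
      | zero =>
        intro _
        rw [Nat.sub_zero, div_self hk0, hc.one]
        exact hPc
      | succ i ih =>
        intro hi
        refine hs _ _ (ih (by omega)) (stepd c k hk hk2 _ _ (by omega) (by omega) ?_)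
        have : ((k - i : ℕ) : ℝ) - ((k - (i + 1) : ℕ) : ℝ) = 1 := by
          rw [Nat.cast_sub (by omega), Nat.cast_sub (by omega)]
          push_cast
          ring
        rw [this, abs_one]
    have h1 := this k le_rfl
    rw [Nat.sub_self, Nat.cast_zero, zero_div, hc.zero] at h1
    exact h1
  obtain ⟨k, hk, hk2⟩ := hex z
  have hk0 : ((k : ℕ) : ℝ) ≠ 0 := by positivity
  have : ∀ i ≤ k, Pr (hh ((i : ℝ) / k) z) := by
    intro i
    induction i with
    | zero =>
      intro _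
      rw [Nat.cast_zero, zero_div, hc.zero]
      exact ho
    | succ i ih =>
      intro hi
      refine hs _ _ (ih (by omega)) ?_
      have h2 := stepd z k hk hk2 i (i + 1) (by omega) hi (by
        push_cast
        rw [show (i : ℝ) - (i + 1) = -1 by ring, abs_neg, abs_one])
      exact h2
  have h1 := this k le_rfl
  rwa [div_self hk0, hc.one] at h1

end Pool.Agent.TGL
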