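import Pool.Agent.TGL.A9
import Pool.Agent.TGL.A10
import Pool.Agent.TGL.B1

set_option autoImplicit false
open Set

namespace Pool.Agent.TGL

variable {E : Type*} {D d : E → E → ℝ}

theorem mono_pth {δ κ μ K Λ L R B : ℝ} (hc : Cst δ κ μ K Λ L R B) (hD : PMet D) (hd : PMet d)
    (hDd : ∀ x y, D x y ≤ d x y) (hLH : LH D R δ) (hgeo : ∀ x y, ∃ g, IsGeod D g (D x y) x y)
    (o : E) : Mono (Q := Pth D o K L) Pth.fin (Sim B Λ) D d μ where
  hD := hD
  hd := hd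
  hDd := hDd
  hμ := hc.hμ
  refl := fun P => Sim.refl hc hD P
  symm := fun _ _ h => h.symm hD
  trans4 := fun _ _ _ _ h1 h2 h3 he => Sim.trans4 hc hD hLH h1 h2 h3 he
  step := fun P w hw => step_exists hc hD hLH hgeo P w hw

/-- Restriction of a path to `[0,t]`. -/
def Pth.res {o : E} {K L : ℝ} (P : Pth D o K L) (t : ℝ) (ht : t ∈ Icc (0 : ℝ) P.T) :
    Pth D o K L where
  p := P.p
  T := t
  nonneg := ht.1
  start := P.start
  up := fun s hs s' hs' => P.up s ⟨hs.1, hs.2.trans ht.2⟩ s' ⟨hs'.1, hs'.2.trans ht.2⟩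
  low := fun s hs s' hs' => P.low s ⟨hs.1, hs.2.trans ht.2⟩ s' ⟨hs'.1, hs'.2.trans ht.2⟩

theorem sim_res {δ κ μ K Λ L R B : ℝ} (hc : Cst δ κ μ K Λ L R B)
    {o : E} (P : Pth D o K L) (s t : ℝ) (hs : s ∈ Icc (0 : ℝ) P.T) (ht : t ∈ Icc (0 : ℝ) P.T)
    (hst : |s - t| ≤ μ) : Sim B Λ (P.res s hs) (P.res t ht) := by
  obtain ⟨hδ, hκ, hμ, hK, hΛ, hL, hR, hB⟩ := hc
  have hKnn : 0 ≤ K := by rw [hK]; nlinarith
  have hst' := abs_le.mp hst
  refine ⟨fun a b => a ∈ Icc (0 : ℝ) s ∧ b ∈ Icc (0 : ℝ) t ∧ |a - b| ≤ μ, ?_, ?_, ?_, ?_, ?_, ?_,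
    ?_, ?_⟩
  · rintro a b ⟨ha, hb, hab⟩
    exact ⟨ha, hb⟩
  · rintro a b ⟨ha, hb, hab⟩
    have := P.up a ⟨ha.1, ha.2.trans hs.2⟩ b ⟨hb.1, hb.2.trans ht.2⟩
    show D (P.p a) (P.p b) ≤ B
    rw [hB]
    linarith
  · refine ⟨⟨le_rfl, hs.1⟩, ⟨le_rfl, ht.1⟩, ?_⟩
    rw [sub_self, abs_zero]
    exact hμ.le
  · exact ⟨⟨hs.1, le_rfl⟩, ⟨ht.1, le_rfl⟩, hst⟩
  · intro a ha
    have ha' : a ∈ Icc (0 : ℝ) s := ha
    refine ⟨min a t, ha', ⟨le_min ha'.1 ht.1, min_le_right _ _⟩, ?_⟩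
    rcases le_total a t with h | h
    · rw [min_eq_left h, sub_self, abs_zero]
      exact hμ.le
    · rw [min_eq_right h, abs_of_nonneg (by linarith)]
      linarith [ha'.2]
  · intro b hb
    have hb' : b ∈ Icc (0 : ℝ) t := hb
    refine ⟨min b s, ⟨le_min hb'.1 hs.1, min_le_right _ _⟩, hb', ?_⟩
    rcases le_total b s with h | h
    · rw [min_eq_left h, sub_self, abs_zero]
      exact hμ.le
    · rw [min_eq_right h, abs_sub_comm, abs_of_nonneg (by linarith)]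
      linarith [hb'.2]
  · rintro a b a' b' ⟨ha, hb, hab⟩ ⟨ha', hb', hab'⟩
    have e : b - b' = (a - a') - (a - b) + (a' - b') := by ring
    have h1 : |b - b'| ≤ |a - a'| + |a - b| + |a' - b'| := by
      rw [e]
      calc |a - a' - (a - b) + (a' - b')| ≤ |a - a' - (a - b)| + |a' - b'| := abs_add_le _ _
        _ ≤ _ := by
          have := abs_sub (a - a') (a - b)
          linarith
    have := abs_nonneg (a - a')
    linarith
  · rintro a b a' b' ⟨ha, hb, hab⟩ ⟨ha', hb', hab'⟩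
    have e : a - a' = (b - b') + (a - b) - (a' - b') := by ring
    have h1 : |a - a'| ≤ |b - b'| + |a - b| + |a' - b'| := by
      rw [e]
      calc |b - b' + (a - b) - (a' - b')| ≤ |b - b' + (a - b)| + |a' - b'| := abs_sub _ _
        _ ≤ _ := by
          have := abs_add_le (b - b') (a - b)
          linarith
    have := abs_nonneg (b - b')
    linarith

/-- Paths of length zero are similar. -/
theorem sim_zero {δ κ μ K Λ L R B : ℝ} (hc : Cst δ κ μ K Λ L R B) (hD : PMet D)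
    {o : E} (P Q : Pth D o K L) (hP : P.T = 0) (hQ : Q.T = 0) : Sim B Λ P Q := by
  obtain ⟨hδ, hκ, hμ, hK, hΛ, hL, hR, hB⟩ := hc
  have hKnn : 0 ≤ K := by rw [hK]; nlinarith
  refine ⟨fun a b => a = 0 ∧ b = 0, ?_, ?_, ?_, ?_, ?_, ?_, ?_, ?_⟩
  · rintro a b ⟨rfl, rfl⟩
    exact ⟨⟨le_rfl, P.nonneg⟩, ⟨le_rfl, Q.nonneg⟩⟩
  · rintro a b ⟨rfl, rfl⟩
    rw [hD.eq_left P.start, hD.symm, Q.start, hB]
    linarith
  · exact ⟨rfl, rfl⟩
  · exact ⟨hP, hQ⟩
  · intro a ha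
    rw [hP] at ha
    exact ⟨0, le_antisymm ha.2 ha.1, rfl⟩
  · intro a ha
    rw [hQ] at ha
    exact ⟨0, rfl, le_antisymm ha.2 ha.1⟩
  · rintro a b a' b' ⟨rfl, rfl⟩ ⟨rfl, rfl⟩
    rw [sub_self, abs_zero]
    linarith
  · rintro a b a' b' ⟨rfl, rfl⟩ ⟨rfl, rfl⟩
    rw [sub_self, abs_zero]
    linarith

/-- The section follows `d`-Lipschitz paths. -/
theorem section_path {δ κ μ K Λ L R B : ℝ} (hc : Cst δ κ μ K Λ L R B) (hD : PMet D) (hd : PMet d)
    (hDd : ∀ x y, D x y ≤ d x y) (hLH : LH D R δ) (hgeo : ∀ x y, ∃ g, IsGeod D g (D x y) x y)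
    {o : E} (T : E → Pth D o K L) (hT1 : ∀ z, D (T z).fin z = 0)
    (hT2 : ∀ z w, d z w ≤ μ → Sim B Λ (T z) (T w)) (P0 : Pth D o K L) (hP0 : P0.T = 0)
    (hT3 : Sim B Λ P0 (T o)) (P : Pth D o K L) (hPs : d (P.p 0) o = 0)
    (hPl : ∀ s ∈ Icc (0 : ℝ) P.T, ∀ t ∈ Icc (0 : ℝ) P.T, d (P.p s) (P.p t) ≤ |s - t|) :
    Sim B Λ (T P.fin) P := by
  have hM := mono_pth hc hD hd hDd hLH hgeo o
  have hμ := hc.hμ
  obtain ⟨k, hk⟩ := exists_nat_ge (max (P.T / μ) 1)
  have hk1 : (1 : ℝ) ≤ (k : ℝ) := (le_max_right _ _).trans hk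
  have hk0 : (0 : ℝ) < (k : ℝ) := by linarith
  have hk2 : P.T ≤ k * μ := by
    have : P.T / μ ≤ (k : ℝ) := (le_max_left _ _).trans hk
    rwa [div_le_iff₀ hμ] at this
  have hPT := P.nonneg
  have hmem : ∀ i : ℕ, i ≤ k → ((i : ℝ) / k * P.T) ∈ Icc (0 : ℝ) P.T := by
    intro i hi
    refine ⟨by positivity, ?_⟩
    have : (i : ℝ) / k ≤ 1 := by
      rw [div_le_one hk0]
      exact_mod_cast hi
    calc (i : ℝ) / k * P.T ≤ 1 * P.T := mul_le_mul_of_nonneg_right this hPT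
      _ = P.T := one_mul _
  have hmem' : ∀ i : ℕ, ((min i k : ℕ) : ℝ) / k * P.T ∈ Icc (0 : ℝ) P.T :=
    fun i => hmem _ (min_le_right _ _)
  have hstep : ∀ i : ℕ, i < k → |((min i k : ℕ) : ℝ) / k * P.T -
      ((min (i + 1) k : ℕ) : ℝ) / k * P.T| ≤ μ := by
    intro i hi
    rw [min_eq_left hi.le, min_eq_left (by omega : i + 1 ≤ k)]
    have e : (i : ℝ) / k * P.T - ((i + 1 : ℕ) : ℝ) / k * P.T = -(P.T / k) := by
      push_cast
      field_simp
      ring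
    rw [e, abs_neg, abs_of_nonneg (by positivity), div_le_iff₀ hk0]
    linarith
  have hl := hM.ladder (fun i => T (P.p (((min i k : ℕ) : ℝ) / k * P.T)))
    (fun i => P.res _ (hmem' i)) k ?_ ?_ ?_ ?_ k le_rfl
  · simp only [min_self] at hl
    have e : (k : ℝ) / k * P.T = P.T := by
      rw [div_self hk0.ne', one_mul]
    -- transport along the equality of end times
    have h1 : Sim B Λ (T (P.p ((k : ℝ) / k * P.T))) (P.res ((k : ℝ) / k * P.T) (hmem k le_rfl)) := by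
      have := hl
      convert this using 2
    have h2 : ∀ (x : ℝ) (hx : x ∈ Icc (0 : ℝ) P.T), x = P.T → Sim B Λ (T (P.p x)) (P.res x hx) →
        Sim B Λ (T P.fin) P := by
      intro x hx hxe h
      subst hxe
      exact h
    exact h2 _ _ e h1
  · intro i hi
    apply hT2
    exact (hPl _ (hmem' i) _ (hmem' (i + 1))).trans (hstep i hi)
  · intro i hi
    exact sim_res hc P _ _ _ _ (hstep i hi)
  · have e0 : ((min 0 k : ℕ) : ℝ) / k * P.T = 0 := by simp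
    have h1 : Sim B Λ P0 (P.res _ (hmem' 0)) := sim_zero hc hD P0 _ hP0 e0
    have h2 : Sim B Λ (T (P.p (((min 0 k : ℕ) : ℝ) / k * P.T))) (T o) := by
      apply hT2
      rw [e0, hPs]
      exact hμ.le
    refine hM.trans4 _ _ _ _ h2 (hT3.symm hD) h1 ?_
    rw [hD.eq_left (hT1 _)]
    show D (P.p (((min 0 k : ℕ) : ℝ) / k * P.T)) (P.p (((min 0 k : ℕ) : ℝ) / k * P.T)) ≤ μ
    rw [hD.self]
    exact hμ.le
  · intro i hi
    rw [hD.eq_left (hT1 _)]
    show D (P.p (((min i k : ℕ) : ℝ) / k * P.T)) (P.p (((min i k : ℕ) : ℝ) / k * P.T)) ≤ μ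
    rw [hD.self]
    exact hμ.le

/-- Main coarse theorem: a group of deck transformations generated by elements with fixed points
cannot have bounded quotient if the quotient is locally hyperbolic at a large scale and has no dead
ends. -/
theorem coarse_main {δ κ μ K Λ L R B : ℝ} (hc : Cst δ κ μ K Λ L R B) (hD : PMet D) (hd : PMet d)
    (hDd : ∀ x y, D x y ≤ d x y) (hLH : LH D R δ) {o : E} {hh : ℝ → E → E} (hcone : Cone d o hh)
    {G : Type*} [Group G] (act : G → E → E) (hact1 : ∀ x, act 1 x = x)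
    (hactm : ∀ a b x, act (a * b) x = act a (act b x))
    (hGd : ∀ γ x y, d (act γ x) (act γ y) = d x y) (hGD : ∀ γ x, D (act γ x) x = 0)
    (hnear : ∀ x y, ∃ γ, ∃ g, Both D d g x (act γ y))
    (hgen : ∀ Pr : G → Prop, (∀ γ, (∃ c, act γ c = c) → Pr γ) → Pr 1 →
      (∀ a b, Pr a → Pr b → Pr (a * b)) → (∀ a, Pr a → Pr a⁻¹) → ∀ γ, Pr γ)
    (hNDE : ∀ y : E, ∃ z z', Λ / 2 ≤ D y z ∧ D y z ≤ 3 * Λ ∧ Λ / 2 ≤ D y z' ∧ D y z' ≤ 3 * Λ ∧
      gp D z z' y ≤ κ - δ) (Δ : ℝ) (hΔ : ∀ x, D o x ≤ Δ) : False := by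
  have hμ := hc.hμ
  have hKnn : 0 ≤ K := by
    have h1 := hc.hK
    have h2 := hc.hδ
    have h3 := hc.hκ
    rw [h1]
    nlinarith
  have hlift : ∀ x y : E, ∃ w, D w y = 0 ∧ ∃ g, Both D d g x w := by
    intro x y
    obtain ⟨γ, g, hg⟩ := hnear x y
    exact ⟨act γ y, hGD γ y, g, hg⟩
  have hgeo : ∀ x y, ∃ g, IsGeod D g (D x y) x y := by
    intro x y
    obtain ⟨w, hw, g, hg⟩ := hlift x y
    have e : D x w = D x y := hD.eq_right hw x
    refine ⟨g, hD.nonneg _ _, ?_, ?_, ?_⟩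
    · rw [hg.left, hD.self]
    · rw [← e, hg.right]
      exact hw
    · rw [← e]
      exact hg.distD
  have hM := mono_pth hc hD hd hDd hLH hgeo o
  set P0 : Pth D o K L := ⟨fun _ => o, 0, le_rfl, hD.self o, by
      intro s hs t ht
      rw [hD.self]
      exact abs_nonneg _, by
      intro s hs t ht _
      have e1 : s = 0 := le_antisymm hs.2 hs.1
      have e2 : t = 0 := le_antisymm ht.2 ht.1
      rw [hD.self, e1, e2, sub_self, abs_zero]
      linarith⟩ with hP0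
  obtain ⟨T, hT1, hT2, hT3⟩ := hM.exists_section hcone P0 (hD.self o)
  -- deck invariance
  have hdeck : ∀ γ : G, ∀ z, Sim B Λ (T (act γ z)) (T z) := by
    apply hgen (fun γ => ∀ z, Sim B Λ (T (act γ z)) (T z))
    · rintro γ ⟨c, hcc⟩ z
      refine propagate hμ hcone (fun z => Sim B Λ (T (act γ z)) (T z)) ?_ c ?_ z
      · intro z w hz hzw
        refine hM.trans4 _ _ _ _ (hT2 (act γ w) (act γ z) ?_) hz (hT2 z w hzw) ?_
        · rw [hGd, hd.symm]
          exact hzw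
        · rw [hD.eq_left (hT1 _), hD.eq_right (hT1 _), hGD]
          exact hμ.le
      · show Sim B Λ (T (act γ c)) (T c)
        rw [hcc]
        exact hM.refl _
    · intro z
      rw [hact1]
      exact hM.refl _
    · intro a b ha hb z
      refine hM.trans3 (P2 := T (act b z)) ?_ (hb z) ?_
      · rw [hactm]
        exact ha _
      · rw [hD.eq_left (hT1 _), hD.eq_right (hT1 _), hactm, hD.eq_left (hGD a _), hGD]
        exact hμ.le
    · intro a ha z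
      have := ha (act a⁻¹ z)
      rw [← hactm, mul_inv_cancel, hact1] at this
      exact this.symm hD
  obtain ⟨P, hPs, hPT, hPl⟩ := long_path hc hD hd hLH o hlift hNDE (2 * Δ + Λ + 1)
  obtain ⟨γ, g, hg⟩ := hnear o P.fin
  set l := D o (act γ P.fin) with hl
  have hl0 : 0 ≤ l := hD.nonneg _ _
  have hlΔ : l ≤ Δ := by
    rw [hl, hD.eq_right (hGD γ _)]
    exact hΔ _
  set Q : Pth D o K L := ⟨g, l, hl0, by rw [hg.left, hD.self],
    fun s hs t ht => (hg.distD s hs t ht).le, by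
      intro s hs t ht _
      rw [hg.distD s hs t ht]
      linarith⟩ with hQ
  have hQfin : Q.fin = act γ P.fin := hg.right
  have s1 := section_path hc hD hd hDd hLH hgeo T hT1 hT2 P0 rfl hT3 P hPs hPl
  have s2 := section_path hc hD hd hDd hLH hgeo T hT1 hT2 P0 rfl hT3 Q
    (by show d (g 0) o = 0; rw [hg.left, hd.self]) (fun s hs t ht => (hg.distd s hs t ht).le)
  rw [hQfin] at s2
  have s3 := hM.trans4 _ _ _ _ (s1.symm hD) ((hdeck γ P.fin).symm hD) s2 (by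
    rw [hQfin, hD.symm, hGD]
    exact hμ.le)
  have s4 := Sim.len s3
  have : Q.T = l := rfl
  rw [this] at s4
  linarith

end Pool.Agent.TGL
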