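import Mathlib

/-!
# Definitions (TGL = torsion generated lattices)

Part 1: abstract coarse geometry of a pseudo-metric `D : E → E → ℝ`.
Part 2: the hyperboloid model of hyperbolic space and groups acting on it.
Part 3: arithmetic side.
-/

set_option autoImplicit false
open Set

namespace Pool.Agent.TGL

/-! ### Part 1: coarse geometry -/

/-- `D` is a pseudo-metric (nonnegativity follows, see `PMet.nonneg`). -/
structure PMet {E : Type*} (D : E → E → ℝ) : Prop where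
  self : ∀ x, D x x = 0
  symm : ∀ x y, D x y = D y x
  tri : ∀ x y z, D x z ≤ D x y + D y z

/-- Gromov product of `x` and `y` at the base point `w`. -/
noncomputable def gp {E : Type*} (D : E → E → ℝ) (x y w : E) : ℝ := (D x w + D y w - D x y) / 2

/-- Four point condition for quadruples of diameter at most `R`. -/
def LH {E : Type*} (D : E → E → ℝ) (R δ : ℝ) : Prop :=
  ∀ a b c e : E, D a b ≤ R → D a c ≤ R → D a e ≤ R → D b c ≤ R → D b e ≤ R → D c e ≤ R →
    D a b + D c e ≤ max (D a c + D b e) (D a e + D b c) + 2 * δ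

/-- `g` restricted to `[0, ℓ]` is a geodesic for `D` from (a point at distance 0 of) `x` to
(a point at distance 0 of) `y`. -/
structure IsGeod {E : Type*} (D : E → E → ℝ) (g : ℝ → E) (ℓ : ℝ) (x y : E) : Prop where
  nonneg : 0 ≤ ℓ
  left : D (g 0) x = 0
  right : D (g ℓ) y = 0
  dist : ∀ s ∈ Icc (0 : ℝ) ℓ, ∀ t ∈ Icc (0 : ℝ) ℓ, D (g s) (g t) = |s - t|

/-- The constants. -/
structure Cst (δ κ μ K Λ L R B : ℝ) : Prop where
  hδ : 0 ≤ δ
  hκ : 2 * δ ≤ κ
  hμ : 0 < μ
  hK : K = 40002 * (κ + δ)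
  hΛ : 1000 * (K + κ + δ + μ + 1) ≤ Λ
  hL : L = 10000 * Λ
  hR : 10 * L ≤ R
  hB : B = 2 * K + 4 * δ + μ

/-- A local quasi-geodesic (constants `K`, scale `L`) starting at `o`, of length `T`. -/
structure Pth {E : Type*} (D : E → E → ℝ) (o : E) (K L : ℝ) where
  p : ℝ → E
  T : ℝ
  nonneg : 0 ≤ T
  start : D (p 0) o = 0
  up : ∀ s ∈ Icc (0 : ℝ) T, ∀ t ∈ Icc (0 : ℝ) T, D (p s) (p t) ≤ |s - t|
  low : ∀ s ∈ Icc (0 : ℝ) T, ∀ t ∈ Icc (0 : ℝ) T, |s - t| ≤ L → |s - t| - K ≤ D (p s) (p t)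

/-- The end point of a path. -/
def Pth.fin {E : Type*} {D : E → E → ℝ} {o : E} {K L : ℝ} (P : Pth D o K L) : E := P.p P.T

/-- `M` is a matching (coarse correspondence) of the paths `P` and `Q`: matched points are
`B`-close, `M` is total on both sides, matches the end points, and is coarsely Lipschitz
(constants `a`, `b`) in both directions. -/
structure Mat {E : Type*} {D : E → E → ℝ} {o : E} {K L : ℝ} (P Q : Pth D o K L) (B a b : ℝ)
    (M : ℝ → ℝ → Prop) : Prop where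
  mem : ∀ t s, M t s → t ∈ Icc (0 : ℝ) P.T ∧ s ∈ Icc (0 : ℝ) Q.T
  close : ∀ t s, M t s → D (P.p t) (Q.p s) ≤ B
  zero : M 0 0
  last : M P.T Q.T
  totl : ∀ t ∈ Icc (0 : ℝ) P.T, ∃ s, M t s
  totr : ∀ s ∈ Icc (0 : ℝ) Q.T, ∃ t, M t s
  lipr : ∀ t s t' s', M t s → M t' s' → |s - s'| ≤ a * |t - t'| + b
  lipl : ∀ t s t' s', M t s → M t' s' → |t - t'| ≤ a * |s - s'| + b

/-- Two paths are similar. -/
def Sim {E : Type*} {D : E → E → ℝ} {o : E} {K L : ℝ} (B Λ : ℝ) (P Q : Pth D o K L) : Prop :=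
  ∃ M : ℝ → ℝ → Prop, Mat P Q B 2 Λ M

/-! ### Part 2: hyperboloid -/

/-- The Lorentz form of signature `(1,n)`. -/
noncomputable def q {n : ℕ} (x y : Fin (n+1) → ℝ) : ℝ := x 0 * y 0 - ∑ i : Fin n, x i.succ * y i.succ

/-- The hyperboloid model of hyperbolic `n`-space (word for word as in the frozen statement). -/
def Hyp (n : ℕ) : Set (Fin (n+1) → ℝ) := {x | 0 < x 0 ∧ x 0 ^ 2 - ∑ i : Fin n, x i.succ ^ 2 = 1}

/-- The diagonal matrix `diag(1,-1,…,-1)` (word for word as in the frozen statement). -/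
noncomputable def J (n : ℕ) : Matrix (Fin (n+1)) (Fin (n+1)) ℝ :=
  Matrix.diagonal (fun i : Fin (n+1) => if i = 0 then (1:ℝ) else -1)

/-- `g` belongs to `O⁺(n,1)`. -/
def IsIso {n : ℕ} (g : Matrix (Fin (n+1)) (Fin (n+1)) ℝ) : Prop :=
  g.transpose * J n * g = J n ∧ 0 < g 0 0

/-- Hyperbolic distance. -/
noncomputable def hd {n : ℕ} (x y : Fin (n+1) → ℝ) : ℝ := Real.arcosh (q x y)

/-- The base point `(1,0,…,0)`. -/
def e0 (n : ℕ) : Fin (n+1) → ℝ := fun i => if i = 0 then 1 else 0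

/-- The point at distance `t` from `x` in the direction of the unit tangent vector `v`. -/
noncomputable def ray {n : ℕ} (x v : Fin (n+1) → ℝ) (t : ℝ) : Fin (n+1) → ℝ :=
  Real.cosh t • x + Real.sinh t • v

/-- `v` is a unit tangent vector at `x`. -/
def IsUT {n : ℕ} (x v : Fin (n+1) → ℝ) : Prop := q x v = 0 ∧ q v v = -1

/-- Unit group of matrices. -/
abbrev GLn (n : ℕ) : Type := (Matrix (Fin (n+1)) (Fin (n+1)) ℝ)ˣ

/-- Action of a matrix on a vector. -/
def ac {n : ℕ} (g : GLn n) (x : Fin (n+1) → ℝ) : Fin (n+1) → ℝ :=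
  Matrix.mulVec (g : Matrix (Fin (n+1)) (Fin (n+1)) ℝ) x

/-- All elements of `Γ` are in `O⁺(n,1)`. -/
def IsoGrp {n : ℕ} (Γ : Subgroup (GLn n)) : Prop := ∀ g ∈ Γ, IsIso (g : Matrix (Fin (n+1)) (Fin (n+1)) ℝ)

/-- `Γ` acts properly discontinuously (word for word as in the frozen statement). -/
def PrDisc {n : ℕ} (Γ : Subgroup (GLn n)) : Prop :=
  ∀ K : Set (Fin (n+1) → ℝ), IsCompact K → K ⊆ Hyp n →
    {g : GLn n | g ∈ Γ ∧ ∃ x ∈ K, ac g x ∈ K}.Finite

/-- `Γ` acts cocompactly (word for word as in the frozen statement). -/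
def Cocpt {n : ℕ} (Γ : Subgroup (GLn n)) : Prop :=
  ∃ K : Set (Fin (n+1) → ℝ), IsCompact K ∧ K ⊆ Hyp n ∧ ∀ y ∈ Hyp n, ∃ g ∈ Γ, ∃ x ∈ K, ac g x = y

/-- `Γ` is generated by its elements of finite order (word for word as in the frozen statement). -/
def TorGen {n : ℕ} (Γ : Subgroup (GLn n)) : Prop :=
  Subgroup.closure {g : GLn n | g ∈ Γ ∧ IsOfFinOrder g} = Γ

/-- Distance of the orbits of `x` and `y` (the infimum is attained, see file F1). -/
noncomputable def oD {n : ℕ} (Γ : Subgroup (GLn n)) (x y : Fin (n+1) → ℝ) : ℝ :=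
  sInf {r : ℝ | ∃ g ∈ Γ, r = hd x (ac g y)}

/-- The local group at `x` and scale `ρ`: generated by the elements of `Γ` moving `x` by at most
`ρ`. -/
def loc {n : ℕ} (Γ : Subgroup (GLn n)) (ρ : ℝ) (x : Fin (n+1) → ℝ) : Subgroup (GLn n) :=
  Subgroup.closure {g : GLn n | g ∈ Γ ∧ hd x (ac g x) ≤ ρ}

/-! ### Part 3: arithmetic -/

/-- The trace of an element of the unit group. -/
noncomputable def tr {n : ℕ} (g : GLn n) : ℝ := Matrix.trace (g : Matrix (Fin (n+1)) (Fin (n+1)) ℝ)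

/-- The field generated by the squares of the traces. -/
noncomputable def trField {n : ℕ} (Γ : Subgroup (GLn n)) : IntermediateField ℚ ℝ :=
  IntermediateField.adjoin ℚ {x : ℝ | ∃ g ∈ Γ, x = tr g ^ 2}

/-- `Γ` satisfies the arithmeticity criterion over its field `K` of (squared) traces: integral
traces and, for every embedding of `K` in the complex numbers other than the inclusion, the
conjugates of the squared traces are bounded by `(n+1)^2` (as they are for a compact orthogonal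
group). -/
structure ArithOver {n : ℕ} (Γ : Subgroup (GLn n)) (K : IntermediateField ℚ ℝ) : Prop where
  field : trField Γ = K
  integral : ∀ g ∈ Γ, IsIntegral ℤ (tr g)
  bounded : ∀ σ : K →+* ℂ, (∃ x : K, σ x ≠ ((x : ℝ) : ℂ)) → ∀ g ∈ Γ, ∀ x : K, (x : ℝ) = tr g ^ 2 →
    ‖σ x‖ ≤ ((n : ℝ) + 1) ^ 2

end Pool.Agent.TGL
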