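import Pool.Agent.TGL.H3

/-!
# H13: finite groups have fixed points; compact balls; proper discontinuity; cocompactness
-/

set_option autoImplicit false
open Set

namespace Pool.Agent.TGL

variable {n : ℕ}

/-- Proof. Let `s = ∑ g : F, ac g e0` (`Fintype.ofFinite F`). All `ac g e0 ∈ Hyp n` so
`q s s = ∑∑ q (ac g e0) (ac h e0) ≥ (card F)² ≥ 1` (`q_sum_left`, `q_sum_right`, `one_le_q`) and
`q e0 s ≥ card F > 0`. Let `c = (√(q s s))⁻¹ • s`: `q c c = 1` and `q e0 c > 0` so `c ∈ Hyp n`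
(`mem_Hyp_of_q_pos`). For `h ∈ F`, `ac h s = s` (reindex the sum by left multiplication with `h`,
`Fintype.sum_equiv (Equiv.mulLeft _)`), `ac h` linear. -/
theorem exists_fixed (F : Subgroup (GLn n)) (hF : IsoGrp F) (hfin : Finite F) :
    ∃ c ∈ Hyp n, ∀ g ∈ F, ac g c = c := by
  have : Fintype F := Fintype.ofFinite F
  obtain ⟨s, hs⟩ : ∃ s : Fin (n+1) → ℝ, s = ∑ g : F, ac (g : GLn n) (e0 n) := ⟨_, rfl⟩
  have hmem : ∀ g : F, ac (g : GLn n) (e0 n) ∈ Hyp n := fun g => ac_mem (hF g g.2) e0_mem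
  have hne : (Finset.univ : Finset F).Nonempty := ⟨1, Finset.mem_univ _⟩
  have hss : 0 < q s s := by
    rw [hs, q_sum_left]
    refine Finset.sum_pos (fun g _ => ?_) hne
    rw [q_sum_right]
    exact Finset.sum_pos (fun h _ => lt_of_lt_of_le one_pos (one_le_q (hmem g) (hmem h))) hne
  have hes : 0 < q (e0 n) s := by
    rw [hs, q_sum_right]
    exact Finset.sum_pos (fun h _ => lt_of_lt_of_le one_pos (one_le_q e0_mem (hmem h))) hne
  have hr : 0 < Real.sqrt (q s s) := Real.sqrt_pos.2 hss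
  have hfix : ∀ g ∈ F, ac g s = s := by
    intro g hg
    have h1 : ac g s = ∑ h : F, ac g (ac (h : GLn n) (e0 n)) := by
      rw [hs]
      exact map_sum (Matrix.mulVecLin (g : Matrix (Fin (n+1)) (Fin (n+1)) ℝ)) _ _
    rw [h1, hs]
    refine Fintype.sum_equiv (Equiv.mulLeft (⟨g, hg⟩ : F)) _ _ fun h => ?_
    rw [← ac_mul]
    rfl
  refine ⟨(Real.sqrt (q s s))⁻¹ • s, mem_Hyp_of_q_pos e0_mem ?_ ?_, fun g hg => ?_⟩
  · rw [q_smul_left, q_smul_right]
    have h1 : Real.sqrt (q s s) * Real.sqrt (q s s) = q s s := Real.mul_self_sqrt hss.le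
    have h2 : (Real.sqrt (q s s))⁻¹ * ((Real.sqrt (q s s))⁻¹ * q s s) =
        (Real.sqrt (q s s))⁻¹ * ((Real.sqrt (q s s))⁻¹ * (Real.sqrt (q s s) * Real.sqrt (q s s))) := by rw [h1]
    rw [h2]
    field_simp
  · rw [q_smul_right]
    positivity
  · rw [ac_smul, hfix g hg]

theorem h13b_coord {y : Fin (n+1) → ℝ} {C : ℝ} (hy : y ∈ Hyp n) (h : y 0 ≤ C) : ‖y‖ ≤ C := by
  obtain ⟨h0, h1⟩ := mem_Hyp.1 hy
  have hC : 0 ≤ C := h0.le.trans h
  rw [pi_norm_le_iff_of_nonneg hC]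
  intro i
  refine Fin.cases ?_ (fun j => ?_) i
  · rw [Real.norm_of_nonneg h0.le]
    exact h
  · rw [Real.norm_eq_abs]
    apply abs_le_of_sq_le_sq _ hC
    unfold q at h1
    have h2 : y j.succ * y j.succ ≤ ∑ i : Fin n, y i.succ * y i.succ :=
      Finset.single_le_sum (f := fun i : Fin n => y i.succ * y i.succ)
        (fun i _ => mul_self_nonneg _) (Finset.mem_univ j)
    nlinarith

theorem h13b_cont : Continuous fun p : (Fin (n+1) → ℝ) × (Fin (n+1) → ℝ) => q p.1 p.2 := by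
  unfold q
  fun_prop

/-- Closed balls are compact. Proof. By the triangle inequality the ball is contained in
`{y ∈ Hyp n | q e0 y ≤ C}` (`C = cosh (r + hd e0 x)`), where `q e0 y = y 0`, so `0 < y 0 ≤ C` and
`y i.succ ^ 2 ≤ C²`: bounded in `Fin (n+1) → ℝ`. It is closed: `{y | 0 < y 0 ∧ q y y = 1} =
{y | 0 ≤ y 0 ∧ q y y = 1}` (`y 0 = 0` would give `q y y ≤ 0`), and `hd x y ≤ r` is `q x y ≤ cosh r` on
`Hyp n` (`hd_le_iff`), a closed condition (for `r < 0` the ball is empty). `Metric.isCompact_of_isClosed_isBounded`. -/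
theorem isCompact_ball {x : Fin (n+1) → ℝ} (hx : x ∈ Hyp n) (r : ℝ) :
    IsCompact {y | y ∈ Hyp n ∧ hd x y ≤ r} := by
  rcases lt_or_ge r 0 with hr | hr
  · have h0 : {y | y ∈ Hyp n ∧ hd x y ≤ r} = (∅ : Set (Fin (n+1) → ℝ)) := by
      rw [Set.eq_empty_iff_forall_notMem]
      rintro y ⟨h1, h2⟩
      linarith [hd_nonneg hx h1]
    rw [h0]
    exact isCompact_empty
  · have h0 : {y | y ∈ Hyp n ∧ hd x y ≤ r} =
        {y : Fin (n+1) → ℝ | 0 ≤ y 0} ∩ ({y | q y y = 1} ∩ {y | q x y ≤ Real.cosh r}) := by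
      ext y
      constructor
      · rintro ⟨h1, h2⟩
        exact ⟨(mem_Hyp.1 h1).1.le, (mem_Hyp.1 h1).2, (hd_le_iff hx h1 hr).1 h2⟩
      · rintro ⟨h1, h2, h3⟩
        have h4 : 0 < y 0 := by
          rcases eq_or_lt_of_le (show 0 ≤ y 0 from h1) with h5 | h5
          · exfalso
            have h6 : q y y = 1 := h2
            unfold q at h6
            rw [← h5] at h6
            have h7 : 0 ≤ ∑ i : Fin n, y i.succ * y i.succ := Finset.sum_nonneg fun i _ => mul_self_nonneg _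
            linarith
          · exact h5
        have h5 : y ∈ Hyp n := mem_Hyp.2 ⟨h4, h2⟩
        exact ⟨h5, (hd_le_iff hx h5 hr).2 h3⟩
    apply Metric.isCompact_of_isClosed_isBounded
    · rw [h0]
      refine IsClosed.inter ?_ (IsClosed.inter ?_ ?_)
      · exact isClosed_le continuous_const (continuous_apply 0)
      · exact isClosed_eq (h13b_cont.comp (continuous_id.prodMk continuous_id)) continuous_const
      · exact isClosed_le (h13b_cont.comp (continuous_const.prodMk continuous_id)) continuous_const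
    · refine (Metric.isBounded_closedBall (x := (0 : Fin (n+1) → ℝ))
        (r := Real.cosh (hd (e0 n) x + r))).subset ?_
      rintro y ⟨h1, h2⟩
      rw [mem_closedBall_zero_iff]
      apply h13b_coord h1
      rw [← q_e0 y, ← hd_le_iff e0_mem h1 (add_nonneg (hd_nonneg e0_mem hx) hr)]
      exact (hd_triangle e0_mem hx h1).trans (by linarith)

/-- A compact subset of the hyperboloid is in a ball. Proof: `y 0` is bounded on `K` by some `C ≥ 1`;
`q e0 y = y 0 ≤ C = cosh (arcosh C)`, so `hd e0 y ≤ arcosh C`, then the triangle inequality. -/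
theorem exists_ball {K : Set (Fin (n+1) → ℝ)} (hK : IsCompact K) (hKH : K ⊆ Hyp n)
    {x : Fin (n+1) → ℝ} (hx : x ∈ Hyp n) : ∃ r : ℝ, 0 ≤ r ∧ ∀ y ∈ K, hd x y ≤ r := by
  obtain ⟨C, hC⟩ := hK.exists_bound_of_continuousOn (continuous_apply (0 : Fin (n+1))).continuousOn
  have h1 : (1 : ℝ) ≤ max C 1 := le_max_right _ _
  have h2 : 0 ≤ Real.arcosh (max C 1) := Real.arcosh_nonneg h1
  refine ⟨hd x (e0 n) + Real.arcosh (max C 1), add_nonneg (hd_nonneg hx e0_mem) h2, fun y hy => ?_⟩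
  have h3 : hd (e0 n) y ≤ Real.arcosh (max C 1) := by
    rw [hd_le_iff e0_mem (hKH hy) h2, Real.cosh_arcosh h1, q_e0]
    exact ((le_abs_self _).trans (hC y hy)).trans (le_max_left _ _)
  exact (hd_triangle hx e0_mem (hKH hy)).trans (by linarith)

/-- Proof. Apply `PrDisc` to the closed ball `K` with centre `x` and radius `max r (hd x y)`
(`isCompact_ball`): if `hd x (ac g y) ≤ r` then `y ∈ K` and `ac g y ∈ K`. (If `r < 0` the set is empty, or
just use the same `K`.) -/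
theorem finite_near {Γ : Subgroup (GLn n)} (hΓ : IsoGrp Γ) (hpd : PrDisc Γ) {x y : Fin (n+1) → ℝ}
    (hx : x ∈ Hyp n) (hy : y ∈ Hyp n) (r : ℝ) : {g : GLn n | g ∈ Γ ∧ hd x (ac g y) ≤ r}.Finite := by
  have hK := isCompact_ball hx (max r (hd x y))
  have h := hpd _ hK (fun z hz => hz.1)
  refine h.subset ?_
  rintro g ⟨hg, hr⟩
  exact ⟨hg, y, ⟨hy, le_max_right _ _⟩, ⟨ac_mem (hΓ g hg) hy, hr.trans (le_max_left _ _)⟩⟩

/-- Proof. Let `K` be the compact set of `Cocpt`, contained in the ball of radius `r` around `e0`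
(`exists_ball`). Given `x, y ∈ Hyp n` write `x = ac g a`, `y = ac h b` with `a, b ∈ K`; then
`hd x (ac (g h⁻¹) y) = hd (ac g a) (ac g b) = hd a b ≤ 2r`. -/
theorem exists_codiam {Γ : Subgroup (GLn n)} (hΓ : IsoGrp Γ) (hco : Cocpt Γ) :
    ∃ Δ : ℝ, 0 ≤ Δ ∧ ∀ x ∈ Hyp n, ∀ y ∈ Hyp n, ∃ g ∈ Γ, hd x (ac g y) ≤ Δ := by
  obtain ⟨K, hK, hKH, hcov⟩ := hco
  obtain ⟨r, hr0, hr⟩ := exists_ball hK hKH (e0_mem (n := n))
  refine ⟨2 * r, by linarith, ?_⟩
  intro x hx y hy
  obtain ⟨g, hg, a, ha, hga⟩ := hcov x hx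
  obtain ⟨h, hh, b, hb, hhb⟩ := hcov y hy
  refine ⟨g * h⁻¹, Γ.mul_mem hg (Γ.inv_mem hh), ?_⟩
  have e1 : ac (g * h⁻¹) y = ac g b := by
    rw [← hhb, ac_mul, ac_inv_ac]
  rw [e1, ← hga, hd_ac (hΓ g hg)]
  have h1 := hd_triangle (hKH ha) (e0_mem (n := n)) (hKH hb)
  have h2 := hr a ha
  have h3 := hr b hb
  rw [hd_symm] at h2
  linarith

end Pool.Agent.TGL
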