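import Pool.Agent.TGL.A1
import Pool.Agent.TGL.H13

set_option autoImplicit false
open Set

namespace Pool.Agent.TGL

variable {n : ℕ} {Γ : Subgroup (GLn n)}

theorem PrDisc.mono {F : Subgroup (GLn n)} (hpd : PrDisc Γ) (h : F ≤ Γ) : PrDisc F := by
  intro K hK hKH
  refine (hpd K hK hKH).subset ?_
  rintro g ⟨hg, hx⟩
  exact ⟨h hg, hx⟩

theorem IsoGrp.mono {F : Subgroup (GLn n)} (hΓ : IsoGrp Γ) (h : F ≤ Γ) : IsoGrp F :=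
  fun g hg => hΓ g (h hg)

theorem IsoGrp.ac_mem (hΓ : IsoGrp Γ) {g : GLn n} (hg : g ∈ Γ) {x : Fin (n+1) → ℝ}
    (hx : x ∈ Hyp n) : ac g x ∈ Hyp n := Pool.Agent.TGL.ac_mem (hΓ g hg) hx

theorem oD_spec (hΓ : IsoGrp Γ) (hpd : PrDisc Γ) {x y : Fin (n+1) → ℝ} (hx : x ∈ Hyp n)
    (hy : y ∈ Hyp n) :
    ∃ g ∈ Γ, oD Γ x y = hd x (ac g y) ∧ ∀ h ∈ Γ, oD Γ x y ≤ hd x (ac h y) := by
  have hfin := finite_near hΓ hpd hx hy (hd x y)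
  have hne : {g : GLn n | g ∈ Γ ∧ hd x (ac g y) ≤ hd x y}.Nonempty :=
    ⟨1, Γ.one_mem, by rw [ac_one]⟩
  obtain ⟨g, hg, hmin⟩ := hfin.exists_minimalFor (fun g => hd x (ac g y)) _ hne
  have hmin' : ∀ h ∈ Γ, hd x (ac g y) ≤ hd x (ac h y) := by
    intro h hh
    rcases le_total (hd x (ac h y)) (hd x y) with h1 | h1
    · rcases le_total (hd x (ac g y)) (hd x (ac h y)) with h2 | h2
      · exact h2
      · exact hmin ⟨hh, h1⟩ h2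
    · exact hg.2.trans h1
  have hval : oD Γ x y = hd x (ac g y) := by
    unfold oD
    apply le_antisymm
    · apply csInf_le
      · refine ⟨0, ?_⟩
        rintro r ⟨h, hh, rfl⟩
        exact hd_nonneg hx (hΓ.ac_mem hh hy)
      · exact ⟨g, hg.1, rfl⟩
    · apply le_csInf
      · exact ⟨_, 1, Γ.one_mem, rfl⟩
      · rintro r ⟨h, hh, rfl⟩
        exact hmin' h hh
  refine ⟨g, hg.1, hval, fun h hh => ?_⟩
  rw [hval]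
  exact hmin' h hh

theorem oD_le (hΓ : IsoGrp Γ) (hpd : PrDisc Γ) {x y : Fin (n+1) → ℝ} (hx : x ∈ Hyp n)
    (hy : y ∈ Hyp n) {h : GLn n} (hh : h ∈ Γ) : oD Γ x y ≤ hd x (ac h y) := by
  obtain ⟨g, hg, h1, h2⟩ := oD_spec hΓ hpd hx hy
  exact h2 h hh

theorem oD_le_hd (hΓ : IsoGrp Γ) (hpd : PrDisc Γ) {x y : Fin (n+1) → ℝ} (hx : x ∈ Hyp n)
    (hy : y ∈ Hyp n) : oD Γ x y ≤ hd x y := by
  have := oD_le hΓ hpd hx hy Γ.one_mem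
  rwa [ac_one] at this

theorem oD_nonneg (hΓ : IsoGrp Γ) (hpd : PrDisc Γ) {x y : Fin (n+1) → ℝ} (hx : x ∈ Hyp n)
    (hy : y ∈ Hyp n) : 0 ≤ oD Γ x y := by
  obtain ⟨g, hg, h1, h2⟩ := oD_spec hΓ hpd hx hy
  rw [h1]
  exact hd_nonneg hx (hΓ.ac_mem hg hy)

theorem oD_self (hΓ : IsoGrp Γ) (hpd : PrDisc Γ) {x : Fin (n+1) → ℝ} (hx : x ∈ Hyp n) :
    oD Γ x x = 0 := by
  apply le_antisymm
  · have := oD_le_hd hΓ hpd hx hx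
    rwa [hd_self hx] at this
  · exact oD_nonneg hΓ hpd hx hx

theorem hd_inv (hΓ : IsoGrp Γ) {g : GLn n} (hg : g ∈ Γ) (x y : Fin (n+1) → ℝ) :
    hd x (ac g y) = hd (ac g⁻¹ x) y := by
  have h1 := hd_ac (hΓ g⁻¹ (Γ.inv_mem hg)) x (ac g y)
  rw [ac_inv_ac] at h1
  exact h1.symm

theorem oD_symm_le (hΓ : IsoGrp Γ) (hpd : PrDisc Γ) {x y : Fin (n+1) → ℝ} (hx : x ∈ Hyp n)
    (hy : y ∈ Hyp n) : oD Γ x y ≤ oD Γ y x := by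
  obtain ⟨g, hg, h1, h2⟩ := oD_spec hΓ hpd hy hx
  rw [h1, hd_inv hΓ hg, hd_symm]
  exact oD_le hΓ hpd hx hy (Γ.inv_mem hg)

theorem oD_symm (hΓ : IsoGrp Γ) (hpd : PrDisc Γ) {x y : Fin (n+1) → ℝ} (hx : x ∈ Hyp n)
    (hy : y ∈ Hyp n) : oD Γ x y = oD Γ y x :=
  le_antisymm (oD_symm_le hΓ hpd hx hy) (oD_symm_le hΓ hpd hy hx)

theorem oD_tri (hΓ : IsoGrp Γ) (hpd : PrDisc Γ) {x y z : Fin (n+1) → ℝ} (hx : x ∈ Hyp n)
    (hy : y ∈ Hyp n) (hz : z ∈ Hyp n) : oD Γ x z ≤ oD Γ x y + oD Γ y z := by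
  obtain ⟨g, hg, h1, -⟩ := oD_spec hΓ hpd hx hy
  obtain ⟨h, hh, h2, -⟩ := oD_spec hΓ hpd hy hz
  have h3 := oD_le hΓ hpd hx hz (Γ.mul_mem hg hh)
  rw [ac_mul] at h3
  have h4 := hd_triangle hx (hΓ.ac_mem hg hy) (hΓ.ac_mem hg (hΓ.ac_mem hh hz))
  rw [hd_ac (hΓ g hg)] at h4
  rw [h1, h2]
  linarith

theorem oD_ac_self (hΓ : IsoGrp Γ) (hpd : PrDisc Γ) {x : Fin (n+1) → ℝ} (hx : x ∈ Hyp n)
    {g : GLn n} (hg : g ∈ Γ) : oD Γ (ac g x) x = 0 := by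
  apply le_antisymm
  · have := oD_le hΓ hpd (hΓ.ac_mem hg hx) hx hg
    rwa [hd_self (hΓ.ac_mem hg hx)] at this
  · exact oD_nonneg hΓ hpd (hΓ.ac_mem hg hx) hx

/-- The orbit distance as a pseudo-metric. -/
theorem pmet_oD (hΓ : IsoGrp Γ) (hpd : PrDisc Γ) : PMet (fun x y : Hyp n => oD Γ x.1 y.1) where
  self := fun x => oD_self hΓ hpd x.2
  symm := fun x y => oD_symm hΓ hpd x.2 y.2
  tri := fun x y z => oD_tri hΓ hpd x.2 y.2 z.2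

theorem oD_congr (hΓ : IsoGrp Γ) (hpd : PrDisc Γ) {x y : Fin (n+1) → ℝ} (hx : x ∈ Hyp n)
    (hy : y ∈ Hyp n) {g h : GLn n} (hg : g ∈ Γ) (hh : h ∈ Γ) :
    oD Γ (ac g x) (ac h y) = oD Γ x y := by
  have hD := pmet_oD hΓ hpd
  have h1 := hD.eq_left (x := ⟨ac g x, hΓ.ac_mem hg hx⟩) (y := ⟨x, hx⟩)
    (oD_ac_self hΓ hpd hx hg) ⟨ac h y, hΓ.ac_mem hh hy⟩
  have h2 := hD.eq_right (x := ⟨ac h y, hΓ.ac_mem hh hy⟩) (y := ⟨y, hy⟩)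
    (oD_ac_self hΓ hpd hy hh) ⟨x, hx⟩
  exact h1.trans h2

/-- Localisation: nearby points are compared by elements of the local group. -/
theorem oD_loc (hΓ : IsoGrp Γ) (hpd : PrDisc Γ) (ρ : ℝ) {a x y : Fin (n+1) → ℝ} (ha : a ∈ Hyp n)
    (hx : x ∈ Hyp n) (hy : y ∈ Hyp n) (h : hd a x + oD Γ x y + hd a y ≤ ρ) :
    oD Γ x y = oD (loc Γ ρ a) x y := by
  have hle : loc Γ ρ a ≤ Γ := by
    unfold loc
    rw [Subgroup.closure_le]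
    intro g hg
    exact hg.1
  have hF := hΓ.mono hle
  have hpdF := hpd.mono hle
  apply le_antisymm
  · obtain ⟨g, hg, h1, -⟩ := oD_spec hF hpdF hx hy
    rw [h1]
    exact oD_le hΓ hpd hx hy (hle hg)
  · obtain ⟨g, hg, h1, -⟩ := oD_spec hΓ hpd hx hy
    have hgF : g ∈ loc Γ ρ a := by
      apply Subgroup.subset_closure
      refine ⟨hg, ?_⟩
      have h2 := hd_triangle ha hx (hΓ.ac_mem hg ha)
      have h3 := hd_triangle hx (hΓ.ac_mem hg hy) (hΓ.ac_mem hg ha)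
      rw [hd_ac (hΓ g hg), hd_symm y a] at h3
      linarith
    rw [h1]
    exact oD_le hF hpdF hx hy hgF

end Pool.Agent.TGL
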