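import Pool.Agent.TGL.H3

/-!
# H7: hyperbolic space is Gromov hyperbolic (four point condition, via Ptolemy's inequality)
-/

set_option autoImplicit false
open Set

namespace Pool.Agent.TGL

variable {n : ℕ}

/-- Stereographic projection to the Poincare ball, with values in Euclidean space. -/
noncomputable def ster (x : Fin (n+1) → ℝ) : EuclideanSpace ℝ (Fin n) :=
  WithLp.toLp 2 (fun i => x i.succ / (1 + x 0))

/-- Proof: `dist² = ∑ (x_i/(1+x0) - y_i/(1+y0))² = |x'|²/(1+x0)² + |y'|²/(1+y0)² - 2x'·y'/((1+x0)(1+y0))`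
(`EuclideanSpace.dist_eq` or `EuclideanSpace.norm_eq`, `Real.sq_sqrt`), `|x'|² = x0² - 1 = (x0-1)(x0+1)`,
so it equals `[(x0-1)(y0+1) + (y0-1)(x0+1) - 2x'·y']/((1+x0)(1+y0)) = 2(q x y - 1)/((1+x0)(1+y0))`. -/
theorem dist_ster {x y : Fin (n+1) → ℝ} (hx : x ∈ Hyp n) (hy : y ∈ Hyp n) :
    dist (ster x) (ster y) ^ 2 = 2 * (q x y - 1) / ((1 + x 0) * (1 + y 0)) := by
  obtain ⟨hx0, hx1⟩ := hx
  obtain ⟨hy0, hy1⟩ := hy
  have ha : 1 + x 0 ≠ 0 := by linarith
  have hb : 1 + y 0 ≠ 0 := by linarith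
  rw [EuclideanSpace.dist_eq, Real.sq_sqrt (Finset.sum_nonneg fun i _ => sq_nonneg _)]
  have h1 : ∑ i : Fin n, dist (ster x i) (ster y i) ^ 2 =
      (∑ i : Fin n, x i.succ ^ 2) / (1 + x 0) ^ 2 + (∑ i : Fin n, y i.succ ^ 2) / (1 + y 0) ^ 2 -
        2 * (∑ i : Fin n, x i.succ * y i.succ) / ((1 + x 0) * (1 + y 0)) := by
    rw [Finset.sum_div, Finset.sum_div, Finset.mul_sum, Finset.sum_div, ← Finset.sum_add_distrib,
      ← Finset.sum_sub_distrib]
    refine Finset.sum_congr rfl fun i _ => ?_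
    rw [Real.dist_eq, sq_abs]
    change (x i.succ / (1 + x 0) - y i.succ / (1 + y 0)) ^ 2 = _
    field_simp
    ring
  rw [h1, q]
  have e1 : ∑ i : Fin n, x i.succ ^ 2 = x 0 ^ 2 - 1 := by linarith
  have e2 : ∑ i : Fin n, y i.succ ^ 2 = y 0 ^ 2 - 1 := by linarith
  rw [e1, e2]
  field_simp
  ring

theorem h7_ster {x y : Fin (n+1) → ℝ} (hx : x ∈ Hyp n) (hy : y ∈ Hyp n) :
    dist (ster x) (ster y) * (Real.sqrt (1 + x 0) * Real.sqrt (1 + y 0)) =
      2 * Real.sinh (hd x y / 2) := by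
  have ha : 0 < 1 + x 0 := by linarith [hx.1]
  have hb : 0 < 1 + y 0 := by linarith [hy.1]
  have h0 : 0 ≤ Real.sinh (hd x y / 2) :=
    Real.sinh_nonneg_iff.mpr (by linarith [hd_nonneg hx hy])
  have h1 := dist_ster hx hy
  have h2 := cosh_hd hx hy
  have h3 : Real.cosh (hd x y) = 2 * Real.sinh (hd x y / 2) ^ 2 + 1 := by
    have h4 : hd x y = 2 * (hd x y / 2) := by ring
    rw [h4, Real.cosh_two_mul, Real.cosh_sq, ← h4]
    ring
  have h5 : (dist (ster x) (ster y) * (Real.sqrt (1 + x 0) * Real.sqrt (1 + y 0))) ^ 2 =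
      (2 * Real.sinh (hd x y / 2)) ^ 2 := by
    rw [mul_pow, mul_pow, Real.sq_sqrt ha.le, Real.sq_sqrt hb.le, h1, ← h2, h3]
    field_simp
    ring
  exact (pow_left_inj₀ (by positivity) (by positivity) (by norm_num)).mp h5

/-- Hyperbolic Ptolemy inequality. Proof: `EuclideanGeometry.mul_dist_le_mul_dist_add_mul_dist` for the
four points `ster`; by `dist_ster` `dist (ster x) (ster y) = √(2(q x y - 1)) /√((1+x0)(1+y0))`, and
`cosh d - 1 = 2 sinh²(d/2)`, so `dist (ster x) (ster y) = 2 sinh (hd x y / 2)/√((1+x0)(1+y0))`; the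
factor `√((1+x0)(1+y0)(1+z0)(1+w0))` is common to the three products. -/
theorem ptolemy {x y z w : Fin (n+1) → ℝ} (hx : x ∈ Hyp n) (hy : y ∈ Hyp n) (hz : z ∈ Hyp n)
    (hw : w ∈ Hyp n) :
    Real.sinh (hd x y / 2) * Real.sinh (hd z w / 2) ≤
      Real.sinh (hd x z / 2) * Real.sinh (hd y w / 2) +
      Real.sinh (hd x w / 2) * Real.sinh (hd y z / 2) := by
  have h1 := EuclideanGeometry.mul_dist_le_mul_dist_add_mul_dist (ster x) (ster z) (ster y) (ster w)
  have e1 := h7_ster hx hy
  have e2 := h7_ster hz hw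
  have e3 := h7_ster hx hz
  have e4 := h7_ster hy hw
  have e5 := h7_ster hx hw
  have e6 := h7_ster hy hz
  rw [dist_comm (ster z) (ster y)] at h1
  set a := Real.sqrt (1 + x 0)
  set b := Real.sqrt (1 + y 0)
  set c := Real.sqrt (1 + z 0)
  set d := Real.sqrt (1 + w 0)
  have h2 : 0 ≤ a * b * c * d := by positivity
  have h3 := mul_le_mul_of_nonneg_left h1 h2
  have f1 : a * b * c * d * (dist (ster x) (ster y) * dist (ster z) (ster w)) =
      4 * (Real.sinh (hd x y / 2) * Real.sinh (hd z w / 2)) := by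
    calc _ = (dist (ster x) (ster y) * (a * b)) * (dist (ster z) (ster w) * (c * d)) := by ring
      _ = _ := by rw [e1, e2]; ring
  have f2 : a * b * c * d * (dist (ster x) (ster z) * dist (ster y) (ster w) +
      dist (ster y) (ster z) * dist (ster x) (ster w)) =
      4 * (Real.sinh (hd x z / 2) * Real.sinh (hd y w / 2) +
        Real.sinh (hd x w / 2) * Real.sinh (hd y z / 2)) := by
    calc _ = (dist (ster x) (ster z) * (a * c)) * (dist (ster y) (ster w) * (b * d)) +
        (dist (ster x) (ster w) * (a * d)) * (dist (ster y) (ster z) * (b * c)) := by ring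
      _ = _ := by rw [e3, e4, e5, e6]; ring
  rw [f1, f2] at h3
  linarith

theorem h7_sinh_le {u : ℝ} : Real.sinh u ≤ Real.exp u / 2 := by
  rw [Real.sinh_eq]
  have := Real.exp_pos (-u)
  linarith

theorem h7_le_sinh {u : ℝ} (hu : 1 ≤ u) : Real.exp u / 3 ≤ Real.sinh u := by
  rw [Real.sinh_eq]
  have h1 : 3 ≤ Real.exp (2 * u) := by
    have := Real.add_one_le_exp (2 * u)
    linarith
  have h2 : Real.exp (-u) * Real.exp (2 * u) = Real.exp u := by
    rw [← Real.exp_add]
    congr 1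
    ring
  have h3 := Real.exp_pos (-u)
  nlinarith

/-- Four point condition. Proof: let `m` be the maximum of the right hand side. If `hd x y ≤ 2`: by the
triangle inequality `hd z w ≤ hd z x + hd x w` and `hd z w ≤ hd z y + hd y w`, so
`2 hd z w ≤ (hd x z + hd y w) + (hd x w + hd y z) ≤ 2m` and `hd x y + hd z w ≤ 2 + m`. The same if
`hd z w ≤ 2`. Otherwise, `sinh (d/2) ≤ exp (d/2)/2` for all `d`, and for `d ≥ 2`
`sinh (d/2) ≥ exp (d/2)/3`. Ptolemy gives `exp ((hd x y + hd z w)/2) / 9 ≤ exp (m/2) / 2`, hence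
`exp ((hd x y + hd z w)/2) ≤ 5 exp (m/2) ≤ exp (2 + m/2)`. -/
theorem four_point {x y z w : Fin (n+1) → ℝ} (hx : x ∈ Hyp n) (hy : y ∈ Hyp n) (hz : z ∈ Hyp n)
    (hw : w ∈ Hyp n) :
    hd x y + hd z w ≤ max (hd x z + hd y w) (hd x w + hd y z) + 4 := by
  have t1 := hd_triangle hz hx hw
  have t2 := hd_triangle hz hy hw
  have t3 := hd_triangle hx hz hy
  have t4 := hd_triangle hx hw hy
  have s1 := hd_symm z x
  have s2 := hd_symm z y
  have s3 := hd_symm w y
  have hP := ptolemy hx hy hz hw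
  have m1 := le_max_left (hd x z + hd y w) (hd x w + hd y z)
  have m2 := le_max_right (hd x z + hd y w) (hd x w + hd y z)
  set m := max (hd x z + hd y w) (hd x w + hd y z) with hm
  by_cases ha : hd x y ≤ 2
  · linarith
  · by_cases hb : hd z w ≤ 2
    · linarith
    · push Not at ha hb
      have l1 := h7_le_sinh (u := hd x y / 2) (by linarith)
      have l2 := h7_le_sinh (u := hd z w / 2) (by linarith)
      have u1 := h7_sinh_le (u := hd x z / 2)
      have u2 := h7_sinh_le (u := hd y w / 2)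
      have u3 := h7_sinh_le (u := hd x w / 2)
      have u4 := h7_sinh_le (u := hd y z / 2)
      have p1 : 0 ≤ Real.sinh (hd y w / 2) :=
        Real.sinh_nonneg_iff.2 (div_nonneg (hd_nonneg hy hw) (by norm_num))
      have p2 : 0 ≤ Real.sinh (hd y z / 2) :=
        Real.sinh_nonneg_iff.2 (div_nonneg (hd_nonneg hy hz) (by norm_num))
      have e1 : Real.exp (hd x y / 2) / 3 * (Real.exp (hd z w / 2) / 3) ≤
          Real.sinh (hd x y / 2) * Real.sinh (hd z w / 2) :=
        mul_le_mul l1 l2 (by positivity) ((by positivity : (0 : ℝ) ≤ Real.exp (hd x y / 2) / 3).trans l1)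
      have e2 : Real.sinh (hd x z / 2) * Real.sinh (hd y w / 2) ≤
          Real.exp (hd x z / 2) / 2 * (Real.exp (hd y w / 2) / 2) :=
        mul_le_mul u1 u2 p1 (by positivity)
      have e3 : Real.sinh (hd x w / 2) * Real.sinh (hd y z / 2) ≤
          Real.exp (hd x w / 2) / 2 * (Real.exp (hd y z / 2) / 2) :=
        mul_le_mul u3 u4 p2 (by positivity)
      have f1 : Real.exp (hd x y / 2) * Real.exp (hd z w / 2) = Real.exp ((hd x y + hd z w) / 2) := by
        rw [← Real.exp_add]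
        congr 1
        ring
      have f2 : Real.exp (hd x z / 2) * Real.exp (hd y w / 2) = Real.exp ((hd x z + hd y w) / 2) := by
        rw [← Real.exp_add]
        congr 1
        ring
      have f3 : Real.exp (hd x w / 2) * Real.exp (hd y z / 2) = Real.exp ((hd x w + hd y z) / 2) := by
        rw [← Real.exp_add]
        congr 1
        ring
      have g2 : Real.exp ((hd x z + hd y w) / 2) ≤ Real.exp (m / 2) := Real.exp_le_exp.2 (by linarith)
      have g3 : Real.exp ((hd x w + hd y z) / 2) ≤ Real.exp (m / 2) := Real.exp_le_exp.2 (by linarith)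
      have k1 : Real.exp ((hd x y + hd z w) / 2) ≤ 5 * Real.exp (m / 2) := by
        have hpos := Real.exp_pos (m / 2)
        nlinarith
      have k2 : (5 : ℝ) ≤ Real.exp 2 := by
        have := Real.quadratic_le_exp_of_nonneg (x := 2) (by norm_num)
        linarith
      have k3 : Real.exp ((hd x y + hd z w) / 2) ≤ Real.exp (2 + m / 2) := by
        rw [Real.exp_add]
        exact k1.trans (mul_le_mul_of_nonneg_right k2 (Real.exp_pos _).le)
      have k4 := Real.exp_le_exp.1 k3
      linarith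

end Pool.Agent.TGL
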