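import Pool.Agent.TGL.F1
import Pool.Agent.TGL.H7

set_option autoImplicit false
open Set

namespace Pool.Agent.TGL

theorem min_cases_le {x y c : ℝ} (h : min x y ≤ c) : x ≤ c ∨ y ≤ c := min_le_iff.mp h

/-- From hyperbolicity at one base point to the four point condition. -/
theorem four_of_base {X : Type*} (G : X → X → ℝ) (δ : ℝ) (hsymm : ∀ x y, G x y = G y x)
    (h : ∀ x y z, min (G x y) (G y z) - δ ≤ G x z) (a b c e : X) :
    min (G a c + G b e) (G a e + G b c) - 2 * δ ≤ G a b + G c e := by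
  have s1 := hsymm b e
  have s2 := hsymm b c
  have s3 := hsymm a c
  have k1 := min_cases_le (show min (G a c) (G c b) ≤ G a b + δ by linarith [h a c b])
  have k2 := min_cases_le (show min (G c a) (G a e) ≤ G c e + δ by linarith [h c a e])
  have k3 := min_cases_le (show min (G a e) (G e b) ≤ G a b + δ by linarith [h a e b])
  have k4 := min_cases_le (show min (G c b) (G b e) ≤ G c e + δ by linarith [h c b e])
  have m1 := min_le_left (G a c + G b e) (G a e + G b c)
  have m2 := min_le_right (G a c + G b e) (G a e + G b c)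
  rcases k1 with k1 | k1 <;> rcases k2 with k2 | k2 <;> rcases k3 with k3 | k3 <;>
    rcases k4 with k4 | k4 <;> linarith

variable {n : ℕ}

/-- Hyperbolicity at a base point for `hd`. -/
theorem hd_base {c x y z : Fin (n+1) → ℝ} (hc : c ∈ Hyp n) (hx : x ∈ Hyp n) (hy : y ∈ Hyp n)
    (hz : z ∈ Hyp n) :
    min ((hd x c + hd y c - hd x y) / 2) ((hd y c + hd z c - hd y z) / 2) - 2 ≤
      (hd x c + hd z c - hd x z) / 2 := by
  have h1 := four_point hx hz hy hc
  have s1 := hd_symm z y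
  have m1 := min_le_left ((hd x c + hd y c - hd x y) / 2) ((hd y c + hd z c - hd y z) / 2)
  have m2 := min_le_right ((hd x c + hd y c - hd x y) / 2) ((hd y c + hd z c - hd y z) / 2)
  rcases le_max_iff.mp (show hd x z + hd y c - 4 ≤ max (hd x y + hd z c) (hd x c + hd z y) by
    linarith) with h2 | h2 <;> linarith

/-- Four point condition for the orbit distance of a group with a fixed point. -/
theorem four_fixed {F : Subgroup (GLn n)} (hF : IsoGrp F) (hpd : PrDisc F) {c : Fin (n+1) → ℝ}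
    (hc : c ∈ Hyp n) (hfix : ∀ g ∈ F, ac g c = c) {x y z w : Fin (n+1) → ℝ} (hx : x ∈ Hyp n)
    (hy : y ∈ Hyp n) (hz : z ∈ Hyp n) (hw : w ∈ Hyp n) :
    oD F x y + oD F z w ≤ max (oD F x z + oD F y w) (oD F x w + oD F y z) + 8 := by
  have hgc : ∀ g ∈ F, ∀ p : Fin (n+1) → ℝ, hd (ac g p) c = hd p c := by
    intro g hg p
    have := hd_ac (hF g hg) p c
    rwa [hfix g hg] at this
  have base : ∀ p q r : Hyp n, min ((hd p.1 c + hd q.1 c - oD F p.1 q.1) / 2)
      ((hd q.1 c + hd r.1 c - oD F q.1 r.1) / 2) - 2 ≤ (hd p.1 c + hd r.1 c - oD F p.1 r.1) / 2 := by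
    rintro ⟨p, hp⟩ ⟨q, hq⟩ ⟨r, hr⟩
    simp only
    obtain ⟨g, hg, h1, -⟩ := oD_spec hF hpd hp hq
    obtain ⟨h, hh, h2, -⟩ := oD_spec hF hpd hq hr
    have h3 := oD_le hF hpd hp hr (F.mul_mem hg hh)
    rw [ac_mul] at h3
    have h4 := hd_base hc hp (hF.ac_mem hg hq) (hF.ac_mem hg (hF.ac_mem hh hr))
    rw [hd_ac (hF g hg), hgc g hg, hgc g hg, hgc h hh, ← h1, ← h2] at h4
    linarith
  have h5 := four_of_base (fun p q : Hyp n => (hd p.1 c + hd q.1 c - oD F p.1 q.1) / 2) 2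
    (by
      rintro ⟨p, hp⟩ ⟨q, hq⟩
      simp only
      rw [oD_symm hF hpd hp hq]
      ring) base ⟨x, hx⟩ ⟨y, hy⟩ ⟨z, hz⟩ ⟨w, hw⟩
  simp only at h5
  have h6 := min_cases_le (show min
    ((hd x c + hd z c - oD F x z) / 2 + (hd y c + hd w c - oD F y w) / 2)
    ((hd x c + hd w c - oD F x w) / 2 + (hd y c + hd z c - oD F y z) / 2) ≤
    (hd x c + hd y c - oD F x y) / 2 + (hd z c + hd w c - oD F z w) / 2 + 4 by linarith)
  rcases h6 with h6 | h6
  · have := le_max_left (oD F x z + oD F y w) (oD F x w + oD F y z)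
    linarith
  · have := le_max_right (oD F x z + oD F y w) (oD F x w + oD F y z)
    linarith

/-- Local hyperbolicity of the orbit distance. -/
theorem local_hyp {Γ : Subgroup (GLn n)} (hΓ : IsoGrp Γ) (hpd : PrDisc Γ) (ρ : ℝ)
    (hfin : ∀ a ∈ Hyp n, Finite (loc Γ ρ a)) :
    LH (fun x y : Hyp n => oD Γ x.1 y.1) (ρ / 3) 4 := by
  rintro ⟨a, ha⟩ ⟨b, hb⟩ ⟨c, hc⟩ ⟨e, he⟩ hab hac hae hbc hbe hce
  simp only at hab hac hae hbc hbe hce ⊢
  have hle : loc Γ ρ a ≤ Γ := by
    unfold loc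
    rw [Subgroup.closure_le]
    intro g hg
    exact hg.1
  have hF := hΓ.mono hle
  have hpdF := hpd.mono hle
  obtain ⟨z, hz, hfix⟩ := exists_fixed (loc Γ ρ a) hF (hfin a ha)
  obtain ⟨gb, hgb, h1, -⟩ := oD_spec hΓ hpd ha hb
  obtain ⟨gc, hgc, h2, -⟩ := oD_spec hΓ hpd ha hc
  obtain ⟨ge, hge, h3, -⟩ := oD_spec hΓ hpd ha he
  have hb' := hΓ.ac_mem hgb hb
  have hc' := hΓ.ac_mem hgc hc
  have he' := hΓ.ac_mem hge he
  have h0 := hd_self ha
  have hρ : 0 ≤ ρ / 3 := (oD_nonneg hΓ hpd ha hb).trans hab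
  have one := Γ.one_mem
  have e1 : oD Γ a b = oD (loc Γ ρ a) a (ac gb b) := by
    rw [← oD_loc hΓ hpd ρ ha ha hb' (by
      have := oD_congr hΓ hpd ha hb one hgb
      rw [ac_one] at this
      rw [this, h0]
      linarith)]
    have := oD_congr hΓ hpd ha hb one hgb
    rw [ac_one] at this
    exact this.symm
  have e2 : oD Γ a c = oD (loc Γ ρ a) a (ac gc c) := by
    rw [← oD_loc hΓ hpd ρ ha ha hc' (by
      have := oD_congr hΓ hpd ha hc one hgc
      rw [ac_one] at this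
      rw [this, h0]
      linarith)]
    have := oD_congr hΓ hpd ha hc one hgc
    rw [ac_one] at this
    exact this.symm
  have e3 : oD Γ a e = oD (loc Γ ρ a) a (ac ge e) := by
    rw [← oD_loc hΓ hpd ρ ha ha he' (by
      have := oD_congr hΓ hpd ha he one hge
      rw [ac_one] at this
      rw [this, h0]
      linarith)]
    have := oD_congr hΓ hpd ha he one hge
    rw [ac_one] at this
    exact this.symm
  have e4 : oD Γ b c = oD (loc Γ ρ a) (ac gb b) (ac gc c) := by
    rw [← oD_loc hΓ hpd ρ ha hb' hc' (by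
      rw [oD_congr hΓ hpd hb hc hgb hgc]
      linarith), oD_congr hΓ hpd hb hc hgb hgc]
  have e5 : oD Γ b e = oD (loc Γ ρ a) (ac gb b) (ac ge e) := by
    rw [← oD_loc hΓ hpd ρ ha hb' he' (by
      rw [oD_congr hΓ hpd hb he hgb hge]
      linarith), oD_congr hΓ hpd hb he hgb hge]
  have e6 : oD Γ c e = oD (loc Γ ρ a) (ac gc c) (ac ge e) := by
    rw [← oD_loc hΓ hpd ρ ha hc' he' (by
      rw [oD_congr hΓ hpd hc he hgc hge]
      linarith), oD_congr hΓ hpd hc he hgc hge]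
  have h7 := four_fixed hF hpdF hz hfix ha hb' hc' he'
  rw [e1, e2, e3, e4, e5, e6]
  linarith

end Pool.Agent.TGL
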