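import Pool.Agent.TGL.H8

/-!
# H10: a direction far from `M` given directions; angle versus Gromov product
-/

set_option autoImplicit false
open Set

namespace Pool.Agent.TGL

theorem h10a_qV {n : ℕ} {f0 f1 : Fin (n+1) → ℝ} (h0 : q f0 f0 = -1) (h1 : q f1 f1 = -1) (h01 : q f0 f1 = 0)
    (a b : ℝ) : q (Real.cos a • f0 + Real.sin a • f1) (Real.cos b • f0 + Real.sin b • f1) =
      -Real.cos (a - b) := by
  have h10 : q f1 f0 = 0 := by rw [q_comm, h01]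
  rw [q_add_left, q_add_right, q_add_right, q_smul_left, q_smul_left, q_smul_left, q_smul_left,
    q_smul_right, q_smul_right, q_smul_right, q_smul_right, h0, h1, h01, h10, Real.cos_sub]
  ring

theorem h10a_key {n : ℕ} {c x y w : Fin (n+1) → ℝ} (hc : c ∈ Hyp n) (hx : IsUT c x) (hy : IsUT c y)
    (hw : IsUT c w) {ε : ℝ} (h1 : 1 - ε < -q w x) (h2 : 1 - ε < -q w y) : 1 - 4 * ε < -q x y := by
  have h3 : q c (x + y - (2 : ℝ) • w) = 0 := by
    rw [q_sub_right, q_add_right, q_smul_right, hx.1, hy.1, hw.1]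
    ring
  have h4 := q_neg hc h3
  have h5 : q (x + y - (2 : ℝ) • w) (x + y - (2 : ℝ) • w) =
      q x x + q y y + 4 * q w w + 2 * q x y - 4 * q w x - 4 * q w y := by
    rw [q_sub_left, q_sub_right, q_sub_right, q_add_left, q_add_right, q_add_right, q_add_left,
      q_smul_left, q_smul_left, q_smul_right, q_smul_right, q_smul_right, q_add_right,
      q_comm y x, q_comm x w, q_comm y w]
    ring
  rw [h5, hx.2, hy.2, hw.2] at h4
  linarith

/-- Among `M + 1` directions in a tangent plane one is far from `M` given directions.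
Proof. Let `ε = (1 - cos (1/(M+1)))/4 > 0`. Let `f 0, f 1` be two orthogonal unit tangent vectors at `c`
(`exists_frame`, `n ≥ 2`), `φ j = j/(M+1)` and `v j = cos (φ j) • f 0 + sin (φ j) • f 1` for `j : Fin (M+1)`:
`q c (v j) = 0`, `q (v j) (v k) = - cos (φ j - φ k)`. Suppose for every `j` there is `i : Fin M` with
`-q (u i) (v j) > 1 - ε`. By the pigeonhole principle (`Fintype.exists_ne_map_eq_of_card_lt`) two `j ≠ k`
have the same `i`; let `w = u i`. The vector `v j + v k - 2 • w` is orthogonal to `c`, so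
`0 ≤ - q (v j + v k - 2•w) (v j + v k - 2•w)
   = 1 + 1 + 4 + 2 cos (φ j - φ k) + 4 q (v j) w + 4 q (v k) w`
(`q_neg`), i.e. `-4 q (v j) w - 4 q (v k) w ≤ 6 + 2 cos (φ j - φ k)`; the left side is `> 8 - 8ε`. So
`cos (φ j - φ k) > 1 - 4ε = cos (1/(M+1))`. But `1/(M+1) ≤ |φ j - φ k| ≤ 1 ≤ π` and `cos` is decreasing on
`[0,π]` (`Real.cos_le_cos_of_nonneg_of_le_pi`, `Real.cos_abs`): contradiction. -/
theorem exists_far_direction (M : ℕ) : ∃ ε : ℝ, 0 < ε ∧ ε ≤ 1 ∧ ∀ (n : ℕ), 2 ≤ n →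
    ∀ c ∈ Hyp n, ∀ u : Fin M → (Fin (n+1) → ℝ), (∀ i, IsUT c (u i)) →
      ∃ v, IsUT c v ∧ ∀ i, -q (u i) v ≤ 1 - ε := by
  have hM : (0 : ℝ) < (M : ℝ) + 1 := by positivity
  have hδ0 : 0 < 1 / ((M : ℝ) + 1) := by positivity
  have hδ1 : 1 / ((M : ℝ) + 1) ≤ 1 := by
    rw [div_le_one hM]
    have : (0 : ℝ) ≤ M := Nat.cast_nonneg _
    linarith
  have hπ : (1 : ℝ) ≤ Real.pi := by linarith [Real.pi_gt_three]
  have hcos : Real.cos (1 / ((M : ℝ) + 1)) < 1 := by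
    have := Real.cos_lt_cos_of_nonneg_of_le_pi le_rfl (hδ1.trans hπ) hδ0
    rwa [Real.cos_zero] at this
  refine ⟨(1 - Real.cos (1 / ((M : ℝ) + 1))) / 4, by linarith, by
    have := Real.neg_one_le_cos (1 / ((M : ℝ) + 1))
    linarith, ?_⟩
  intro n hn c hc u hu
  by_contra hcon
  push Not at hcon
  obtain ⟨f, hf1, hf2⟩ := exists_frame hc
  set f0 := f ⟨0, by omega⟩ with hf0
  set f1 := f ⟨1, by omega⟩ with hf1'
  have h01 : q f0 f1 = 0 := hf2 _ _ (by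
    intro h
    have := congrArg Fin.val h
    simp at this)
  have hUT : ∀ a : ℝ, IsUT c (Real.cos a • f0 + Real.sin a • f1) := by
    intro a
    refine ⟨?_, ?_⟩
    · rw [q_add_right, q_smul_right, q_smul_right, (hf1 _).1, (hf1 _).1]
      ring
    · rw [h10a_qV (hf1 _).2 (hf1 _).2 h01, sub_self, Real.cos_zero]
  choose g hg using fun j : Fin (M + 1) => hcon _ (hUT (((j : ℕ) : ℝ) * (1 / ((M : ℝ) + 1))))
  obtain ⟨j, k, hjk, hg2⟩ := Fintype.exists_ne_map_eq_of_card_lt g (by simp)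
  have h3 := h10a_key hc (hUT (((j : ℕ) : ℝ) * (1 / ((M : ℝ) + 1)))) (hUT (((k : ℕ) : ℝ) * (1 / ((M : ℝ) + 1))))
    (hu (g j)) (hg j) (by rw [hg2]; exact hg k)
  rw [h10a_qV (hf1 _).2 (hf1 _).2 h01, neg_neg] at h3
  have h4 : Real.cos (1 / ((M : ℝ) + 1)) <
      Real.cos (((j : ℕ) : ℝ) * (1 / ((M : ℝ) + 1)) - ((k : ℕ) : ℝ) * (1 / ((M : ℝ) + 1))) := by linarith
  rw [← Real.cos_abs (((j : ℕ) : ℝ) * (1 / ((M : ℝ) + 1)) - ((k : ℕ) : ℝ) * (1 / ((M : ℝ) + 1)))] at h4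
  have h5 : |((j : ℕ) : ℝ) * (1 / ((M : ℝ) + 1)) - ((k : ℕ) : ℝ) * (1 / ((M : ℝ) + 1))| =
      |((j : ℕ) : ℝ) - ((k : ℕ) : ℝ)| * (1 / ((M : ℝ) + 1)) := by
    rw [← sub_mul, abs_mul, abs_of_pos hδ0]
  have h6 : (1 : ℝ) ≤ |((j : ℕ) : ℝ) - ((k : ℕ) : ℝ)| := by
    have h7 : ((j : ℕ) : ℤ) - ((k : ℕ) : ℤ) ≠ 0 := by
      intro h
      apply hjk
      apply Fin.ext
      omega
    have h8 := Int.one_le_abs h7
    have h9 : ((1 : ℤ) : ℝ) ≤ ((|((j : ℕ) : ℤ) - ((k : ℕ) : ℤ)| : ℤ) : ℝ) := Int.cast_le.2 h8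
    push_cast at h9
    exact h9
  have h7 : |((j : ℕ) : ℝ) - ((k : ℕ) : ℝ)| ≤ (M : ℝ) + 1 := by
    have hj : ((j : ℕ) : ℝ) ≤ (M : ℝ) := by exact_mod_cast Nat.lt_succ_iff.1 j.2
    have hk : ((k : ℕ) : ℝ) ≤ (M : ℝ) := by exact_mod_cast Nat.lt_succ_iff.1 k.2
    have hj0 : (0 : ℝ) ≤ ((j : ℕ) : ℝ) := Nat.cast_nonneg _
    have hk0 : (0 : ℝ) ≤ ((k : ℕ) : ℝ) := Nat.cast_nonneg _
    rw [abs_le]
    constructor <;> linarith
  have h8 : 1 / ((M : ℝ) + 1) ≤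
      |((j : ℕ) : ℝ) * (1 / ((M : ℝ) + 1)) - ((k : ℕ) : ℝ) * (1 / ((M : ℝ) + 1))| := by
    rw [h5]
    nlinarith
  have h9 : |((j : ℕ) : ℝ) * (1 / ((M : ℝ) + 1)) - ((k : ℕ) : ℝ) * (1 / ((M : ℝ) + 1))| ≤ Real.pi := by
    rw [h5, mul_one_div]
    exact ((div_le_one hM).2 h7).trans hπ
  have h10 := Real.cos_le_cos_of_nonneg_of_le_pi hδ0.le h9 h8
  linarith

variable {n : ℕ}

/-- Proof. With `c' = -q u v ≤ 1 - ε`, `q_ray_ray` and the addition formulas give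
`q (ray c u s) (ray c v t) = (1-c')/2 * cosh (s+t) + (1+c')/2 * cosh (s-t) ≥ (ε/2) cosh (s+t) ≥
(ε/4) exp (s+t)` (`1 + c' ≥ 0` by `abs_q_UT`). As `exp (hd) ≥ cosh (hd) = q`, `hd ≥ s + t + log (ε/4)`. -/
theorem hd_ge_of_angle {c u v : Fin (n+1) → ℝ} (hc : c ∈ Hyp n) (hu : IsUT c u) (hv : IsUT c v)
    {ε : ℝ} (hε : 0 < ε) (h : -q u v ≤ 1 - ε) {s t : ℝ} (hs : 0 ≤ s) (ht : 0 ≤ t) :
    s + t - Real.log (4 / ε) ≤ hd (ray c u s) (ray c v t) := by
  have h1 := q_ray_ray hc hu hv s t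
  have h2 := Real.cosh_add s t
  have h3 := Real.cosh_sub s t
  have h4 := abs_q_UT hc hu hv
  have h5 : q u v ≤ 1 := (le_abs_self _).trans h4
  have h6 : 1 ≤ q (ray c u s) (ray c v t) := one_le_q (ray_mem hc hu s) (ray_mem hc hv t)
  have h7 : 0 < Real.cosh (s - t) := Real.cosh_pos _
  have h8 : 0 < Real.cosh (s + t) := Real.cosh_pos _
  have h9 : ε / 2 * Real.cosh (s + t) ≤ q (ray c u s) (ray c v t) := by
    have e1 : q (ray c u s) (ray c v t) = (1 + q u v) / 2 * Real.cosh (s + t) +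
        (1 - q u v) / 2 * Real.cosh (s - t) := by
      rw [h1, h2, h3]
      ring
    rw [e1]
    have e2 : ε / 2 * Real.cosh (s + t) ≤ (1 + q u v) / 2 * Real.cosh (s + t) :=
      mul_le_mul_of_nonneg_right (by linarith) h8.le
    have e3 : 0 ≤ (1 - q u v) / 2 * Real.cosh (s - t) := mul_nonneg (by linarith) h7.le
    linarith
  have h10 : Real.exp (s + t) / 2 ≤ Real.cosh (s + t) := by
    rw [Real.cosh_eq]
    have := Real.exp_pos (-(s + t))
    linarith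
  have h11 : 0 ≤ hd (ray c u s) (ray c v t) := Real.arcosh_nonneg h6
  have h12 : Real.cosh (hd (ray c u s) (ray c v t)) = q (ray c u s) (ray c v t) := Real.cosh_arcosh h6
  have h13 : Real.cosh (hd (ray c u s) (ray c v t)) ≤ Real.exp (hd (ray c u s) (ray c v t)) := by
    rw [Real.cosh_eq]
    have : Real.exp (-(hd (ray c u s) (ray c v t))) ≤ Real.exp (hd (ray c u s) (ray c v t)) :=
      Real.exp_le_exp.2 (by linarith)
    linarith
  rw [← Real.exp_le_exp, Real.exp_sub, Real.exp_log (by positivity)]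
  have h14 : Real.exp (s + t) / (4 / ε) = ε / 2 * (Real.exp (s + t) / 2) := by
    field_simp
    ring
  rw [h14]
  have h15 : ε / 2 * (Real.exp (s + t) / 2) ≤ ε / 2 * Real.cosh (s + t) :=
    mul_le_mul_of_nonneg_left h10 (by linarith)
  linarith

end Pool.Agent.TGL
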