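import Pool.Agent.TGL.F3
import Pool.Agent.TGL.H10

set_option autoImplicit false
open Set

namespace Pool.Agent.TGL

variable {n : ℕ}

theorem mem_loc {Γ : Subgroup (GLn n)} (hΓ : IsoGrp Γ) {ρ : ℝ} {a x y : Fin (n+1) → ℝ}
    (ha : a ∈ Hyp n) (hx : x ∈ Hyp n) (hy : y ∈ Hyp n) {g : GLn n} (hg : g ∈ Γ)
    (h : hd a x + hd x (ac g y) + hd a y ≤ ρ) : g ∈ loc Γ ρ a := by
  apply Subgroup.subset_closure
  refine ⟨hg, ?_⟩
  have h2 := hd_triangle ha hx (hΓ.ac_mem hg ha)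
  have h3 := hd_triangle hx (hΓ.ac_mem hg hy) (hΓ.ac_mem hg ha)
  rw [hd_ac (hΓ g hg), hd_symm y a] at h3
  linarith

theorem ac_ray (g : GLn n) (c v : Fin (n+1) → ℝ) (t : ℝ) :
    ac g (ray c v t) = ray (ac g c) (ac g v) t := by
  unfold ray
  rw [ac_add, ac_smul, ac_smul]

/-- No dead ends. -/
theorem nde (M : ℕ) : ∃ κ0 : ℝ, 0 ≤ κ0 ∧ ∀ (n : ℕ), 2 ≤ n → ∀ (Γ : Subgroup (GLn n)), IsoGrp Γ →
    PrDisc Γ → ∀ (Λ ρ : ℝ), 4 * κ0 ≤ Λ → 0 < Λ → 6 * Λ ≤ ρ → ∀ y ∈ Hyp n, Finite (loc Γ ρ y) →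
      Nat.card (loc Γ ρ y) ≤ M →
      ∃ z ∈ Hyp n, ∃ z' ∈ Hyp n, Λ / 2 ≤ oD Γ y z ∧ oD Γ y z ≤ 3 * Λ ∧ Λ / 2 ≤ oD Γ y z' ∧
        oD Γ y z' ≤ 3 * Λ ∧ (oD Γ z y + oD Γ z' y - oD Γ z z') / 2 ≤ κ0 := by
  obtain ⟨ε, hε0, hε1, hfar⟩ := exists_far_direction M
  have hlog : 0 ≤ Real.log (4 / ε) := by
    apply Real.log_nonneg
    rw [le_div_iff₀ hε0]
    linarith
  refine ⟨Real.log (4 / ε) / 2, by linarith, ?_⟩
  intro n hn Γ hΓ hpd Λ ρ hκΛ hΛ0 hρ y hy hfin hcard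
  have hle : loc Γ ρ y ≤ Γ := by
    unfold loc
    rw [Subgroup.closure_le]
    intro g hg
    exact hg.1
  have hF := hΓ.mono hle
  obtain ⟨c, hc, hfix⟩ := exists_fixed (loc Γ ρ y) hF hfin
  obtain ⟨u, hu, hyu⟩ := exists_ray (by omega : 1 ≤ n) hc hy
  set r := hd c y with hr
  have hr0 : 0 ≤ r := hd_nonneg hc hy
  have hgc : ∀ g ∈ loc Γ ρ y, ∀ p : Fin (n+1) → ℝ, hd c (ac g p) = hd c p := by
    intro g hg p
    have := hd_ac (hF g hg) c p
    rwa [hfix g hg] at this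
  -- the outward point
  set z := ray c u (r + Λ) with hz
  have hzH : z ∈ Hyp n := ray_mem hc hu _
  have hyz : hd y z = Λ := by
    rw [hyu, hz, hd_ray hc hu, show r - (r + Λ) = -Λ by ring, abs_neg, abs_of_pos hΛ0]
  have hcz : hd c z = r + Λ := by
    rw [hz, hd_self_ray hc hu, abs_of_nonneg (by linarith)]
  have Dyz : oD Γ y z = Λ := by
    apply le_antisymm
    · rw [← hyz]
      exact oD_le_hd hΓ hpd hy hzH
    · obtain ⟨g, hg, h1, -⟩ := oD_spec hΓ hpd hy hzH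
      have h2 : oD Γ y z ≤ Λ := by
        rw [← hyz]
        exact oD_le_hd hΓ hpd hy hzH
      have hgF : g ∈ loc Γ ρ y := mem_loc hΓ hy hy hzH hg (by
        rw [hd_self hy, ← h1, hyz]
        linarith)
      have h3 := hd_triangle hc hy (hΓ.ac_mem hg hzH)
      rw [hgc g hgF, hcz, ← h1] at h3
      linarith
  have Dzy : oD Γ z y = Λ := by rw [oD_symm hΓ hpd hzH hy, Dyz]
  rcases le_or_gt Λ r with hrΛ | hrΛ
  · -- far from the fixed point
    set z' := ray c u (r - Λ) with hz'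
    have hzH' : z' ∈ Hyp n := ray_mem hc hu _
    have hyz' : hd y z' = Λ := by
      rw [hyu, hz', hd_ray hc hu, show r - (r - Λ) = Λ by ring, abs_of_pos hΛ0]
    have hcz' : hd c z' = r - Λ := by
      rw [hz', hd_self_ray hc hu, abs_of_nonneg (by linarith)]
    have hzz' : hd z z' = 2 * Λ := by
      rw [hz, hz', hd_ray hc hu, show r + Λ - (r - Λ) = 2 * Λ by ring, abs_of_pos (by linarith)]
    have Dyz' : oD Γ y z' = Λ := by
      apply le_antisymm
      · rw [← hyz']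
        exact oD_le_hd hΓ hpd hy hzH'
      · obtain ⟨g, hg, h1, -⟩ := oD_spec hΓ hpd hy hzH'
        have h2 : oD Γ y z' ≤ Λ := by
          rw [← hyz']
          exact oD_le_hd hΓ hpd hy hzH'
        have hgF : g ∈ loc Γ ρ y := mem_loc hΓ hy hy hzH' hg (by
          rw [hd_self hy, ← h1, hyz']
          linarith)
        have h3 := hd_triangle hc (hΓ.ac_mem hg hzH') hy
        rw [hgc g hgF, hcz', hd_symm (ac g z') y, ← h1] at h3
        linarith
    have Dzz' : 2 * Λ ≤ oD Γ z z' := by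
      obtain ⟨g, hg, h1, -⟩ := oD_spec hΓ hpd hzH hzH'
      have h2 : oD Γ z z' ≤ 2 * Λ := by
        rw [← hzz']
        exact oD_le_hd hΓ hpd hzH hzH'
      have hgF : g ∈ loc Γ ρ y := mem_loc hΓ hy hzH hzH' hg (by
        rw [← h1, hyz, hyz']
        linarith)
      have h3 := hd_triangle hc (hΓ.ac_mem hg hzH') hzH
      rw [hgc g hgF, hcz', hcz, hd_symm (ac g z') z, ← h1] at h3
      linarith
    refine ⟨z, hzH, z', hzH', by rw [Dyz]; linarith, by rw [Dyz]; linarith, by rw [Dyz']; linarith,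
      by rw [Dyz']; linarith, ?_⟩
    rw [Dzy, oD_symm hΓ hpd hzH' hy, Dyz']
    linarith
  · -- close to the fixed point
    have hUT : ∀ g ∈ loc Γ ρ y, IsUT c (ac g u) := by
      intro g hg
      constructor
      · have := q_ac (hF g hg) c u
        rw [hfix g hg] at this
        rw [this]
        exact hu.1
      · rw [q_ac (hF g hg)]
        exact hu.2
    -- enumeration of the directions
    have henum : ∃ f : Fin M → (Fin (n+1) → ℝ), (∀ i, IsUT c (f i)) ∧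
        ∀ g ∈ loc Γ ρ y, ∃ i, f i = ac g u := by
      have : Nonempty (loc Γ ρ y) := ⟨1⟩
      have hpos : 0 < Nat.card (loc Γ ρ y) := Nat.card_pos
      obtain ⟨e⟩ : Nonempty (loc Γ ρ y ≃ Fin (Nat.card (loc Γ ρ y))) := ⟨Finite.equivFin _⟩
      refine ⟨fun i => if h : (i : ℕ) < Nat.card (loc Γ ρ y) then
        ac ((e.symm ⟨i, h⟩ : loc Γ ρ y) : GLn n) u else u, ?_, ?_⟩
      · intro i
        by_cases h : (i : ℕ) < Nat.card (loc Γ ρ y)
        · simp only [dif_pos h]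
          exact hUT _ (e.symm ⟨i, h⟩).2
        · simp only [dif_neg h]
          exact hu
      · intro g hg
        have h1 := (e ⟨g, hg⟩).2
        refine ⟨⟨(e ⟨g, hg⟩ : ℕ), by omega⟩, ?_⟩
        simp only [h1, dif_pos]
        simp
    obtain ⟨f, hf1, hf2⟩ := henum
    obtain ⟨v, hv, hv2⟩ := hfar n hn c hc f hf1
    have hang : ∀ g ∈ loc Γ ρ y, IsUT c (ac g v) ∧ -q u (ac g v) ≤ 1 - ε := by
      intro g hg
      refine ⟨⟨?_, ?_⟩, ?_⟩
      · have := q_ac (hF g hg) c v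
        rw [hfix g hg] at this
        rw [this]
        exact hv.1
      · rw [q_ac (hF g hg)]
        exact hv.2
      · obtain ⟨i, hi⟩ := hf2 g⁻¹ ((loc Γ ρ y).inv_mem hg)
        have h1 := hv2 i
        rw [hi] at h1
        have h2 := q_ac (hF g hg) (ac g⁻¹ u) v
        rw [ac_ac_inv] at h2
        rw [h2]
        exact h1
    set z' := ray c v Λ with hz'
    have hzH' : z' ∈ Hyp n := ray_mem hc hv _
    have hcz' : hd c z' = Λ := by
      rw [hz', hd_self_ray hc hv, abs_of_pos hΛ0]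
    have hlow : ∀ g ∈ loc Γ ρ y, ∀ s : ℝ, 0 ≤ s →
        s + Λ - Real.log (4 / ε) ≤ hd (ray c u s) (ac g z') := by
      intro g hg s hs
      rw [hz', ac_ray, hfix g hg]
      exact hd_ge_of_angle hc hu (hang g hg).1 hε0 (hang g hg).2 hs hΛ0.le
    have hyz' : hd y z' ≤ r + Λ := by
      have := hd_triangle hy hc hzH'
      rw [hcz', hd_symm y c] at this
      exact this
    have Dyz' : r + Λ - Real.log (4 / ε) ≤ oD Γ y z' := by
      obtain ⟨g, hg, h1, -⟩ := oD_spec hΓ hpd hy hzH'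
      have h2 : oD Γ y z' ≤ r + Λ := (oD_le_hd hΓ hpd hy hzH').trans hyz'
      have hgF : g ∈ loc Γ ρ y := mem_loc hΓ hy hy hzH' hg (by
        rw [hd_self hy, ← h1]
        linarith)
      have h3 := hlow g hgF r hr0
      rw [← hyu, ← h1] at h3
      exact h3
    have Dyz'u : oD Γ y z' ≤ r + Λ := (oD_le_hd hΓ hpd hy hzH').trans hyz'
    have hzz' : hd z z' ≤ r + 2 * Λ := by
      have := hd_triangle hzH hc hzH'
      rw [hcz', hd_symm z c, hcz] at this
      linarith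
    have Dzz' : r + 2 * Λ - Real.log (4 / ε) ≤ oD Γ z z' := by
      obtain ⟨g, hg, h1, -⟩ := oD_spec hΓ hpd hzH hzH'
      have h2 : oD Γ z z' ≤ r + 2 * Λ := (oD_le_hd hΓ hpd hzH hzH').trans hzz'
      have hgF : g ∈ loc Γ ρ y := mem_loc hΓ hy hzH hzH' hg (by
        rw [← h1, hyz]
        linarith)
      have h3 := hlow g hgF (r + Λ) (by linarith)
      rw [← hz, ← h1] at h3
      linarith
    refine ⟨z, hzH, z', hzH', by rw [Dyz]; linarith, by rw [Dyz]; linarith, by linarith,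
      by linarith, ?_⟩
    rw [Dzy, oD_symm hΓ hpd hzH' hy]
    linarith

end Pool.Agent.TGL
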