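import Pool.Agent.TGL.H8

/-!
# H5: contraction of the hyperboloid to a point along geodesics
-/

set_option autoImplicit false
open Set

namespace Pool.Agent.TGL

variable {n : ℕ}

/-- Rays from `x` contract. Proof: let `c = q u v`, `-1 ≤ c ≤ 1` (`abs_q_UT`). By `q_ray_ray` and the
addition formulas, for `a, b ≥ 0`
`q (ray x u a) (ray x v b) = (1+c)/2 * cosh (a+b) + (1-c)/2 * cosh (a-b)`.
Replacing `(a,b)` by `(ta,tb)`, `0 ≤ t ≤ 1`, both `cosh (t(a+b)) ≤ cosh (a+b)` and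
`cosh (t(a-b)) ≤ cosh (a-b)` (`Real.cosh_le_cosh`, `abs_mul`), so `q` decreases; then `hd_le_iff`/
`Real.arcosh_le_arcosh`. -/
theorem hd_ray_contract {x u v : Fin (n+1) → ℝ} (hx : x ∈ Hyp n) (hu : IsUT x u) (hv : IsUT x v)
    {a b t : ℝ} (ht0 : 0 ≤ t) (ht1 : t ≤ 1) :
    hd (ray x u (t * a)) (ray x v (t * b)) ≤ hd (ray x u a) (ray x v b) := by
  have hc := abs_le.1 (abs_q_UT hx hu hv)
  have key : ∀ a b : ℝ, q (ray x u a) (ray x v b) =
      (1 + q u v) / 2 * Real.cosh (a + b) + (1 - q u v) / 2 * Real.cosh (a - b) := by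
    intro a b
    rw [q_ray_ray hx hu hv, Real.cosh_add, Real.cosh_sub]
    ring
  have hco : ∀ y : ℝ, Real.cosh (t * y) ≤ Real.cosh y := by
    intro y
    rw [Real.cosh_le_cosh, abs_mul, abs_of_nonneg ht0]
    exact mul_le_of_le_one_left (abs_nonneg y) ht1
  have hle : q (ray x u (t * a)) (ray x v (t * b)) ≤ q (ray x u a) (ray x v b) := by
    rw [key, key, ← mul_add, ← mul_sub]
    have h1 := mul_le_mul_of_nonneg_left (hco (a + b)) (show 0 ≤ (1 + q u v) / 2 by linarith [hc.1])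
    have h2 := mul_le_mul_of_nonneg_left (hco (a - b)) (show 0 ≤ (1 - q u v) / 2 by linarith [hc.2])
    linarith
  have m1 := ray_mem hx hu (t * a)
  have m2 := ray_mem hx hv (t * b)
  have m3 := ray_mem hx hu a
  have m4 := ray_mem hx hv b
  rw [le_hd_iff m3 m4 (hd_nonneg m1 m2), cosh_hd m1 m2]
  exact hle

/-- Proof: choose for every `z ∈ Hyp n` a unit tangent vector `V z` at `x` with `z = ray x (V z) (hd x z)`
(`exists_ray`) and put `h t z = ray x (V z) (t * hd x z)`; use `ray_zero`, `ray_mem`, `hd_ray`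
(`|s r - t r| = |s-t| r`, `r = hd x z ≥ 0`) and `hd_ray_contract`. -/
theorem exists_cone (hn : 1 ≤ n) {x : Fin (n+1) → ℝ} (hx : x ∈ Hyp n) :
    ∃ h : ℝ → (Fin (n+1) → ℝ) → (Fin (n+1) → ℝ), ∀ z ∈ Hyp n, h 0 z = x ∧ h 1 z = z ∧
      (∀ t, h t z ∈ Hyp n) ∧
      (∀ s ∈ Icc (0 : ℝ) 1, ∀ t ∈ Icc (0 : ℝ) 1, hd (h s z) (h t z) ≤ |s - t| * hd x z) ∧
      ∀ w ∈ Hyp n, ∀ t ∈ Icc (0 : ℝ) 1, hd (h t z) (h t w) ≤ hd z w := by
  have hV : ∀ z : Fin (n+1) → ℝ, ∃ v, z ∈ Hyp n → IsUT x v ∧ z = ray x v (hd x z) := by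
    intro z
    by_cases hz : z ∈ Hyp n
    · obtain ⟨v, h1, h2⟩ := exists_ray hn hx hz
      exact ⟨v, fun _ => ⟨h1, h2⟩⟩
    · exact ⟨0, fun h => absurd h hz⟩
  choose V hV using hV
  refine ⟨fun t z => ray x (V z) (t * hd x z), fun z hz => ⟨?_, ?_, ?_, ?_, ?_⟩⟩
  · simp only [zero_mul]
    exact ray_zero x (V z)
  · simp only [one_mul]
    exact (hV z hz).2.symm
  · intro t
    exact ray_mem hx (hV z hz).1 _
  · intro s _ t _
    have h0 := hd_nonneg hx hz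
    rw [hd_ray hx (hV z hz).1, ← sub_mul, abs_mul, abs_of_nonneg h0]
  · intro w hw t ht
    have h1 := hd_ray_contract hx (hV z hz).1 (hV w hw).1 (a := hd x z) (b := hd x w) ht.1 ht.2
    rw [← (hV z hz).2, ← (hV w hw).2] at h1
    exact h1

end Pool.Agent.TGL
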