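import Pool.Agent.TGL.F6
import Pool.Agent.TGL.H5
import Pool.Agent.TGL.B2

set_option autoImplicit false
open Set

namespace Pool.Agent.TGL

/-- Geometric criterion: local groups at a large scale cannot all be finite of bounded order. -/
theorem geometric (M : ℕ) : ∃ ρ : ℝ, 0 < ρ ∧ ∀ (n : ℕ), 2 ≤ n → ∀ (Γ : Subgroup (GLn n)), IsoGrp Γ →
    PrDisc Γ → Cocpt Γ → TorGen Γ → ¬ (∀ x ∈ Hyp n, Finite (loc Γ ρ x) ∧
      Nat.card (loc Γ ρ x) ≤ M) := by
  classical
  obtain ⟨κ0, hκ0, hnde⟩ := nde M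
  set κ : ℝ := κ0 + 8 with hκ
  set K : ℝ := 40002 * (κ + 4) with hK
  set Λ : ℝ := 1000 * (K + κ + 4 + 1 + 1) with hΛ
  set L : ℝ := 10000 * Λ with hL
  set R : ℝ := 10 * L with hR
  set B : ℝ := 2 * K + 4 * 4 + 1 with hB
  have hΛ0 : 0 < Λ := by
    rw [hΛ, hK, hκ]
    linarith
  have hc : Cst 4 κ 1 K Λ L R B := by
    refine ⟨by norm_num, by linarith, by norm_num, rfl, ?_, rfl, le_rfl, rfl⟩
    rw [hΛ]
  refine ⟨3 * R, by rw [hR, hL]; linarith, ?_⟩
  intro n hn Γ hΓ hpd hco htg hall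
  have hn1 : 1 ≤ n := by omega
  obtain ⟨Δ, hΔ0, hΔ⟩ := exists_codiam hΓ hco
  obtain ⟨hcn, hcn'⟩ := exists_cone hn1 (e0_mem (n := n))
  have hLH : LH (fun x y : Hyp n => oD Γ x.1 y.1) R 4 := by
    have := local_hyp hΓ hpd (3 * R) (fun a ha => (hall a ha).1)
    rwa [show 3 * R / 3 = R by ring] at this
  have hD := pmet_oD hΓ hpd
  set act : Γ → Hyp n → Hyp n := fun g x => ⟨ac g.1 x.1, hΓ.ac_mem g.2 x.2⟩ with hact
  refine coarse_main (D := fun x y : Hyp n => oD Γ x.1 y.1) (d := fun x y : Hyp n => hd x.1 y.1)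
    (o := ⟨e0 n, e0_mem⟩)
    (hh := fun t z => if h : hcn t z.1 ∈ Hyp n then ⟨hcn t z.1, h⟩ else z) (G := Γ) hc hD pmet_hd
    (fun x y => oD_le_hd hΓ hpd x.2 y.2) hLH ?_ act ?_ ?_ ?_ ?_ ?_ ?_ ?_ Δ ?_
  · have hmem : ∀ (z : Hyp n) (t : ℝ), hcn t z.1 ∈ Hyp n := fun z t => (hcn' z.1 z.2).2.2.1 t
    refine ⟨?_, ?_, ?_, ?_⟩
    · intro z
      simp only [dif_pos (hmem z _)]
      exact Subtype.ext (hcn' z.1 z.2).1
    · intro z
      simp only [dif_pos (hmem z _)]
      exact Subtype.ext (hcn' z.1 z.2).2.1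
    · intro z s hs t ht
      simp only [dif_pos (hmem z _)]
      exact (hcn' z.1 z.2).2.2.2.1 s hs t ht
    · intro z w t ht
      simp only [dif_pos (hmem z _), dif_pos (hmem w _)]
      exact (hcn' z.1 z.2).2.2.2.2 w.1 w.2 t ht
  · intro x
    exact Subtype.ext (ac_one x.1)
  · intro a b x
    exact Subtype.ext (ac_mul a.1 b.1 x.1)
  · intro g x y
    exact hd_ac (hΓ g.1 g.2) x.1 y.1
  · intro g x
    exact oD_ac_self hΓ hpd x.2 g.2
  · rintro ⟨x, hx⟩ ⟨y, hy⟩
    obtain ⟨g, hg, h1, -⟩ := oD_spec hΓ hpd hx hy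
    have hgy := hΓ.ac_mem hg hy
    obtain ⟨f, hf0, hf1, hfm, hfd⟩ := exists_geod hn1 hx hgy
    have e1 : oD Γ x (ac g y) = hd x (ac g y) := by
      have := oD_congr hΓ hpd hx hy Γ.one_mem hg
      rw [ac_one] at this
      rw [this, h1]
    refine ⟨⟨g, hg⟩, fun t => ⟨f t, hfm t⟩, ?_, ?_, ?_, ?_⟩
    · exact Subtype.ext hf0
    · simp only [hact, e1]
      exact Subtype.ext hf1
    · intro s hs t ht
      simp only [hact, e1] at hs ht ⊢
      have key : ∀ s ∈ Icc (0 : ℝ) (hd x (ac g y)), ∀ t ∈ Icc (0 : ℝ) (hd x (ac g y)), s ≤ t →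
          oD Γ (f s) (f t) = t - s := by
        intro s hs t ht hst
        apply le_antisymm
        · have := oD_le_hd hΓ hpd (hfm s) (hfm t)
          rw [hfd, abs_sub_comm, abs_of_nonneg (by linarith)] at this
          exact this
        · have h2 := oD_tri hΓ hpd hx (hfm s) hgy
          have h3 := oD_tri hΓ hpd (hfm s) (hfm t) hgy
          have h4 := oD_le_hd hΓ hpd hx (hfm s)
          have h5 := oD_le_hd hΓ hpd (hfm t) hgy
          have h6 : hd x (f s) = s := by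
            have := hfd 0 s
            rwa [hf0, zero_sub, abs_neg, abs_of_nonneg hs.1] at this
          have h7 : hd (f t) (ac g y) = hd x (ac g y) - t := by
            have := hfd t (hd x (ac g y))
            rwa [hf1, abs_sub_comm, abs_of_nonneg (by linarith [ht.2])] at this
          rw [e1] at h2
          linarith
      rcases le_total s t with h | h
      · rw [abs_sub_comm, abs_of_nonneg (by linarith)]
        exact key s hs t ht h
      · rw [abs_of_nonneg (by linarith), oD_symm hΓ hpd (hfm s) (hfm t)]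
        exact key t ht s hs h
    · intro s hs t ht
      exact hfd s t
  · intro Pr hfixp hone hmul hinv
    rintro ⟨γ, hγ⟩
    have key : ∀ (g : GLn n) (_ : g ∈ Subgroup.closure {g : GLn n | g ∈ Γ ∧ IsOfFinOrder g}),
        ∀ hg : g ∈ Γ, Pr ⟨g, hg⟩ := by
      intro g hg
      have hcl : ∀ x ∈ Subgroup.closure {g : GLn n | g ∈ Γ ∧ IsOfFinOrder g}, x ∈ Γ := by
        intro x hx
        have h := htg
        unfold TorGen at h
        rw [h] at hx
        exact hx
      induction hg using Subgroup.closure_induction with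
      | mem g hg =>
        intro hgΓ
        apply hfixp
        have hle : Subgroup.zpowers g ≤ Γ := by
          rw [Subgroup.zpowers_le]
          exact hgΓ
        have hfin : Finite (Subgroup.zpowers g) := by
          exact (finite_zpowers.mpr hg.2).to_subtype
        obtain ⟨c, hc, hcf⟩ := exists_fixed (Subgroup.zpowers g) (hΓ.mono hle) hfin
        exact ⟨⟨c, hc⟩, Subtype.ext (hcf g (Subgroup.mem_zpowers g))⟩
      | one =>
        intro _
        exact hone
      | mul a b ha hb iha ihb =>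
        intro _
        exact hmul ⟨a, hcl a ha⟩ ⟨b, hcl b hb⟩ (iha _) (ihb _)
      | inv a ha iha =>
        intro _
        exact hinv ⟨a, hcl a ha⟩ (iha _)
    refine key γ ?_ hγ
    have h := htg
    unfold TorGen at h
    rw [h]
    exact hγ
  · rintro ⟨y, hy⟩
    have h4 : 4 * κ0 ≤ Λ := by
      rw [hΛ, hK, hκ]
      linarith
    have h6 : 6 * Λ ≤ 3 * R := by
      rw [hR, hL]
      linarith
    obtain ⟨z, hz, z', hz', a1, a2, a3, a4, a5⟩ := hnde n hn Γ hΓ hpd Λ (3 * R) h4 hΛ0 h6 y hy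
      (hall y hy).1 (hall y hy).2
    refine ⟨⟨z, hz⟩, ⟨z', hz'⟩, a1, a2, a3, a4, ?_⟩
    unfold gp
    simp only
    linarith
  · rintro ⟨x, hx⟩
    obtain ⟨g, hg, h1⟩ := hΔ (e0 n) e0_mem x hx
    exact (oD_le hΓ hpd e0_mem hx hg).trans h1

end Pool.Agent.TGL
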