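import Pool.Agent.TGL.Defs

set_option autoImplicit false
open Set

namespace Pool.Agent.TGL

variable {n : ℕ}

theorem q_comm (x y : Fin (n+1) → ℝ) : q x y = q y x := by
  unfold q
  rw [mul_comm (x 0)]
  congr 1
  exact Finset.sum_congr rfl (fun i _ => mul_comm _ _)

theorem q_add_left (x x' y : Fin (n+1) → ℝ) : q (x + x') y = q x y + q x' y := by
  unfold q
  simp only [Pi.add_apply, add_mul, Finset.sum_add_distrib]
  ring

theorem q_smul_left (c : ℝ) (x y : Fin (n+1) → ℝ) : q (c • x) y = c * q x y := by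
  unfold q
  simp only [Pi.smul_apply, smul_eq_mul, mul_sub, Finset.mul_sum, mul_assoc]

theorem q_add_right (x y y' : Fin (n+1) → ℝ) : q x (y + y') = q x y + q x y' := by
  rw [q_comm, q_add_left, q_comm y x, q_comm y' x]

theorem q_smul_right (c : ℝ) (x y : Fin (n+1) → ℝ) : q x (c • y) = c * q x y := by
  rw [q_comm, q_smul_left, q_comm y x]

theorem q_neg_left (x y : Fin (n+1) → ℝ) : q (-x) y = -q x y := by
  rw [show -x = (-1 : ℝ) • x by simp, q_smul_left]
  ring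

theorem q_neg_right (x y : Fin (n+1) → ℝ) : q x (-y) = -q x y := by
  rw [q_comm, q_neg_left, q_comm y x]

theorem q_sub_left (x x' y : Fin (n+1) → ℝ) : q (x - x') y = q x y - q x' y := by
  rw [sub_eq_add_neg, q_add_left, q_neg_left]
  ring

theorem q_sub_right (x y y' : Fin (n+1) → ℝ) : q x (y - y') = q x y - q x y' := by
  rw [sub_eq_add_neg, q_add_right, q_neg_right]
  ring

theorem q_zero_left (y : Fin (n+1) → ℝ) : q 0 y = 0 := by
  rw [show (0 : Fin (n+1) → ℝ) = (0 : ℝ) • 0 by simp, q_smul_left]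
  ring

theorem q_sum_left {ι : Type*} (s : Finset ι) (f : ι → Fin (n+1) → ℝ) (y : Fin (n+1) → ℝ) :
    q (∑ i ∈ s, f i) y = ∑ i ∈ s, q (f i) y := by
  classical
  induction s using Finset.induction_on with
  | empty => simp [q_zero_left]
  | insert a s ha ih => rw [Finset.sum_insert ha, Finset.sum_insert ha, q_add_left, ih]

theorem q_sum_right {ι : Type*} (s : Finset ι) (f : ι → Fin (n+1) → ℝ) (y : Fin (n+1) → ℝ) :
    q y (∑ i ∈ s, f i) = ∑ i ∈ s, q y (f i) := by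
  rw [q_comm, q_sum_left]
  exact Finset.sum_congr rfl (fun i _ => q_comm _ _)

theorem mem_Hyp {x : Fin (n+1) → ℝ} : x ∈ Hyp n ↔ 0 < x 0 ∧ q x x = 1 := by
  unfold Hyp q
  simp only [Set.mem_ofPred_eq]
  have : ∑ i : Fin n, x i.succ * x i.succ = ∑ i : Fin n, x i.succ ^ 2 :=
    Finset.sum_congr rfl (fun i _ => (sq _).symm)
  rw [this, sq]

theorem e0_mem : e0 n ∈ Hyp n := by
  rw [mem_Hyp]
  unfold q e0
  simp [Fin.succ_ne_zero]

theorem q_e0 (x : Fin (n+1) → ℝ) : q (e0 n) x = x 0 := by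
  unfold q e0
  simp [Fin.succ_ne_zero]

/-- `q x y = xᵀ J y`. -/
theorem q_eq_J (x y : Fin (n+1) → ℝ) : q x y = x ⬝ᵥ (Matrix.mulVec (J n) y) := by
  unfold q J dotProduct
  rw [Fin.sum_univ_succ]
  simp only [Matrix.mulVec_diagonal]
  simp [Fin.succ_ne_zero, Finset.sum_neg_distrib, sub_eq_add_neg]

theorem q_mulVec {g : Matrix (Fin (n+1)) (Fin (n+1)) ℝ} (hg : g.transpose * J n * g = J n)
    (x y : Fin (n+1) → ℝ) : q (Matrix.mulVec g x) (Matrix.mulVec g y) = q x y := by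
  rw [q_eq_J, q_eq_J]
  have h1 : Matrix.mulVec (J n) y = Matrix.mulVec g.transpose (Matrix.mulVec (J n)
      (Matrix.mulVec g y)) := by
    rw [Matrix.mulVec_mulVec, Matrix.mulVec_mulVec, hg]
  rw [h1, Matrix.dotProduct_mulVec x, Matrix.vecMul_transpose]

theorem ac_one (x : Fin (n+1) → ℝ) : ac (1 : GLn n) x = x := by
  unfold ac
  simp

theorem ac_mul (g h : GLn n) (x : Fin (n+1) → ℝ) : ac (g * h) x = ac g (ac h x) := by
  unfold ac
  rw [Matrix.mulVec_mulVec, Units.val_mul]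

theorem ac_inv_ac (g : GLn n) (x : Fin (n+1) → ℝ) : ac g⁻¹ (ac g x) = x := by
  rw [← ac_mul, inv_mul_cancel, ac_one]

theorem ac_ac_inv (g : GLn n) (x : Fin (n+1) → ℝ) : ac g (ac g⁻¹ x) = x := by
  rw [← ac_mul, mul_inv_cancel, ac_one]

theorem ac_add (g : GLn n) (x y : Fin (n+1) → ℝ) : ac g (x + y) = ac g x + ac g y := by
  unfold ac
  rw [Matrix.mulVec_add]

theorem ac_smul (g : GLn n) (c : ℝ) (x : Fin (n+1) → ℝ) : ac g (c • x) = c • ac g x := by
  unfold ac
  rw [Matrix.mulVec_smul]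

theorem q_ac {g : GLn n} (hg : IsIso (g : Matrix (Fin (n+1)) (Fin (n+1)) ℝ))
    (x y : Fin (n+1) → ℝ) : q (ac g x) (ac g y) = q x y := q_mulVec hg.1 x y

end Pool.Agent.TGL
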