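import Pool.Agent.TGL.H8

/-!
# H12: trace and displacement
-/

set_option autoImplicit false
open Set

namespace Pool.Agent.TGL

variable {n : ℕ}

theorem h12_e0 : (Pi.single 0 1 : Fin (n+1) → ℝ) = e0 n := by
  funext i
  unfold e0
  rw [Pi.single_apply]

theorem h12_col {g : Matrix (Fin (n+1)) (Fin (n+1)) ℝ} (hg : g.transpose * J n * g = J n) (i : Fin (n+1)) :
    g 0 i * g 0 i - ∑ j : Fin n, g j.succ i * g j.succ i = if i = 0 then 1 else -1 := by
  have h1 := q_mulVec hg (Pi.single i 1) (Pi.single i 1)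
  rw [Matrix.mulVec_single_one] at h1
  have h2 : q (Pi.single i 1 : Fin (n+1) → ℝ) (Pi.single i 1) = if i = 0 then 1 else -1 := by
    unfold q
    refine Fin.cases ?_ (fun k => ?_) i
    · rw [if_pos rfl]
      simp [Fin.succ_ne_zero]
    · rw [if_neg (Fin.succ_ne_zero k)]
      simp [Pi.single_apply, (Fin.succ_ne_zero k).symm]
  rw [h2] at h1
  exact h1

/-- Diagonal entries are bounded by the `(0,0)` entry. Proof. Let `g ∈ O⁺(n,1)`. Then also `g J gᵀ = J`
(from `gᵀ J g = J` and `J² = 1`: `J gᵀ J` is a left inverse of `g`, so a right inverse,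
`Matrix.mul_eq_one_comm`). Entry `(0,0)` of `g J gᵀ = J`: `g₀₀² - ∑_{j≥1} g₀ⱼ² = 1`. Entry `(i,i)`, `i ≥ 1`, of
`gᵀ J g = J`: `g₀ᵢ² - ∑_{j≥1} gⱼᵢ² = -1`. Hence `gᵢᵢ² ≤ 1 + g₀ᵢ² ≤ g₀₀²` and `g₀₀ > 0`. -/
theorem abs_diag_le {g : Matrix (Fin (n+1)) (Fin (n+1)) ℝ} (hg : IsIso g) (i : Fin (n+1)) :
    |g i i| ≤ g 0 0 := by
  have hJ2 : J n * J n = 1 := by
    unfold J
    rw [Matrix.diagonal_mul_diagonal, ← Matrix.diagonal_one]
    congr 1
    funext j
    split_ifs <;> norm_num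
  have ht : g.transpose.transpose * J n * g.transpose = J n := by
    rw [Matrix.transpose_transpose]
    have h1 : (J n * g.transpose * J n) * g = 1 := by
      rw [Matrix.mul_assoc, Matrix.mul_assoc, ← Matrix.mul_assoc g.transpose, hg.1, hJ2]
    have h2 : g * (J n * g.transpose * J n) = 1 := mul_eq_one_comm.1 h1
    have h3 : g * J n * g.transpose = g * (J n * g.transpose * J n) * J n := by
      simp only [Matrix.mul_assoc]
      rw [hJ2, Matrix.mul_one]
    rw [h3, h2, Matrix.one_mul]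
  revert i
  refine Fin.cases ?_ fun k => ?_
  · exact (abs_of_pos hg.2).le
  · have c1 := h12_col hg.1 k.succ
    have c2 := h12_col ht 0
    rw [if_neg (Fin.succ_ne_zero k)] at c1
    rw [if_pos rfl] at c2
    simp only [Matrix.transpose_apply] at c2
    have b1 : g k.succ k.succ * g k.succ k.succ ≤ ∑ j : Fin n, g j.succ k.succ * g j.succ k.succ :=
      Finset.single_le_sum (f := fun j : Fin n => g j.succ k.succ * g j.succ k.succ)
        (fun j _ => mul_self_nonneg _) (Finset.mem_univ k)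
    have b2 : g 0 k.succ * g 0 k.succ ≤ ∑ j : Fin n, g 0 j.succ * g 0 j.succ :=
      Finset.single_le_sum (f := fun j : Fin n => g 0 j.succ * g 0 j.succ)
        (fun j _ => mul_self_nonneg _) (Finset.mem_univ k)
    refine abs_le_of_sq_le_sq ?_ hg.2.le
    nlinarith

/-- Proof. Let `A` be the reflection of `exists_refl` (`A *ᵥ e0 = x`, `A * A = 1`) and `g' = A g A`, which is in
`O⁺(n,1)` (`IsIso.mul`); `trace g' = trace g` (`Matrix.trace_mul_cycle`). `g' 0 0 = q e0 (g' *ᵥ e0) =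
q (A *ᵥ e0) (A *ᵥ g' *ᵥ e0) = q x (g *ᵥ x) = cosh (hd x (g *ᵥ x))`. By `abs_diag_le`
`|trace g'| ≤ ∑ |g' i i| ≤ (n+1) g' 0 0`. -/
theorem abs_tr_le {g : GLn n} (hg : IsIso (g : Matrix (Fin (n+1)) (Fin (n+1)) ℝ))
    {x : Fin (n+1) → ℝ} (hx : x ∈ Hyp n) :
    |tr g| ≤ ((n : ℝ) + 1) * Real.cosh (hd x (ac g x)) := by
  obtain ⟨A, hA, hAA, hAx⟩ := exists_refl hx
  obtain ⟨g', hg'⟩ : ∃ g' : Matrix (Fin (n+1)) (Fin (n+1)) ℝ,
    g' = A * (g : Matrix (Fin (n+1)) (Fin (n+1)) ℝ) * A := ⟨_, rfl⟩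
  have hI : IsIso g' := by
    rw [hg']
    exact (hA.mul hg).mul hA
  have htr : tr g = Matrix.trace g' := by
    rw [hg', Matrix.trace_mul_cycle, hAA, Matrix.one_mul]
    rfl
  have h00 : g' 0 0 = Real.cosh (hd x (ac g x)) := by
    rw [cosh_hd hx (ac_mem hg hx)]
    have h1 : g' 0 0 = q (e0 n) (Matrix.mulVec g' (e0 n)) := by
      rw [q_e0, ← h12_e0, Matrix.mulVec_single_one]
      rfl
    rw [h1, ← q_mulVec hA.1, hAx]
    congr 1
    rw [hg', Matrix.mulVec_mulVec, ← Matrix.mul_assoc, ← Matrix.mul_assoc, hAA, Matrix.one_mul,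
      ← Matrix.mulVec_mulVec, hAx]
    rfl
  rw [htr, ← h00]
  calc |Matrix.trace g'| = |∑ i, g' i i| := rfl
    _ ≤ ∑ i : Fin (n+1), |g' i i| := Finset.abs_sum_le_sum_abs _ _
    _ ≤ ∑ i : Fin (n+1), g' 0 0 := Finset.sum_le_sum fun i _ => abs_diag_le hI i
    _ = ((n : ℝ) + 1) * g' 0 0 := by
      rw [Finset.sum_const, Finset.card_univ, Fintype.card_fin, nsmul_eq_mul]
      push_cast
      ring

end Pool.Agent.TGL
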