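import Pool.Agent.TGL.H1

/-!
# H2: reverse Cauchy-Schwarz inequalities on the hyperboloid

Notation: for `x : Fin (n+1) → ℝ` write `x = (x0, x')`, so `q x y = x0 y0 - x'·y'`; `x ∈ Hyp n` iff
`x0 > 0` and `x0² = 1 + |x'|²` (`mem_Hyp`: `0 < x 0 ∧ q x x = 1`).
-/

set_option autoImplicit false
open Set

namespace Pool.Agent.TGL

variable {n : ℕ}

theorem h2_key {x w : Fin (n+1) → ℝ} (hx : x ∈ Hyp n) (h : q x w = 0) :
    x 0 ^ 2 * q w w ≤ -∑ i : Fin n, w i.succ ^ 2 := by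
  obtain ⟨hx0, hxx⟩ := mem_Hyp.1 hx
  have e1 : x 0 * x 0 - ∑ i : Fin n, x i.succ * x i.succ = 1 := hxx
  have e2 : x 0 * w 0 - ∑ i : Fin n, x i.succ * w i.succ = 0 := h
  have h1 := Finset.sum_mul_sq_le_sq_mul_sq Finset.univ (fun i : Fin n => x i.succ) (fun i : Fin n => w i.succ)
  have e3 : ∑ i : Fin n, x i.succ * x i.succ = ∑ i : Fin n, x i.succ ^ 2 :=
    Finset.sum_congr rfl fun i _ => (sq _).symm
  have e4 : ∑ i : Fin n, w i.succ * w i.succ = ∑ i : Fin n, w i.succ ^ 2 :=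
    Finset.sum_congr rfl fun i _ => (sq _).symm
  unfold q
  rw [e4]
  rw [e3] at e1
  set C := ∑ i : Fin n, x i.succ * w i.succ with hC
  set X := ∑ i : Fin n, x i.succ ^ 2 with hX
  set W := ∑ i : Fin n, w i.succ ^ 2 with hW
  have h2 : C = x 0 * w 0 := by linarith
  have h3 : X = x 0 ^ 2 - 1 := by linarith [sq (x 0)]
  rw [h2, h3] at h1
  nlinarith

theorem h2_e0 (g : Matrix (Fin (n+1)) (Fin (n+1)) ℝ) : Matrix.mulVec g (e0 n) 0 = g 0 0 := by
  unfold Matrix.mulVec dotProduct e0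
  simp

/-- Orthogonal complement of a point of the hyperboloid is negative definite.
Proof: `x0 w0 = x'·w'`, so by Cauchy-Schwarz (`Finset.sum_mul_sq_le_sq_mul_sq` or
`Finset.inner_mul_le_norm_mul_norm`) `x0² w0² ≤ |x'|² |w'|² = (x0² - 1)|w'|²`. Hence
`x0² (w0² - |w'|²) ≤ -|w'|² ≤ 0` and `q w w = w0² - |w'|² ≤ 0`. -/
theorem q_neg {x w : Fin (n+1) → ℝ} (hx : x ∈ Hyp n) (h : q x w = 0) : q w w ≤ 0 := by
  have h1 := h2_key hx h
  have h2 : 0 ≤ ∑ i : Fin n, w i.succ ^ 2 := Finset.sum_nonneg fun i _ => sq_nonneg _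
  have h3 := (mem_Hyp.1 hx).1
  have h4 : 0 < x 0 ^ 2 := by positivity
  by_contra hc
  push Not at hc
  nlinarith [mul_pos h4 hc]

/-- Definiteness. Proof: by the inequality in `q_neg`, `q w w = 0` gives `|w'|² ≤ 0`, so `w' = 0`, then
`w0² = 0`. -/
theorem q_neg_eq {x w : Fin (n+1) → ℝ} (hx : x ∈ Hyp n) (h : q x w = 0) (h0 : q w w = 0) : w = 0 := by
  have h1 := h2_key hx h
  rw [h0, mul_zero] at h1
  have h2 : 0 ≤ ∑ i : Fin n, w i.succ ^ 2 := Finset.sum_nonneg fun i _ => sq_nonneg _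
  have h3 : ∑ i : Fin n, w i.succ ^ 2 = 0 := by linarith
  have h4 : ∀ i : Fin n, w i.succ = 0 := by
    intro i
    have := (Finset.sum_eq_zero_iff_of_nonneg (fun i _ => sq_nonneg (w (Fin.succ i)))).1 h3 i (Finset.mem_univ i)
    exact pow_eq_zero_iff (two_ne_zero) |>.1 this
  have h5 : w 0 = 0 := by
    have h6 : w 0 * w 0 - ∑ i : Fin n, w i.succ * w i.succ = 0 := h0
    simp only [h4, mul_zero, Finset.sum_const_zero, sub_zero] at h6
    exact mul_self_eq_zero.1 h6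
  funext i
  refine Fin.cases h5 (fun j => h4 j) i

/-- Cauchy-Schwarz on the orthogonal complement. Proof: for all real `s` the vector `w + s w'` is
orthogonal to `x`, so `q w w + 2 s q w w' + s² q w' w' ≤ 0` by `q_neg`; the discriminant of this
quadratic polynomial in `s` is `≤ 0` (`discrim_le_zero_of_nonpos` in Mathlib, or plug in
`s = - q w w' / q w' w'`; if `q w' w' = 0` then `w' = 0` by `q_neg_eq`). -/
theorem q_cs {x w w' : Fin (n+1) → ℝ} (hx : x ∈ Hyp n) (h : q x w = 0) (h' : q x w' = 0) :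
    q w w' ^ 2 ≤ q w w * q w' w' := by
  have h1 : ∀ s : ℝ, q w' w' * (s * s) + (2 * q w w') * s + q w w ≤ 0 := by
    intro s
    have h2 : q x (w + s • w') = 0 := by rw [q_add_right, q_smul_right, h, h']; ring
    have h3 := q_neg hx h2
    have h4 : q (w + s • w') (w + s • w') = q w' w' * (s * s) + (2 * q w w') * s + q w w := by
      rw [q_add_right, q_add_left, q_add_left, q_smul_right, q_smul_right, q_smul_left, q_smul_left, q_comm w' w]
      ring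
    linarith
  have h5 := discrim_le_zero_of_nonpos h1
  unfold discrim at h5
  nlinarith

/-- Reverse Cauchy-Schwarz. Proof: `|x'·y'| ≤ |x'||y'|` and
`(x0 y0)² = (1 + |x'|²)(1 + |y'|²) ≥ (1 + |x'||y'|)²`, so `x0 y0 ≥ 1 + |x'||y'| ≥ 1 + x'·y'`.
(Alternatively: `w = y - q x y • x` is orthogonal to `x` and `q w w = 1 - (q x y)² ≤ 0` by `q_neg`, so
`|q x y| ≥ 1`; and `q x y > 0` since `x0 > |x'|`, `y0 > |y'|`.) -/
theorem one_le_q {x y : Fin (n+1) → ℝ} (hx : x ∈ Hyp n) (hy : y ∈ Hyp n) : 1 ≤ q x y := by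
  obtain ⟨hx0, hxx⟩ := mem_Hyp.1 hx
  obtain ⟨hy0, hyy⟩ := mem_Hyp.1 hy
  have e1 : x 0 * x 0 - ∑ i : Fin n, x i.succ * x i.succ = 1 := hxx
  have e2 : y 0 * y 0 - ∑ i : Fin n, y i.succ * y i.succ = 1 := hyy
  have h1 := Finset.sum_mul_sq_le_sq_mul_sq Finset.univ (fun i : Fin n => x i.succ) (fun i : Fin n => y i.succ)
  have h2 : 0 ≤ ∑ i : Fin n, (x i.succ - y i.succ) ^ 2 := Finset.sum_nonneg fun i _ => sq_nonneg _
  have h3 : ∑ i : Fin n, (x i.succ - y i.succ) ^ 2 =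
      ∑ i : Fin n, x i.succ ^ 2 + ∑ i : Fin n, y i.succ ^ 2 - 2 * ∑ i : Fin n, x i.succ * y i.succ := by
    rw [Finset.mul_sum, ← Finset.sum_add_distrib, ← Finset.sum_sub_distrib]
    exact Finset.sum_congr rfl fun i _ => by ring
  have e3 : ∑ i : Fin n, x i.succ * x i.succ = ∑ i : Fin n, x i.succ ^ 2 :=
    Finset.sum_congr rfl fun i _ => (sq _).symm
  have e4 : ∑ i : Fin n, y i.succ * y i.succ = ∑ i : Fin n, y i.succ ^ 2 :=
    Finset.sum_congr rfl fun i _ => (sq _).symm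
  rw [e3] at e1
  rw [e4] at e2
  rw [h3] at h2
  unfold q
  set C := ∑ i : Fin n, x i.succ * y i.succ with hC
  set X := ∑ i : Fin n, x i.succ ^ 2 with hX
  set Y := ∑ i : Fin n, y i.succ ^ 2 with hY
  have h4 : (1 + C) ^ 2 ≤ (x 0 * y 0) ^ 2 := by
    have h5 : (x 0 * y 0) ^ 2 = (1 + X) * (1 + Y) := by
      rw [mul_pow, show x 0 ^ 2 = 1 + X by linarith [sq (x 0)], show y 0 ^ 2 = 1 + Y by linarith [sq (y 0)]]
    rw [h5]
    nlinarith
  have h6 := abs_le_of_sq_le_sq h4 (by positivity)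
  have h7 := le_abs_self (1 + C)
  linarith

/-- Proof: `w = y - x` satisfies `q x w = 0`, `q w w = 0`, so `w = 0` by `q_neg_eq`. -/
theorem eq_of_q_eq_one {x y : Fin (n+1) → ℝ} (hx : x ∈ Hyp n) (hy : y ∈ Hyp n) (h : q x y = 1) :
    x = y := by
  have hxx := (mem_Hyp.1 hx).2
  have hyy := (mem_Hyp.1 hy).2
  have h1 : q x (y - x) = 0 := by rw [q_sub_right, h, hxx]; ring
  have h2 : q (y - x) (y - x) = 0 := by
    rw [q_sub_right, q_sub_left, q_sub_left, hyy, h, hxx, q_comm y x, h]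
    ring
  have h3 := q_neg_eq hx h1 h2
  exact (sub_eq_zero.1 h3).symm

/-- Proof: with `a = x - q x y • y` and `b = z - q y z • y`, both orthogonal to `y`, one has
`q a a = 1 - (q x y)²`, `q b b = 1 - (q y z)²`, `q a b = q x z - q x y * q y z`; use `q_cs`. -/
theorem q_triangle {x y z : Fin (n+1) → ℝ} (hx : x ∈ Hyp n) (hy : y ∈ Hyp n) (hz : z ∈ Hyp n) :
    (q x y * q y z - q x z) ^ 2 ≤ (q x y ^ 2 - 1) * (q y z ^ 2 - 1) := by
  have hxx := (mem_Hyp.1 hx).2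
  have hyy := (mem_Hyp.1 hy).2
  have hzz := (mem_Hyp.1 hz).2
  have ha : q y (x - q x y • y) = 0 := by rw [q_sub_right, q_smul_right, hyy, q_comm y x]; ring
  have hb : q y (z - q y z • y) = 0 := by rw [q_sub_right, q_smul_right, hyy]; ring
  have h1 := q_cs hy ha hb
  have e1 : q (x - q x y • y) (x - q x y • y) = 1 - q x y ^ 2 := by
    rw [q_sub_right, q_sub_left, q_sub_left, q_smul_right, q_smul_right, q_smul_left, q_smul_left, hxx, hyy,
      q_comm y x]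
    ring
  have e2 : q (z - q y z • y) (z - q y z • y) = 1 - q y z ^ 2 := by
    rw [q_sub_right, q_sub_left, q_sub_left, q_smul_right, q_smul_right, q_smul_left, q_smul_left, hzz, hyy,
      q_comm z y]
    ring
  have e3 : q (x - q x y • y) (z - q y z • y) = q x z - q x y * q y z := by
    rw [q_sub_right, q_sub_left, q_sub_left, q_smul_right, q_smul_right, q_smul_left, q_smul_left, hyy]
    ring
  rw [e1, e2, e3] at h1
  nlinarith

/-- A vector with `q y y = 1` and `q x y > 0` for some `x ∈ Hyp n` is in `Hyp n`.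
Proof: if `y0 ≤ 0` then (`y0² = 1 + |y'|²` so `y0 ≤ -1 < 0`) `-y ∈ Hyp n`, so `q x (-y) ≥ 1` by
`one_le_q`, contradiction with `q x y > 0`. -/
theorem mem_Hyp_of_q_pos {x y : Fin (n+1) → ℝ} (hx : x ∈ Hyp n) (hy : q y y = 1) (h : 0 < q x y) :
    y ∈ Hyp n := by
  rw [mem_Hyp]
  refine ⟨?_, hy⟩
  by_contra hc
  push Not at hc
  have e1 : y 0 * y 0 - ∑ i : Fin n, y i.succ * y i.succ = 1 := hy
  have h2 : 0 ≤ ∑ i : Fin n, y i.succ * y i.succ := Finset.sum_nonneg fun i _ => mul_self_nonneg _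
  have h3 : 0 < -y 0 := by
    rcases hc.lt_or_eq with h4 | h4
    · linarith
    · rw [h4] at e1
      linarith
  have h5 : -y ∈ Hyp n := by
    rw [mem_Hyp]
    refine ⟨h3, ?_⟩
    rw [q_neg_left, q_neg_right, hy]
    ring
  have h6 := one_le_q hx h5
  rw [q_neg_right] at h6
  linarith

/-- Elements of `O⁺(n,1)` preserve the hyperboloid. Proof: let `f = g *ᵥ e0`; its 0th coordinate is
`g 0 0 > 0` and `q f f = q e0 e0 = 1` (`q_mulVec`), so `f ∈ Hyp n`. `q f (g *ᵥ x) = q e0 x = x0 > 0`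
(`q_e0`), `q (g *ᵥ x) (g *ᵥ x) = 1`; use `mem_Hyp_of_q_pos`. -/
theorem mulVec_mem {g : Matrix (Fin (n+1)) (Fin (n+1)) ℝ} (hg : IsIso g) {x : Fin (n+1) → ℝ}
    (hx : x ∈ Hyp n) : Matrix.mulVec g x ∈ Hyp n := by
  have h1 : Matrix.mulVec g (e0 n) ∈ Hyp n := by
    rw [mem_Hyp, q_mulVec hg.1, h2_e0]
    exact ⟨hg.2, (mem_Hyp.1 e0_mem).2⟩
  refine mem_Hyp_of_q_pos h1 ?_ ?_
  · rw [q_mulVec hg.1]
    exact (mem_Hyp.1 hx).2
  · rw [q_mulVec hg.1, q_e0]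
    exact (mem_Hyp.1 hx).1

theorem ac_mem {g : GLn n} (hg : IsIso (g : Matrix (Fin (n+1)) (Fin (n+1)) ℝ)) {x : Fin (n+1) → ℝ}
    (hx : x ∈ Hyp n) : ac g x ∈ Hyp n := mulVec_mem hg hx

theorem IsIso.one : IsIso (1 : Matrix (Fin (n+1)) (Fin (n+1)) ℝ) := by
  refine ⟨?_, ?_⟩
  · rw [Matrix.transpose_one, one_mul, mul_one]
  · rw [Matrix.one_apply_eq]
    exact one_pos

/-- Proof: the equation is immediate; `(g * h) 0 0` is the 0th coordinate of `g *ᵥ (h *ᵥ e0)`, which is in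
`Hyp n` by `mulVec_mem`. -/
theorem IsIso.mul {g h : Matrix (Fin (n+1)) (Fin (n+1)) ℝ} (hg : IsIso g) (hh : IsIso h) :
    IsIso (g * h) := by
  refine ⟨?_, ?_⟩
  · have h1 : (g * h).transpose * J n * (g * h) = h.transpose * (g.transpose * J n * g) * h := by
      rw [Matrix.transpose_mul]
      simp only [Matrix.mul_assoc]
    rw [h1, hg.1, hh.1]
  · have h2 := (mem_Hyp.1 (mulVec_mem hg (mulVec_mem hh e0_mem))).1
    rw [Matrix.mulVec_mulVec, h2_e0] at h2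
    exact h2

/-- Proof: `g⁻¹ 0 0 = q e0 (g⁻¹ *ᵥ e0) = q (g *ᵥ e0) e0 = g 0 0` and the equation follows by
multiplying by `g⁻¹` on both sides. -/
theorem IsIso.inv {g : GLn n} (hg : IsIso (g : Matrix (Fin (n+1)) (Fin (n+1)) ℝ)) :
    IsIso ((g⁻¹ : GLn n) : Matrix (Fin (n+1)) (Fin (n+1)) ℝ) := by
  have hi : (g : Matrix (Fin (n+1)) (Fin (n+1)) ℝ) * ((g⁻¹ : GLn n) : Matrix (Fin (n+1)) (Fin (n+1)) ℝ) = 1 :=
    Units.mul_inv g
  have h1 : ((g⁻¹ : GLn n) : Matrix (Fin (n+1)) (Fin (n+1)) ℝ).transpose * J n *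
      ((g⁻¹ : GLn n) : Matrix (Fin (n+1)) (Fin (n+1)) ℝ) = J n := by
    have ht : ((g⁻¹ : GLn n) : Matrix (Fin (n+1)) (Fin (n+1)) ℝ).transpose *
        (g : Matrix (Fin (n+1)) (Fin (n+1)) ℝ).transpose = 1 := by
      rw [← Matrix.transpose_mul, hi, Matrix.transpose_one]
    calc ((g⁻¹ : GLn n) : Matrix (Fin (n+1)) (Fin (n+1)) ℝ).transpose * J n *
          ((g⁻¹ : GLn n) : Matrix (Fin (n+1)) (Fin (n+1)) ℝ)
        = ((g⁻¹ : GLn n) : Matrix (Fin (n+1)) (Fin (n+1)) ℝ).transpose *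
          ((g : Matrix (Fin (n+1)) (Fin (n+1)) ℝ).transpose * J n * (g : Matrix (Fin (n+1)) (Fin (n+1)) ℝ)) *
          ((g⁻¹ : GLn n) : Matrix (Fin (n+1)) (Fin (n+1)) ℝ) := by rw [hg.1]
      _ = (((g⁻¹ : GLn n) : Matrix (Fin (n+1)) (Fin (n+1)) ℝ).transpose *
          (g : Matrix (Fin (n+1)) (Fin (n+1)) ℝ).transpose) * J n * ((g : Matrix (Fin (n+1)) (Fin (n+1)) ℝ) *
          ((g⁻¹ : GLn n) : Matrix (Fin (n+1)) (Fin (n+1)) ℝ)) := by
            simp only [Matrix.mul_assoc]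
      _ = J n := by rw [ht, hi, one_mul, mul_one]
  refine ⟨h1, ?_⟩
  have h2 : q (e0 n) (Matrix.mulVec ((g⁻¹ : GLn n) : Matrix (Fin (n+1)) (Fin (n+1)) ℝ) (e0 n)) =
      (g : Matrix (Fin (n+1)) (Fin (n+1)) ℝ) 0 0 := by
    rw [← q_mulVec hg.1, Matrix.mulVec_mulVec, hi, Matrix.one_mulVec, q_comm, q_e0, h2_e0]
  rw [q_e0, h2_e0] at h2
  rw [h2]
  exact hg.2

end Pool.Agent.TGL
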