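import Pool.Agent.TGL.H2

/-!
# H3: the hyperbolic distance `hd x y = arcosh (q x y)`

Mathlib: `Real.cosh_arcosh`, `Real.arcosh_nonneg`, `Real.arcosh_cosh`, `Real.sinh_arcosh`,
`Real.arcosh_le_arcosh`, `Real.arcosh_eq_zero_iff`, `Real.cosh_le_cosh`, `Real.cosh_add`.
-/

set_option autoImplicit false
open Set

namespace Pool.Agent.TGL

variable {n : ℕ}

theorem hd_nonneg {x y : Fin (n+1) → ℝ} (hx : x ∈ Hyp n) (hy : y ∈ Hyp n) : 0 ≤ hd x y := by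
  exact Real.arcosh_nonneg (one_le_q hx hy)

theorem hd_symm (x y : Fin (n+1) → ℝ) : hd x y = hd y x := by
  unfold hd
  rw [q_comm]

theorem hd_self {x : Fin (n+1) → ℝ} (hx : x ∈ Hyp n) : hd x x = 0 := by
  unfold hd
  rw [(mem_Hyp.1 hx).2, Real.arcosh_zero]

theorem cosh_hd {x y : Fin (n+1) → ℝ} (hx : x ∈ Hyp n) (hy : y ∈ Hyp n) :
    Real.cosh (hd x y) = q x y := by
  exact Real.cosh_arcosh (one_le_q hx hy)

theorem hd_eq_zero {x y : Fin (n+1) → ℝ} (hx : x ∈ Hyp n) (hy : y ∈ Hyp n) (h : hd x y = 0) :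
    x = y := by
  exact eq_of_q_eq_one hx hy ((Real.arcosh_eq_zero_iff (one_le_q hx hy)).1 h)

/-- For `r ≥ 0`: `hd x y ≤ r` iff `q x y ≤ cosh r`. -/
theorem hd_le_iff {x y : Fin (n+1) → ℝ} (hx : x ∈ Hyp n) (hy : y ∈ Hyp n) {r : ℝ} (hr : 0 ≤ r) :
    hd x y ≤ r ↔ q x y ≤ Real.cosh r := by
  rw [← cosh_hd hx hy, Real.cosh_le_cosh, abs_of_nonneg (hd_nonneg hx hy), abs_of_nonneg hr]

/-- For `r ≥ 0`: `r ≤ hd x y` iff `cosh r ≤ q x y`. -/
theorem le_hd_iff {x y : Fin (n+1) → ℝ} (hx : x ∈ Hyp n) (hy : y ∈ Hyp n) {r : ℝ} (hr : 0 ≤ r) :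
    r ≤ hd x y ↔ Real.cosh r ≤ q x y := by
  rw [← cosh_hd hx hy, Real.cosh_le_cosh, abs_of_nonneg (hd_nonneg hx hy), abs_of_nonneg hr]

/-- Triangle inequality. Proof: put `a = hd x y`, `b = hd y z` (both `≥ 0`), so
`cosh (a+b) = cosh a cosh b + sinh a sinh b` with `cosh a = q x y`, `cosh b = q y z`,
`sinh a = √(q x y² - 1)`, `sinh b = √(q y z² - 1)`. By `q_triangle`,
`q x z ≤ q x y q y z + |q x y q y z - q x z| ≤ cosh a cosh b + sinh a sinh b`. Use `hd_le_iff`. -/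
theorem hd_triangle {x y z : Fin (n+1) → ℝ} (hx : x ∈ Hyp n) (hy : y ∈ Hyp n) (hz : z ∈ Hyp n) :
    hd x z ≤ hd x y + hd y z := by
  have h1 := hd_nonneg hx hy
  have h2 := hd_nonneg hy hz
  rw [hd_le_iff hx hz (add_nonneg h1 h2), Real.cosh_add, cosh_hd hx hy, cosh_hd hy hz]
  have h3 := q_triangle hx hy hz
  have e1 : Real.sinh (hd x y) ^ 2 = q x y ^ 2 - 1 := by
    rw [Real.sinh_sq, cosh_hd hx hy]
  have e2 : Real.sinh (hd y z) ^ 2 = q y z ^ 2 - 1 := by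
    rw [Real.sinh_sq, cosh_hd hy hz]
  rw [← e1, ← e2, ← mul_pow] at h3
  have h4 : 0 ≤ Real.sinh (hd x y) * Real.sinh (hd y z) :=
    mul_nonneg (Real.sinh_nonneg_iff.2 h1) (Real.sinh_nonneg_iff.2 h2)
  have h5 := abs_le_of_sq_le_sq h3 h4
  have h6 := neg_abs_le (q x y * q y z - q x z)
  linarith

/-- Isometries preserve the distance. -/
theorem hd_ac {g : GLn n} (hg : IsIso (g : Matrix (Fin (n+1)) (Fin (n+1)) ℝ))
    (x y : Fin (n+1) → ℝ) : hd (ac g x) (ac g y) = hd x y := by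
  unfold hd
  rw [q_ac hg]

/-- The distance as a pseudo-metric on the hyperboloid. -/
theorem pmet_hd : PMet (fun x y : Hyp n => hd x.1 y.1) := by
  refine ⟨fun x => hd_self x.2, fun x y => hd_symm _ _, fun x y z => hd_triangle x.2 y.2 z.2⟩

end Pool.Agent.TGL
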