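import Pool.Agent.TGL.H3

/-!
# H4: rays `ray x v t = cosh t • x + sinh t • v` (with `q x v = 0`, `q v v = -1`)
-/

set_option autoImplicit false
open Set

namespace Pool.Agent.TGL

variable {n : ℕ}

/-- Proof: expand by bilinearity (`q_add_left`, `q_smul_left`, …) with `q x x = 1`, `q x u = q x v = 0`. -/
theorem q_ray_ray {x u v : Fin (n+1) → ℝ} (hx : x ∈ Hyp n) (hu : IsUT x u) (hv : IsUT x v) (s t : ℝ) :
    q (ray x u s) (ray x v t) = Real.cosh s * Real.cosh t + q u v * (Real.sinh s * Real.sinh t) := by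
  have h1 : q x x = 1 := (mem_Hyp.1 hx).2
  have h2 : q u x = 0 := by rw [q_comm, hu.1]
  unfold ray
  rw [q_add_left, q_smul_left, q_smul_left, q_add_right, q_add_right, q_smul_right, q_smul_right,
    q_smul_right, q_smul_right, h1, h2, hv.1]
  ring

/-- Proof: `q_ray_ray` with `u = v`, `q v v = -1`, and `Real.cosh_sub`. -/
theorem q_ray {x v : Fin (n+1) → ℝ} (hx : x ∈ Hyp n) (hv : IsUT x v) (s t : ℝ) :
    q (ray x v s) (ray x v t) = Real.cosh (s - t) := by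
  rw [q_ray_ray hx hv hv, hv.2, Real.cosh_sub]
  ring

theorem ray_zero (x v : Fin (n+1) → ℝ) : ray x v 0 = x := by
  unfold ray
  rw [Real.cosh_zero, Real.sinh_zero, one_smul, zero_smul, add_zero]

/-- Proof: `q (ray x v t) (ray x v t) = cosh 0 = 1`, `q x (ray x v t) = cosh t > 0`
(`q_ray` with `s = 0`); use `mem_Hyp_of_q_pos`. -/
theorem ray_mem {x v : Fin (n+1) → ℝ} (hx : x ∈ Hyp n) (hv : IsUT x v) (t : ℝ) :
    ray x v t ∈ Hyp n := by
  apply mem_Hyp_of_q_pos hx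
  · rw [q_ray hx hv, sub_self, Real.cosh_zero]
  · have h1 := q_ray hx hv 0 t
    rw [ray_zero] at h1
    rw [h1]
    exact Real.cosh_pos _

/-- Proof: `arcosh (cosh (s-t)) = arcosh (cosh |s-t|) = |s-t|` (`Real.cosh_abs`). -/
theorem hd_ray {x v : Fin (n+1) → ℝ} (hx : x ∈ Hyp n) (hv : IsUT x v) (s t : ℝ) :
    hd (ray x v s) (ray x v t) = |s - t| := by
  unfold hd
  rw [q_ray hx hv, ← Real.cosh_abs, Real.arcosh_cosh (abs_nonneg _)]

theorem hd_self_ray {x v : Fin (n+1) → ℝ} (hx : x ∈ Hyp n) (hv : IsUT x v) (t : ℝ) :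
    hd x (ray x v t) = |t| := by
  have h1 := hd_ray hx hv 0 t
  rw [ray_zero, zero_sub, abs_neg] at h1
  exact h1

/-- Proof: `q_cs` gives `(q u v)² ≤ (-1)(-1) = 1`. -/
theorem abs_q_UT {x u v : Fin (n+1) → ℝ} (hx : x ∈ Hyp n) (hu : IsUT x u) (hv : IsUT x v) :
    |q u v| ≤ 1 := by
  have h1 := q_cs hx hu.1 hv.1
  rw [hu.2, hv.2] at h1
  rw [← sq_le_one_iff_abs_le_one]
  linarith

/-- Every point of the hyperboloid other than `x` is on a ray from `x`.
Proof: let `r = hd x y > 0`, `v = (sinh r)⁻¹ • (y - cosh r • x)`. As `cosh r = q x y`, `q x v = 0` and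
`q v v = (1 - cosh² r)/sinh² r = -1`; `cosh r • x + sinh r • v = y`. -/
theorem exists_ray_of_ne {x y : Fin (n+1) → ℝ} (hx : x ∈ Hyp n) (hy : y ∈ Hyp n) (hxy : x ≠ y) :
    ∃ v, IsUT x v ∧ y = ray x v (hd x y) := by
  have h1 : q x x = 1 := (mem_Hyp.1 hx).2
  have h2 : q y y = 1 := (mem_Hyp.1 hy).2
  have hr : 0 < hd x y := lt_of_le_of_ne (hd_nonneg hx hy) (fun h => hxy (hd_eq_zero hx hy h.symm))
  have hs : 0 < Real.sinh (hd x y) := Real.sinh_pos_iff.2 hr
  have hc : Real.cosh (hd x y) = q x y := cosh_hd hx hy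
  have hcs : q x y ^ 2 - Real.sinh (hd x y) ^ 2 = 1 := by
    rw [← hc]
    exact Real.cosh_sq_sub_sinh_sq _
  refine ⟨(Real.sinh (hd x y))⁻¹ • (y - q x y • x), ⟨?_, ?_⟩, ?_⟩
  · rw [q_smul_right, q_sub_right, q_smul_right, h1]
    ring
  · rw [q_smul_right, q_smul_left, q_sub_right, q_smul_right, q_sub_left, q_sub_left, q_smul_left,
      q_smul_left, h1, h2, q_comm y x]
    field_simp
    linarith
  · unfold ray
    rw [smul_smul, mul_inv_cancel₀ hs.ne', one_smul, hc, add_sub_cancel]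

end Pool.Agent.TGL
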