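import Pool.Agent.TGL.H4

/-!
# H8: reflections exchanging `e0` and `c`; existence of tangent vectors
-/

set_option autoImplicit false
open Set

namespace Pool.Agent.TGL

variable {n : ℕ}

theorem h8a_ext {M N : Matrix (Fin (n+1)) (Fin (n+1)) ℝ}
    (h : ∀ x y : Fin (n+1) → ℝ, x ⬝ᵥ (Matrix.mulVec M y) = x ⬝ᵥ (Matrix.mulVec N y)) : M = N := by
  ext i j
  have h1 := h (Pi.single i 1) (Pi.single j 1)
  simpa using h1

theorem h8a_mulVec (w : Fin (n+1) → ℝ) (k : ℝ) (x : Fin (n+1) → ℝ) :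
    Matrix.mulVec (1 - k • Matrix.vecMulVec w (Matrix.mulVec (J n) w)) x = x - (k * q x w) • w := by
  rw [Matrix.sub_mulVec, Matrix.one_mulVec, Matrix.smul_mulVec, q_eq_J]
  congr 1
  ext i
  simp only [Pi.smul_apply, smul_eq_mul, Matrix.mulVec, Matrix.vecMulVec, Matrix.of_apply, dotProduct,
    Finset.mul_sum, Finset.sum_mul]
  refine Finset.sum_congr rfl fun j _ => ?_
  refine Finset.sum_congr rfl fun l _ => ?_
  ring

/-- Proof. If `c = e0` take `A = 1`. Otherwise let `w = c - e0`; then `q w w = 2 - 2 q c e0 = 2 - 2 c0 < 0`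
(as `q c e0 ≥ 1`, and `= 1` only if `c = e0`, by `one_le_q`, `eq_of_q_eq_one`). Let `A` be the matrix of
the linear map `x ↦ x - (2 q x w / q w w) • w` (for instance
`A = 1 - (2 / q w w) • Matrix.vecMulVec w (J n *ᵥ w)`, since `q x w = (J n *ᵥ w) ⬝ᵥ x`). Then
`q (A x) (A y) = q x y` for all `x, y`, i.e. `Aᵀ J A = J` (compare entries: `q` of basis vectors), `A A = 1`,
and `A e0 = e0 - (2 q e0 w/q w w) • w` with `q e0 w = c0 - 1 = - q w w / 2`, so `A e0 = e0 + w = c`.
`A 0 0` is the 0th coordinate of `A e0 = c`, hence `> 0`. -/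
theorem exists_refl {c : Fin (n+1) → ℝ} (hc : c ∈ Hyp n) :
    ∃ A : Matrix (Fin (n+1)) (Fin (n+1)) ℝ, IsIso A ∧ A * A = 1 ∧ Matrix.mulVec A (e0 n) = c := by
  by_cases hce : c = e0 n
  · refine ⟨1, IsIso.one, by rw [mul_one], ?_⟩
    rw [Matrix.one_mulVec, hce]
  · obtain ⟨w, hw⟩ : ∃ w, w = c - e0 n := ⟨_, rfl⟩
    have hcc : q c c = 1 := (mem_Hyp.1 hc).2
    have hc0 : 0 < c 0 := (mem_Hyp.1 hc).1
    have hee : q (e0 n) (e0 n) = 1 := (mem_Hyp.1 e0_mem).2
    have hge : 1 ≤ q c (e0 n) := one_le_q hc e0_mem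
    have hne : q c (e0 n) ≠ 1 := fun h => hce (eq_of_q_eq_one hc e0_mem h)
    have hgt : 1 < q c (e0 n) := lt_of_le_of_ne hge (Ne.symm hne)
    have hww : q w w = 2 - 2 * q c (e0 n) := by
      rw [hw, q_sub_left, q_sub_right, q_sub_right, hcc, hee, q_comm (e0 n) c]
      ring
    have hww0 : q w w ≠ 0 := by
      rw [hww]
      intro h
      linarith
    obtain ⟨k, hk⟩ : ∃ k, k = 2 / q w w := ⟨_, rfl⟩
    have hkw : k * q w w = 2 := by
      rw [hk, div_mul_cancel₀ _ hww0]
    obtain ⟨A, hA⟩ : ∃ A, A = 1 - k • Matrix.vecMulVec w (Matrix.mulVec (J n) w) := ⟨_, rfl⟩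
    have hAx : ∀ x, Matrix.mulVec A x = x - (k * q x w) • w := by
      intro x
      rw [hA]
      exact h8a_mulVec w k x
    have hq : ∀ x y, q (Matrix.mulVec A x) (Matrix.mulVec A y) = q x y := by
      intro x y
      rw [hAx, hAx, q_sub_left, q_sub_right, q_sub_right, q_smul_left, q_smul_right, q_smul_left, q_smul_right,
        q_comm w y]
      linear_combination (k * q x w * q y w) * hkw
    have hAA : ∀ x, Matrix.mulVec A (Matrix.mulVec A x) = x := by
      intro x
      rw [hAx (Matrix.mulVec A x)]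
      have h1 : q (Matrix.mulVec A x) w = -q x w := by
        rw [hAx, q_sub_left, q_smul_left]
        linear_combination (-q x w) * hkw
      rw [h1, hAx]
      rw [mul_neg, neg_smul]
      abel
    have hAe : Matrix.mulVec A (e0 n) = c := by
      rw [hAx]
      have h1 : k * q (e0 n) w = -1 := by
        have h2 : q (e0 n) w = -(q w w) / 2 := by
          rw [hww, hw, q_sub_right, hee, q_comm (e0 n) c]
          ring
        rw [h2]
        linear_combination (-1 / 2) * hkw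
      rw [h1, hw, neg_smul, one_smul, sub_neg_eq_add, add_sub_cancel]
    refine ⟨A, ⟨?_, ?_⟩, ?_, hAe⟩
    · apply h8a_ext
      intro x y
      rw [← q_eq_J, ← hq x y, q_eq_J (Matrix.mulVec A x), ← Matrix.mulVec_mulVec, ← Matrix.mulVec_mulVec,
        Matrix.dotProduct_mulVec x, Matrix.vecMul_transpose]
    · have h1 : A 0 0 = c 0 := by
        rw [← hAe]
        simp only [Matrix.mulVec, dotProduct, e0]
        rw [Finset.sum_eq_single 0]
        · simp
        · intro j _ hj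
          rw [if_neg hj, mul_zero]
        · intro h
          exact absurd (Finset.mem_univ _) h
      rw [h1]
      exact hc0
    · apply h8a_ext
      intro x y
      rw [← Matrix.mulVec_mulVec, hAA, Matrix.one_mulVec]

/-- The `i`-th standard basis vector (`i ≥ 1`) is a unit tangent vector at `e0`; transport by the
reflection of `exists_refl`. Proof: for `i : Fin n` let `b i = Pi.single i.succ 1`; `q (e0 n) (b i) = 0`,
`q (b i) (b j) = -1` if `i = j` and `0` otherwise; put `f i = A *ᵥ b i` and use `q_mulVec`. -/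
theorem exists_frame {c : Fin (n+1) → ℝ} (hc : c ∈ Hyp n) :
    ∃ f : Fin n → (Fin (n+1) → ℝ), (∀ i, IsUT c (f i)) ∧ ∀ i j, i ≠ j → q (f i) (f j) = 0 := by
  obtain ⟨A, hA, -, hAc⟩ := exists_refl hc
  have h0 : ∀ i : Fin n, (Pi.single i.succ 1 : Fin (n+1) → ℝ) 0 = 0 := fun i =>
    Pi.single_eq_of_ne (Fin.succ_ne_zero i).symm _
  have hs : ∀ i k : Fin n, (Pi.single i.succ 1 : Fin (n+1) → ℝ) k.succ = if k = i then 1 else 0 := by
    intro i k
    by_cases h : k = i
    · rw [h, Pi.single_eq_same, if_pos rfl]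
    · rw [if_neg h, Pi.single_eq_of_ne (fun hh => h (Fin.succ_injective _ hh))]
  have hq : ∀ i j : Fin n, q (Pi.single i.succ 1 : Fin (n+1) → ℝ) (Pi.single j.succ 1) =
      -(if i = j then 1 else 0) := by
    intro i j
    unfold q
    rw [h0 i, zero_mul, zero_sub]
    congr 1
    simp only [hs]
    rw [Finset.sum_eq_single i]
    · rw [if_pos rfl, one_mul]
    · intro b _ hb
      rw [if_neg hb, zero_mul]
    · intro h
      exact absurd (Finset.mem_univ i) h
  refine ⟨fun i => Matrix.mulVec A (Pi.single i.succ 1), fun i => ⟨?_, ?_⟩, fun i j hij => ?_⟩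
  · rw [← hAc, q_mulVec hA.1, q_e0, h0]
  · rw [q_mulVec hA.1, hq, if_pos rfl]
  · show q (Matrix.mulVec A (Pi.single i.succ 1)) (Matrix.mulVec A (Pi.single j.succ 1)) = 0
    rw [q_mulVec hA.1, hq, if_neg hij, neg_zero]

/-- Every point of the hyperboloid is on a ray from `x` (`n ≥ 1`). Proof: `exists_ray_of_ne` if `y ≠ x`;
if `y = x` then `hd x y = 0`, take any unit tangent vector (`exists_frame`) and `ray_zero`. -/
theorem exists_ray (hn : 1 ≤ n) {x y : Fin (n+1) → ℝ} (hx : x ∈ Hyp n) (hy : y ∈ Hyp n) :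
    ∃ v, IsUT x v ∧ y = ray x v (hd x y) := by
  by_cases hxy : x = y
  · subst hxy
    obtain ⟨f, hf, -⟩ := exists_frame hx
    refine ⟨f ⟨0, hn⟩, hf _, ?_⟩
    rw [hd_self hx, ray_zero]
  · exact exists_ray_of_ne hx hy hxy

/-- Geodesics. Proof: `g t = ray x v t` with `v` from `exists_ray`; `ray_zero`, `ray_mem`, `hd_ray`. -/
theorem exists_geod (hn : 1 ≤ n) {x y : Fin (n+1) → ℝ} (hx : x ∈ Hyp n) (hy : y ∈ Hyp n) :
    ∃ g : ℝ → Fin (n+1) → ℝ, g 0 = x ∧ g (hd x y) = y ∧ (∀ t, g t ∈ Hyp n) ∧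
      ∀ s t, hd (g s) (g t) = |s - t| := by
  obtain ⟨v, hv, hyv⟩ := exists_ray hn hx hy
  exact ⟨fun t => ray x v t, ray_zero x v, hyv.symm, fun t => ray_mem hx hv t, fun s t => hd_ray hx hv s t⟩

end Pool.Agent.TGL
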