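import Pool.Agent.TGL.Defs

/-!
# R1: if short words have traces in a subfield `k` of `ℝ`, all words do
-/

set_option autoImplicit false

namespace Pool.Agent.TGL

/-- the products of words of length at most `k` -/
def r1W {m : Type} [Fintype m] [DecidableEq m] (S : Set (Matrix m m ℝ)) (k : ℕ) :
    Set (Matrix m m ℝ) :=
  {x : Matrix m m ℝ | ∃ w : List (Matrix m m ℝ), (∀ y ∈ w, y ∈ S) ∧ w.length ≤ k ∧ x = w.prod}

theorem r1W_mono {m : Type} [Fintype m] [DecidableEq m] (S : Set (Matrix m m ℝ)) {k k' : ℕ}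
    (h : k ≤ k') : Submodule.span ℝ (r1W S k) ≤ Submodule.span ℝ (r1W S k') := by
  apply Submodule.span_mono
  rintro x ⟨w, h1, h2, h3⟩
  exact ⟨w, h1, h2.trans h, h3⟩

theorem r1W_mul {m : Type} [Fintype m] [DecidableEq m] (S : Set (Matrix m m ℝ)) (k : ℕ)
    {s : Matrix m m ℝ} (hs : s ∈ S) {x : Matrix m m ℝ} (hx : x ∈ Submodule.span ℝ (r1W S k)) :
    s * x ∈ Submodule.span ℝ (r1W S (k + 1)) := by
  induction hx using Submodule.span_induction with
  | mem x hx =>
    obtain ⟨w, h1, h2, rfl⟩ := hx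
    apply Submodule.subset_span
    refine ⟨s :: w, ?_, ?_, ?_⟩
    · intro y hy
      rcases List.mem_cons.1 hy with rfl | hy
      · exact hs
      · exact h1 y hy
    · rw [List.length_cons]
      omega
    · rw [List.prod_cons]
  | zero => rw [mul_zero]; exact Submodule.zero_mem _
  | add x y _ _ hx hy => rw [mul_add]; exact Submodule.add_mem _ hx hy
  | smul c x _ hx => rw [mul_smul_comm]; exact Submodule.smul_mem _ _ hx

theorem r1W_stable {m : Type} [Fintype m] [DecidableEq m] (S : Set (Matrix m m ℝ)) (Nd : ℕ)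
    (hNd : Fintype.card m ^ 2 ≤ Nd) : ∃ k ≤ Nd,
      Submodule.span ℝ (r1W S k) = Submodule.span ℝ (r1W S (k + 1)) := by
  by_contra hcon
  push Not at hcon
  have h1 : ∀ k ≤ Nd + 1, k ≤ Module.finrank ℝ (Submodule.span ℝ (r1W S k)) := by
    intro k
    induction k with
    | zero => intro _; exact Nat.zero_le _
    | succ k ih =>
      intro hk
      have h2 := ih (by omega)
      have h3 : Submodule.span ℝ (r1W S k) < Submodule.span ℝ (r1W S (k + 1)) :=
        lt_of_le_of_ne (r1W_mono S (Nat.le_succ k)) (hcon k (by omega))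
      have h4 := Submodule.finrank_lt_finrank_of_lt h3
      omega
  have h2 := h1 (Nd + 1) le_rfl
  have h3 := Submodule.finrank_le (Submodule.span ℝ (r1W S (Nd + 1)))
  rw [Module.finrank_matrix] at h3
  simp only [Module.finrank_self, mul_one] at h3
  rw [sq] at hNd
  omega

/-- Words of length `≤ Nd` (`Nd ≥ dim`) span the span of all words.
Proof. Let `W ℓ` be the real span of the products of lists of elements of `S` of length `≤ ℓ`. `W` is increasing,
`W (ℓ+1) = span (W ℓ ∪ ⋃_{s∈S} s * W ℓ)`, so `W ℓ = W (ℓ+1)` implies `W ℓ = W ℓ'` for all `ℓ' ≥ ℓ`. As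
`finrank (W ℓ) ≤ finrank (Matrix m m ℝ) = (card m)^2 ≤ Nd` and `finrank (W 0) ≥ 0`, the chain
`W 0 ≤ W 1 ≤ … ≤ W (Nd + 1)` cannot be strictly increasing at all `Nd + 1` steps, so some `W ℓ = W (ℓ+1)` with `ℓ ≤ Nd`. -/
theorem word_mem_span {m : Type} [Fintype m] [DecidableEq m] (S : Set (Matrix m m ℝ)) (Nd : ℕ)
    (hNd : Fintype.card m ^ 2 ≤ Nd) (l : List (Matrix m m ℝ)) (hl : ∀ x ∈ l, x ∈ S) :
    l.prod ∈ Submodule.span ℝ {x : Matrix m m ℝ | ∃ w : List (Matrix m m ℝ), (∀ y ∈ w, y ∈ S) ∧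
      w.length ≤ Nd ∧ x = w.prod} := by
  obtain ⟨k, hk, hst⟩ := r1W_stable S Nd hNd
  have key : ∀ l : List (Matrix m m ℝ), (∀ x ∈ l, x ∈ S) → l.prod ∈ Submodule.span ℝ (r1W S k) := by
    intro l
    induction l with
    | nil =>
      intro _
      apply Submodule.subset_span
      exact ⟨[], by simp, by simp, rfl⟩
    | cons s l ih =>
      intro hl
      rw [List.prod_cons, hst]
      exact r1W_mul S k (hl s List.mem_cons_self) (ih (fun x hx => hl x (List.mem_cons_of_mem _ hx)))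
  exact r1W_mono S hk (key l hl)

private theorem r1b_proj (k : Subfield ℝ) : ∃ π : ℝ →ₗ[k] k, ∀ x : k, π (x : ℝ) = x := by
  have hinj : LinearMap.ker (Algebra.linearMap k ℝ) = ⊥ := by
    rw [LinearMap.ker_eq_bot]
    exact Subtype.val_injective
  obtain ⟨g, hg⟩ := LinearMap.exists_leftInverse_of_injective (Algebra.linearMap k ℝ) hinj
  refine ⟨g, fun x => ?_⟩
  have := LinearMap.congr_fun hg x
  exact this

private theorem r1b_wtrace {m : Type} [Fintype m] [DecidableEq m] (S : Set (Matrix m m ℝ))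
    (k : Subfield ℝ) (Nd : ℕ)
    (h : ∀ l : List (Matrix m m ℝ), (∀ x ∈ l, x ∈ S) → l.length ≤ 2 * Nd + 1 →
      Matrix.trace l.prod ∈ k) (z : Matrix m m ℝ)
    (hz : z ∈ Submodule.span k {x : Matrix m m ℝ | ∃ w : List (Matrix m m ℝ), (∀ y ∈ w, y ∈ S) ∧
      w.length ≤ Nd ∧ x = w.prod}) : Matrix.trace z ∈ k := by
  induction hz using Submodule.span_induction with
  | mem x hx =>
    obtain ⟨w, hw, hlen, rfl⟩ := hx
    exact h w hw (by omega)
  | zero => simp
  | add x y _ _ hx hy =>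
    rw [Matrix.trace_add]
    exact k.add_mem hx hy
  | smul a x _ hx =>
    have h1 : Matrix.trace (a • x) = (a : ℝ) * Matrix.trace x := by
      rw [Matrix.trace_smul, Subfield.smul_def, smul_eq_mul]
    rw [h1]
    exact k.mul_mem a.2 hx

private theorem r1b_step {m : Type} [Fintype m] [DecidableEq m] (S : Set (Matrix m m ℝ))
    (k : Subfield ℝ) (Nd : ℕ)
    (h : ∀ l : List (Matrix m m ℝ), (∀ x ∈ l, x ∈ S) → l.length ≤ 2 * Nd + 1 →
      Matrix.trace l.prod ∈ k) (π : ℝ →ₗ[k] k) (hπ : ∀ x : k, π (x : ℝ) = x) (x : Matrix m m ℝ)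
    (hx : x ∈ Submodule.span ℝ {x : Matrix m m ℝ | ∃ w : List (Matrix m m ℝ), (∀ y ∈ w, y ∈ S) ∧
      w.length ≤ Nd ∧ x = w.prod}) :
    ∀ a : ℝ, ∃ z ∈ Submodule.span k {x : Matrix m m ℝ | ∃ w : List (Matrix m m ℝ),
      (∀ y ∈ w, y ∈ S) ∧ w.length ≤ Nd ∧ x = w.prod}, ∀ w' : List (Matrix m m ℝ),
      (∀ y ∈ w', y ∈ S) → w'.length ≤ Nd →
        Matrix.trace (z * w'.prod) = ((π (a * Matrix.trace (x * w'.prod)) : k) : ℝ) := by
  induction hx using Submodule.span_induction with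
  | mem x hx =>
    intro a
    refine ⟨π a • x, Submodule.smul_mem _ _ (Submodule.subset_span hx), ?_⟩
    intro w' hw' hlen'
    obtain ⟨w, hw, hlen, rfl⟩ := hx
    have h1 : Matrix.trace (w.prod * w'.prod) ∈ k := by
      rw [← List.prod_append]
      apply h
      · intro y hy
        rcases List.mem_append.1 hy with h | h
        · exact hw y h
        · exact hw' y h
      · rw [List.length_append]; omega
    have h2 : a * Matrix.trace (w.prod * w'.prod) =
        (⟨_, h1⟩ : k) • a := by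
      rw [Subfield.smul_def, smul_eq_mul, mul_comm]
    rw [h2, map_smul, Matrix.smul_mul, Matrix.trace_smul, Subfield.smul_def, smul_eq_mul,
      smul_eq_mul]
    push_cast
    ring
  | zero =>
    intro a
    exact ⟨0, Submodule.zero_mem _, by intro w' _ _; simp⟩
  | add x y _ _ hx hy =>
    intro a
    obtain ⟨z1, hz1, h1⟩ := hx a
    obtain ⟨z2, hz2, h2⟩ := hy a
    refine ⟨z1 + z2, Submodule.add_mem _ hz1 hz2, ?_⟩
    intro w' hw' hlen'
    rw [add_mul, add_mul, Matrix.trace_add, Matrix.trace_add, h1 w' hw' hlen', h2 w' hw' hlen',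
      mul_add, map_add]
    push_cast
    ring
  | smul c x _ hx =>
    intro a
    obtain ⟨z1, hz1, h1⟩ := hx (a * c)
    refine ⟨z1, hz1, ?_⟩
    intro w' hw' hlen'
    rw [h1 w' hw' hlen', Matrix.smul_mul, Matrix.trace_smul, smul_eq_mul, mul_assoc]

private theorem r1b_zero {m : Type} [Fintype m] [DecidableEq m] (S : Set (Matrix m m ℝ))
    (Nd : ℕ) (y : Matrix m m ℝ)
    (hy : ∀ w' : List (Matrix m m ℝ), (∀ y ∈ w', y ∈ S) → w'.length ≤ Nd →
      Matrix.trace (y * w'.prod) = 0) (u : Matrix m m ℝ)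
    (hu : u ∈ Submodule.span ℝ {x : Matrix m m ℝ | ∃ w : List (Matrix m m ℝ), (∀ y ∈ w, y ∈ S) ∧
      w.length ≤ Nd ∧ x = w.prod}) : Matrix.trace (y * u) = 0 := by
  induction hu using Submodule.span_induction with
  | mem x hx =>
    obtain ⟨w, hw, hlen, rfl⟩ := hx
    exact hy w hw hlen
  | zero => simp
  | add x y _ _ hx hy => rw [mul_add, Matrix.trace_add, hx, hy, add_zero]
  | smul a x _ hx => rw [Matrix.mul_smul, Matrix.trace_smul, hx, smul_zero]

private theorem r1b_mulleft {m : Type} [Fintype m] [DecidableEq m] (S : Set (Matrix m m ℝ))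
    (k : Subfield ℝ) (Nd : ℕ) (hNd : Fintype.card m ^ 2 ≤ Nd)
    (h : ∀ l : List (Matrix m m ℝ), (∀ x ∈ l, x ∈ S) → l.length ≤ 2 * Nd + 1 →
      Matrix.trace l.prod ∈ k) (s : Matrix m m ℝ) (hs : s ∈ S) (z' : Matrix m m ℝ)
    (hz' : z' ∈ Submodule.span k {x : Matrix m m ℝ | ∃ w : List (Matrix m m ℝ),
      (∀ y ∈ w, y ∈ S) ∧ w.length ≤ Nd ∧ x = w.prod}) :
    ∃ z ∈ Submodule.span k {x : Matrix m m ℝ | ∃ w : List (Matrix m m ℝ),
      (∀ y ∈ w, y ∈ S) ∧ w.length ≤ Nd ∧ x = w.prod}, ∀ w' : List (Matrix m m ℝ),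
      (∀ y ∈ w', y ∈ S) → Matrix.trace ((s * z' - z) * w'.prod) = 0 := by
  induction hz' using Submodule.span_induction with
  | mem x hx =>
    obtain ⟨w, hw, hlen, rfl⟩ := hx
    obtain ⟨π, hπ⟩ := r1b_proj k
    have hsw : s * w.prod ∈ Submodule.span ℝ {x : Matrix m m ℝ | ∃ w : List (Matrix m m ℝ),
        (∀ y ∈ w, y ∈ S) ∧ w.length ≤ Nd ∧ x = w.prod} := by
      have := word_mem_span S Nd hNd (s :: w) (by
        intro x hx
        rcases List.mem_cons.1 hx with h | h
        · rw [h]; exact hs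
        · exact hw x h)
      rwa [List.prod_cons] at this
    obtain ⟨z, hz, hzt⟩ := r1b_step S k Nd h π hπ _ hsw 1
    refine ⟨z, hz, ?_⟩
    intro w' hw'
    apply r1b_zero S Nd _ ?_ _ (word_mem_span S Nd hNd w' hw')
    intro v hv hlv
    rw [sub_mul, Matrix.trace_sub, hzt v hv hlv, one_mul]
    have h1 : Matrix.trace (s * w.prod * v.prod) ∈ k := by
      have h2 : s * w.prod * v.prod = (s :: (w ++ v)).prod := by
        rw [List.prod_cons, List.prod_append, mul_assoc]
      rw [h2]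
      apply h
      · intro y hy
        rcases List.mem_cons.1 hy with h | h
        · rw [h]; exact hs
        · rcases List.mem_append.1 h with h | h
          · exact hw y h
          · exact hv y h
      · rw [List.length_cons, List.length_append]; omega
    have h3 := hπ ⟨_, h1⟩
    rw [h3, sub_self]
  | zero => exact ⟨0, Submodule.zero_mem _, by intro w' _; simp⟩
  | add x y _ _ hx hy =>
    obtain ⟨z1, hz1, h1⟩ := hx
    obtain ⟨z2, hz2, h2⟩ := hy
    refine ⟨z1 + z2, Submodule.add_mem _ hz1 hz2, ?_⟩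
    intro w' hw'
    have h3 : (s * (x + y) - (z1 + z2)) * w'.prod =
        (s * x - z1) * w'.prod + (s * y - z2) * w'.prod := by noncomm_ring
    rw [h3, Matrix.trace_add, h1 w' hw', h2 w' hw', add_zero]
  | smul a x _ hx =>
    obtain ⟨z1, hz1, h1⟩ := hx
    refine ⟨a • z1, Submodule.smul_mem _ _ hz1, ?_⟩
    intro w' hw'
    have h3 : (s * (a • x) - a • z1) * w'.prod = a • ((s * x - z1) * w'.prod) := by
      rw [Matrix.mul_smul, ← smul_sub, Matrix.smul_mul]
    rw [h3, Matrix.trace_smul, h1 w' hw', smul_zero]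

private theorem r1b_claim {m : Type} [Fintype m] [DecidableEq m] (S : Set (Matrix m m ℝ))
    (k : Subfield ℝ) (Nd : ℕ) (hNd : Fintype.card m ^ 2 ≤ Nd)
    (h : ∀ l : List (Matrix m m ℝ), (∀ x ∈ l, x ∈ S) → l.length ≤ 2 * Nd + 1 →
      Matrix.trace l.prod ∈ k) (l : List (Matrix m m ℝ)) (hl : ∀ x ∈ l, x ∈ S) :
    ∃ z ∈ Submodule.span k {x : Matrix m m ℝ | ∃ w : List (Matrix m m ℝ),
      (∀ y ∈ w, y ∈ S) ∧ w.length ≤ Nd ∧ x = w.prod}, ∀ w' : List (Matrix m m ℝ),
      (∀ y ∈ w', y ∈ S) → Matrix.trace ((l.prod - z) * w'.prod) = 0 := by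
  induction l with
  | nil =>
    refine ⟨1, Submodule.subset_span ⟨[], by simp, by simp, by simp⟩, ?_⟩
    intro w' _
    simp
  | cons s l ih =>
    obtain ⟨z', hz', h'⟩ := ih (fun x hx => hl x (List.mem_cons_of_mem _ hx))
    have hs : s ∈ S := hl s List.mem_cons_self
    obtain ⟨z, hz, h1⟩ := r1b_mulleft S k Nd hNd h s hs z' hz'
    refine ⟨z, hz, ?_⟩
    intro w' hw'
    have h2 : ((s :: l).prod - z) * w'.prod =
        s * ((l.prod - z') * w'.prod) + (s * z' - z) * w'.prod := by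
      rw [List.prod_cons]; noncomm_ring
    rw [h2, Matrix.trace_add, h1 w' hw', add_zero, Matrix.trace_mul_comm, mul_assoc]
    have h3 := h' (w' ++ [s]) (by
      intro y hy
      rcases List.mem_append.1 hy with h | h
      · exact hw' y h
      · rw [List.mem_singleton.1 h]; exact hs)
    rw [List.prod_append, List.prod_singleton] at h3
    exact h3

/-- Main step. Let `𝒲` be the set of products of words of length `≤ Nd` and `𝒜 = span ℝ 𝒲` (it contains the
products of all words by `word_mem_span`, so it is closed under left and right multiplication by words).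
CLAIM: for every list `l` of elements of `S` there is `z` in the `k`-span of `𝒲` (finite sums `∑ c_j w_j`,
`c_j ∈ k`, `w_j ∈ 𝒲`) with `trace ((l.prod - z) * u) = 0` for all `u ∈ 𝒜`.
Proof of the claim by induction on `l`: for `l = []` take `z = 1 ∈ 𝒲`. For `l = s :: l'`, with `z' = ∑ c_j w_j` for
`l'`: `trace ((s * l'.prod - s * z') * u) = trace ((l'.prod - z') * (u * s)) = 0` as `u * s ∈ 𝒜`. So it is enough to
treat `s * w` for `w ∈ 𝒲` (then take the `k`-linear combination): by `word_mem_span`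
`s * w = ∑ a_i w_i` with `a_i ∈ ℝ`, `w_i ∈ 𝒲`. Let `π : ℝ → k` be a `k`-linear projection
(`π x = x` for `x ∈ k`; exists because `k` is a subspace of the `k`-vector space `ℝ`:
`Submodule.exists_isCompl`/`LinearMap.exists_leftInverse_of_injective`). Put `z = ∑ π(a_i) w_i`. For `u = w' ∈ 𝒲`:
`trace (s * w * w') = ∑ a_i trace (w_i * w')`, where `trace (s*w*w') ∈ k` (word of length `≤ 2Nd+1`) and
`trace (w_i * w') ∈ k`; applying `π`: `trace (s*w*w') = ∑ π(a_i) trace (w_i * w')`. Hence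
`trace ((s*w - z) * w') = 0` for all `w' ∈ 𝒲`, so for all `u ∈ 𝒜`.
Conclusion: take `u = 1`: `trace l.prod = trace z = ∑ c_j trace w_j ∈ k`. -/
theorem trace_word_mem {m : Type} [Fintype m] [DecidableEq m] (S : Set (Matrix m m ℝ))
    (k : Subfield ℝ) (Nd : ℕ) (hNd : Fintype.card m ^ 2 ≤ Nd)
    (h : ∀ l : List (Matrix m m ℝ), (∀ x ∈ l, x ∈ S) → l.length ≤ 2 * Nd + 1 →
      Matrix.trace l.prod ∈ k) (l : List (Matrix m m ℝ)) (hl : ∀ x ∈ l, x ∈ S) :
    Matrix.trace l.prod ∈ k := by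
  obtain ⟨z, hz, h1⟩ := r1b_claim S k Nd hNd h l hl
  have h2 := h1 [] (by simp)
  rw [List.prod_nil, mul_one, Matrix.trace_sub, sub_eq_zero] at h2
  rw [h2]
  exact r1b_wtrace S k Nd h z hz

end Pool.Agent.TGL
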