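import Pool.Agent.TGL.Defs

/-!
# R2: groups of matrices with finitely many traces and without unipotents are finite
-/

set_option autoImplicit false

namespace Pool.Agent.TGL

open Polynomial in
theorem r2_trace_aeval {N : ℕ} (z : Matrix (Fin N) (Fin N) ℝ)
    (h : ∀ k : ℕ, 1 ≤ k → Matrix.trace (z ^ k) = 0) (Q : Polynomial ℝ) :
    Matrix.trace (Polynomial.aeval z (Polynomial.X * Q)) = 0 := by
  induction Q using Polynomial.induction_on' with
  | add p q hp hq => rw [mul_add, map_add, Matrix.trace_add, hp, hq, add_zero]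
  | monomial k c =>
    rw [map_mul, Polynomial.aeval_X, Polynomial.aeval_monomial]
    have h1 : z * (algebraMap ℝ (Matrix (Fin N) (Fin N) ℝ) c * z ^ k) = c • z ^ (k + 1) := by
      rw [← Algebra.smul_def, mul_smul_comm, ← pow_succ']
    rw [h1, Matrix.trace_smul, h (k + 1) (by omega), smul_zero]

theorem r2_idem {N : ℕ} (f : Matrix (Fin N) (Fin N) ℝ) (hf : f * f = f)
    (ht : Matrix.trace f = 0) : f = 0 := by
  have h1 : IsIdempotentElem (Matrix.toLin' f) := by
    unfold IsIdempotentElem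
    rw [Module.End.mul_eq_comp, ← Matrix.toLin'_mul, hf]
  have h2 : LinearMap.trace ℝ (Fin N → ℝ) (Matrix.toLin' f) = 0 := by
    rw [Matrix.trace_toLin'_eq]
    exact ht
  have h3 := LinearMap.IsIdempotentElem.eq_zero_of_trace_eq_zero h1 h2
  exact (LinearEquiv.map_eq_zero_iff _).1 h3

/-- A real matrix all of whose powers have trace zero is nilpotent.
Proof 1 (idempotents). Let `V = ℝ^N`, `f` the endomorphism. If `f` is not nilpotent, then by Fitting
(`LinearMap.isCompl_iSup_ker_pow_iInf_range_pow` or eigenspaces) `V = V₀ ⊕ V₁` with `f` nilpotent on `V₀` and bijective on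
`V₁ ≠ 0`; the characteristic polynomial `P` of `f|V₁` has `P(0) ≠ 0` and `P(f|V₁) = 0`, so
`e = 1 - P(f)/P(0)`·… is a polynomial in `f` without constant term equal to `1` on `V₁`; its power
`e^r` (`r` large) is `1` on `V₁` and `0` on `V₀`, so has trace `dim V₁ ≠ 0`, but it is a linear combination of
`f^k`, `k ≥ 1`. Contradiction.
Proof 2 (eigenvalues). Over `ℂ` the trace of `z^k` is the sum of the `k`-th powers of the roots of the
characteristic polynomial (`Matrix.trace_eq_sum_roots_charpoly`, `Matrix.charpoly` of powers /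
`Matrix.pow_charpoly_roots…`); if the distinct nonzero roots are `λ_1..λ_r` with multiplicities `m_i`, then
`∑ m_i λ_i^k = 0` for `k = 1..r`, and the Vandermonde determinant gives `m_i = 0`. So all roots are zero. -/
theorem nilp_of_trace {N : ℕ} (z : Matrix (Fin N) (Fin N) ℝ)
    (h : ∀ k : ℕ, 1 ≤ k → Matrix.trace (z ^ k) = 0) : IsNilpotent z := by
  have hp : z.charpoly ≠ 0 := (Matrix.charpoly_monic z).ne_zero
  obtain ⟨P, hP, hnd⟩ := z.charpoly.exists_eq_pow_rootMultiplicity_mul_and_not_dvd hp 0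
  set a := z.charpoly.rootMultiplicity 0 with ha
  rw [map_zero, sub_zero] at hP hnd
  have hcop : IsCoprime (Polynomial.X : Polynomial ℝ) P :=
    (Polynomial.irreducible_X.coprime_iff_not_dvd).2 hnd
  have hcop' : IsCoprime ((Polynomial.X : Polynomial ℝ) ^ (a + 1)) P := hcop.pow_left
  obtain ⟨A, B, hAB⟩ := hcop'
  have hz : Polynomial.aeval z (Polynomial.X ^ (a + 1) * P) = 0 := by
    rw [pow_succ', mul_assoc, ← hP, map_mul, Matrix.aeval_self_charpoly, mul_zero]
  set f : Matrix (Fin N) (Fin N) ℝ := Polynomial.aeval z (A * Polynomial.X ^ (a + 1)) with hf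
  set g : Matrix (Fin N) (Fin N) ℝ := Polynomial.aeval z (B * P) with hg
  have h1 : f + g = 1 := by
    rw [hf, hg, ← map_add, hAB, map_one]
  have h2 : f * g = 0 := by
    rw [hf, hg, ← map_mul]
    have : A * Polynomial.X ^ (a + 1) * (B * P) = (A * B) * (Polynomial.X ^ (a + 1) * P) := by ring
    rw [this, map_mul, hz, mul_zero]
  have h3 : f * f = f := by
    have : f * (f + g) = f := by rw [h1, mul_one]
    rw [mul_add, h2, add_zero] at this
    exact this
  have h4 : Matrix.trace f = 0 := by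
    have : A * Polynomial.X ^ (a + 1) = Polynomial.X * (A * Polynomial.X ^ a) := by ring
    rw [hf, this]
    exact r2_trace_aeval z h _
  have h5 := r2_idem f h3 h4
  have h6 : g = 1 := by rw [← h1, h5, zero_add]
  refine ⟨a + 1, ?_⟩
  have h7 : z ^ (a + 1) * g = 0 := by
    have h8 : z ^ (a + 1) = Polynomial.aeval z ((Polynomial.X : Polynomial ℝ) ^ (a + 1)) := by
      rw [map_pow, Polynomial.aeval_X]
    rw [h8, hg, ← map_mul]
    have h9 : (Polynomial.X : Polynomial ℝ) ^ (a + 1) * (B * P) = B * (Polynomial.X ^ (a + 1) * P) := by ring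
    rw [h9, map_mul, hz, mul_zero]
  rw [h6, mul_one] at h7
  exact h7

/-- Proof. Let `𝒜` be the real span of (the matrices of) `G` in `Matrix (Fin (n+1)) (Fin (n+1)) ℝ`, of
dimension `r ≤ (n+1)^2`; it contains `1` and is closed under multiplication (`Submodule.span_induction` twice). It has a
basis consisting of elements `u_1..u_r ∈ G` (`exists_linearIndependent`/`Submodule.exists_fun_fin_finrank_span_eq`; or simply
a finite family of `(n+1)^2` elements of `G` spanning `𝒜`). Map `G → (Fin r → T)`,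
`g ↦ (tr (g u_j))_j`. CLAIM: it is injective. If `g, h` have the same image then `trace ((g - h) u) = 0` for all
`u ∈ 𝒜`. Let `z = h⁻¹ g - 1 ∈ 𝒜`. For `u ∈ 𝒜`: `trace (z u) = trace (h⁻¹ (g - h) u) = trace ((g-h) u h⁻¹) = 0` since
`u h⁻¹ ∈ 𝒜`. So `trace (z^k) = trace (z z^(k-1)) = 0` for `k ≥ 1` and `z` is nilpotent (`nilp_of_trace`). By
hypothesis `h⁻¹ g = 1`. So `card G ≤ card T ^ r ≤ card T ^ ((n+1)^2)` (`T` is not empty: `tr 1 ∈ T`). -/
theorem finite_of_traces {n : ℕ} (G : Subgroup (GLn n)) (T : Finset ℝ) (hT : ∀ g ∈ G, tr g ∈ T)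
    (hu : ∀ g ∈ G, IsNilpotent ((g : Matrix (Fin (n+1)) (Fin (n+1)) ℝ) - 1) → g = 1) :
    Finite G ∧ Nat.card G ≤ T.card ^ ((n + 1) ^ 2) := by
  classical
  set S : Set (Matrix (Fin (n+1)) (Fin (n+1)) ℝ) := {m | ∃ g ∈ G, (g : Matrix (Fin (n+1)) (Fin (n+1)) ℝ) = m}
    with hS
  obtain ⟨r, hr, f, hfS, hspan⟩ : ∃ r : ℕ, r = Module.finrank ℝ (Submodule.span ℝ S) ∧
      ∃ f : Fin r → Matrix (Fin (n+1)) (Fin (n+1)) ℝ, (∀ i, f i ∈ S) ∧
        Submodule.span ℝ (Set.range f) = Submodule.span ℝ S := by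
    obtain ⟨f, hfS, hspan, -⟩ := Submodule.exists_fun_fin_finrank_span_eq ℝ S
    exact ⟨_, rfl, f, hfS, hspan⟩
  have hrle : r ≤ (n + 1) ^ 2 := by
    have h1 := Submodule.finrank_le (Submodule.span ℝ S)
    rw [← hr, Module.finrank_matrix] at h1
    simp only [Fintype.card_fin, Module.finrank_self, mul_one] at h1
    rw [sq]
    exact h1
  have hmulS : ∀ u ∈ Submodule.span ℝ S, ∀ v ∈ Submodule.span ℝ S, u * v ∈ Submodule.span ℝ S := by
    intro u hu v hv
    have h1 : u * v ∈ Submodule.span ℝ S * Submodule.span ℝ S := Submodule.mul_mem_mul hu hv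
    rw [Submodule.span_mul_span] at h1
    refine Submodule.span_mono ?_ h1
    rintro _ ⟨x, ⟨gx, hgx, rfl⟩, y, ⟨gy, hgy, rfl⟩, rfl⟩
    exact ⟨gx * gy, G.mul_mem hgx hgy, by simp⟩
  have hG : ∀ g ∈ G, (g : Matrix (Fin (n+1)) (Fin (n+1)) ℝ) ∈ Submodule.span ℝ S := fun g hg =>
    Submodule.subset_span ⟨g, hg, rfl⟩
  choose u huG huf using hfS
  let φ : G → (Fin r → T) := fun g j => ⟨tr (g.1 * u j), hT _ (G.mul_mem g.2 (huG j))⟩
  have hφ : Function.Injective φ := by
    intro g h hgh
    have h1 : ∀ j, Matrix.trace (((g.1 : GLn n) : Matrix (Fin (n+1)) (Fin (n+1)) ℝ) * f j) =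
        Matrix.trace (((h.1 : GLn n) : Matrix (Fin (n+1)) (Fin (n+1)) ℝ) * f j) := by
      intro j
      have h2 := congrArg Subtype.val (congrFun hgh j)
      have h3 : tr (g.1 * u j) = tr (h.1 * u j) := h2
      unfold tr at h3
      rw [Units.val_mul, Units.val_mul, huf] at h3
      exact h3
    have h2 : ∀ w ∈ Submodule.span ℝ S, Matrix.trace ((((g.1 : GLn n) : Matrix (Fin (n+1)) (Fin (n+1)) ℝ) -
        ((h.1 : GLn n) : Matrix (Fin (n+1)) (Fin (n+1)) ℝ)) * w) = 0 := by
      intro w hw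
      rw [← hspan] at hw
      induction hw using Submodule.span_induction with
      | mem x hx =>
        obtain ⟨j, rfl⟩ := hx
        rw [sub_mul, Matrix.trace_sub, h1 j, sub_self]
      | zero => simp
      | add x y _ _ hx hy => rw [mul_add, Matrix.trace_add, hx, hy, add_zero]
      | smul c x _ hx => rw [mul_smul_comm, Matrix.trace_smul, hx, smul_zero]
    set z : Matrix (Fin (n+1)) (Fin (n+1)) ℝ := (((h.1)⁻¹ * g.1 : GLn n) : Matrix (Fin (n+1)) (Fin (n+1)) ℝ) - 1 with hz
    have hzS : z ∈ Submodule.span ℝ S := by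
      apply Submodule.sub_mem
      · exact hG _ (G.mul_mem (G.inv_mem h.2) g.2)
      · have := hG 1 G.one_mem
        simpa using this
    have hz2 : z = (((h.1)⁻¹ : GLn n) : Matrix (Fin (n+1)) (Fin (n+1)) ℝ) *
        (((g.1 : GLn n) : Matrix (Fin (n+1)) (Fin (n+1)) ℝ) -
        ((h.1 : GLn n) : Matrix (Fin (n+1)) (Fin (n+1)) ℝ)) := by
      rw [hz, mul_sub, Units.val_mul, Units.inv_mul]
    have hzu : ∀ w ∈ Submodule.span ℝ S, Matrix.trace (z * w) = 0 := by
      intro w hw
      rw [hz2, mul_assoc, Matrix.trace_mul_comm, mul_assoc]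
      exact h2 _ (hmulS _ hw _ (hG _ (G.inv_mem h.2)))
    have hzpow : ∀ k : ℕ, z ^ k ∈ Submodule.span ℝ S := by
      intro k
      induction k with
      | zero =>
        rw [pow_zero]
        have := hG 1 G.one_mem
        simpa using this
      | succ k ih => rw [pow_succ]; exact hmulS _ ih _ hzS
    have hnil : IsNilpotent z := by
      apply nilp_of_trace
      intro k hk
      obtain ⟨m, rfl⟩ : ∃ m, k = m + 1 := ⟨k - 1, by omega⟩
      rw [pow_succ']
      exact hzu _ (hzpow m)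
    have h3 := hu ((h.1)⁻¹ * g.1) (G.mul_mem (G.inv_mem h.2) g.2) hnil
    apply Subtype.ext
    rw [inv_mul_eq_one] at h3
    exact h3.symm
  have hfin : Finite G := Finite.of_injective φ hφ
  refine ⟨hfin, ?_⟩
  have h1 := Nat.card_le_card_of_injective φ hφ
  have h2 : Nat.card (Fin r → T) = T.card ^ r := by
    rw [Nat.card_eq_fintype_card, Fintype.card_fun]
    simp
  rw [h2] at h1
  refine h1.trans (Nat.pow_le_pow_right ?_ hrle)
  exact Finset.card_pos.2 ⟨_, hT 1 G.one_mem⟩

end Pool.Agent.TGL
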