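import Pool.Agent.TGL.Defs

/-!
# R4: algebraic integers of bounded degree with bounded conjugates; another embedding
-/

set_option autoImplicit false

namespace Pool.Agent.TGL

/-- Proof. Let `C = ⌈max X 1 ^ d * (d.choose (d/2))⌉` and `T` = the set of real roots of the nonzero integer
polynomials of degree `≤ d` with coefficients in `[-C, C]`, finite by
`Polynomial.bUnion_roots_finite (algebraMap ℤ ℝ) d (Set.finite_Icc (-C) C)`. For `x : K` as in the statement,
`NumberField.Embeddings.coeff_bdd_of_norm_le` (its hypotheses: bounds for all ring homs `K →+* ℂ`) bounds the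
coefficients of `minpoly ℚ x`, and `minpoly ℤ x` maps to `minpoly ℚ x` (`minpoly.isIntegrallyClosed_eq_field_fractions'`), as in
Mathlib's proof of `NumberField.Embeddings.finite_of_norm_le`; `(x : ℝ)` is a root of `minpoly ℤ x`, whose degree is
`≤ finrank ℚ K = d`. (`K` is a `NumberField`: `⟨inferInstance, inferInstance⟩`.) -/
theorem exists_finset_conj (d : ℕ) (X : ℝ) : ∃ T : Finset ℝ, ∀ K : IntermediateField ℚ ℝ,
    FiniteDimensional ℚ K → Module.finrank ℚ K = d → ∀ x : K, IsIntegral ℤ (x : ℝ) →
      (∀ σ : K →+* ℂ, ‖σ x‖ ≤ X) → (x : ℝ) ∈ T := by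
  classical
  set C : ℕ := Nat.ceil (max X 1 ^ d * (d.choose (d / 2) : ℝ)) with hC
  have hfin := Polynomial.bUnion_roots_finite (algebraMap ℤ ℝ) d (Set.finite_Icc (-C : ℤ) C)
  refine ⟨hfin.toFinset, ?_⟩
  intro K hK hd x hx hσ
  rw [Set.Finite.mem_toFinset]
  have hNF : NumberField K := { to_charZero := inferInstance, to_finiteDimensional := hK }
  have hxK : IsIntegral ℤ x := by
    have hinj : Function.Injective (algebraMap K ℝ) := (algebraMap K ℝ).injective
    exact (isIntegral_algebraMap_iff (R := ℤ) (A := K) (B := ℝ) hinj).1 hx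
  have h_map := minpoly.isIntegrallyClosed_eq_field_fractions' ℚ hxK
  simp_rw [Set.mem_iUnion]
  refine ⟨minpoly ℤ x, ⟨?_, fun i => ?_⟩, ?_⟩
  · rw [← (minpoly.monic hxK).natDegree_map (algebraMap ℤ ℚ), ← h_map, ← hd]
    exact minpoly.natDegree_le x
  · rw [Set.mem_Icc, ← abs_le, ← @Int.cast_le ℝ]
    have h1 := NumberField.Embeddings.coeff_bdd_of_norm_le (K := K) (A := ℂ) (x := x) (B := X) hσ i
    rw [hd] at h1
    refine (Eq.trans_le ?_ h1).trans (Nat.le_ceil _)
    rw [h_map, Polynomial.coeff_map, eq_intCast, Int.norm_cast_rat, Int.norm_eq_abs, Int.cast_abs]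
  · rw [Finset.mem_coe, Multiset.mem_toFinset, Polynomial.mem_roots']
    refine ⟨?_, ?_⟩
    · exact ((minpoly.monic hxK).map _).ne_zero
    · rw [Polynomial.IsRoot, Polynomial.eval_map]
      have h1 := minpoly.aeval ℤ x
      have h2 : Polynomial.eval₂ (algebraMap ℤ ℝ) ((algebraMap K ℝ) x) (minpoly ℤ x) =
          (algebraMap K ℝ) (Polynomial.aeval x (minpoly ℤ x)) := by
        rw [Polynomial.aeval_def, Polynomial.hom_eval₂]
        congr 1
      rw [h1, map_zero] at h2
      exact h2

/-- Proof. Let `F = K1` as a subfield of `K` (`IntermediateField.restrict h1` or regard `K` as an algebra over `K1` by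
`IntermediateField.inclusion h1`); `[K : K1] ≥ 2`. `ℂ` is algebraically closed of characteristic zero, so the number of
`K1`-algebra homomorphisms `K → ℂ` is `[K : K1] ≥ 2` (`AlgHom.card`); one of them, `σ`, differs from the inclusion
(they are distinct as functions). It fixes `K1`. -/
theorem exists_other_embedding (K K1 : IntermediateField ℚ ℝ) (hfd : FiniteDimensional ℚ K)
    (h1 : K1 ≤ K) (h2 : K1 ≠ K) :
    ∃ σ : K →+* ℂ, (∃ x : K, σ x ≠ ((x : ℝ) : ℂ)) ∧ ∀ x : K, (x : ℝ) ∈ K1 → σ x = ((x : ℝ) : ℂ) := by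
  classical
  let E : IntermediateField K1 ℝ := IntermediateField.extendScalars h1
  have hmem : ∀ x : ℝ, x ∈ E ↔ x ∈ K := fun x => IntermediateField.mem_extendScalars h1
  let toE : K →+* E :=
    { toFun := fun x => ⟨x.1, (hmem x.1).2 x.2⟩
      map_one' := rfl
      map_zero' := rfl
      map_add' := fun _ _ => rfl
      map_mul' := fun _ _ => rfl }
  have hfdQ : FiniteDimensional ℚ E := by
    let L : K →ₗ[ℚ] E :=
      { toFun := toE
        map_add' := fun x y => map_add toE x y
        map_smul' := fun c x => by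
          apply Subtype.ext
          simp [toE, Algebra.smul_def] }
    apply Module.Finite.of_surjective L
    rintro ⟨y, hy⟩
    exact ⟨⟨y, (hmem y).1 hy⟩, rfl⟩
  have hfd1 : FiniteDimensional K1 E := FiniteDimensional.right ℚ K1 E
  have hne : Module.finrank K1 E ≠ 1 := by
    intro hone
    rw [IntermediateField.finrank_eq_one_iff] at hone
    apply h2
    apply le_antisymm h1
    intro x hx
    have h3 : x ∈ E := (hmem x).2 hx
    rw [hone, IntermediateField.mem_bot] at h3
    obtain ⟨y, rfl⟩ := h3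
    exact y.2
  have hpos : 0 < Module.finrank K1 E := Module.finrank_pos
  have hcard : 1 < Fintype.card (E →ₐ[K1] ℂ) := by
    rw [AlgHom.card]
    omega
  let ι : E →ₐ[K1] ℂ :=
    { toRingHom := Complex.ofRealHom.comp (algebraMap E ℝ)
      commutes' := fun _ => rfl }
  obtain ⟨σ, hσ⟩ := Fintype.exists_ne_of_one_lt_card hcard ι
  refine ⟨(σ : E →+* ℂ).comp toE, ?_, ?_⟩
  · by_contra hcon
    push Not at hcon
    apply hσ
    ext y
    exact hcon ⟨y.1, (hmem y.1).1 y.2⟩
  · intro x hx
    have h3 := σ.commutes ⟨(x : ℝ), hx⟩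
    exact h3

end Pool.Agent.TGL
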