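import Pool.Agent.TGL.R1
import Pool.Agent.TGL.R2
import Pool.Agent.TGL.R4
import Pool.Agent.TGL.H12
import Pool.Agent.TGL.H21

set_option autoImplicit false
open Set
open scoped Kronecker

namespace Pool.Agent.TGL

variable {n : ℕ}

/-- The tensor square of a matrix. -/
noncomputable def tsq (g : GLn n) : Matrix (Fin (n+1) × Fin (n+1)) (Fin (n+1) × Fin (n+1)) ℝ :=
  (g : Matrix (Fin (n+1)) (Fin (n+1)) ℝ) ⊗ₖ (g : Matrix (Fin (n+1)) (Fin (n+1)) ℝ)

theorem tsq_one : tsq (1 : GLn n) = 1 := by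
  unfold tsq
  rw [Units.val_one, Matrix.one_kronecker_one]

theorem tsq_mul (g h : GLn n) : tsq (g * h) = tsq g * tsq h := by
  unfold tsq
  rw [Units.val_mul, Matrix.mul_kronecker_mul]

theorem trace_tsq (g : GLn n) : Matrix.trace (tsq g) = tr g ^ 2 := by
  unfold tsq tr
  rw [Matrix.trace_kronecker, sq]

theorem tsq_prod (l : List (GLn n)) : tsq l.prod = (l.map tsq).prod := by
  induction l with
  | nil => simp [tsq_one]
  | cons a l ih => rw [List.prod_cons, tsq_mul, ih, List.map_cons, List.prod_cons]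

theorem exists_map_of_forall (S : Set (GLn n)) (l : List (Matrix (Fin (n+1) × Fin (n+1))
    (Fin (n+1) × Fin (n+1)) ℝ)) (hl : ∀ x ∈ l, x ∈ tsq '' S) :
    ∃ l' : List (GLn n), (∀ g ∈ l', g ∈ S) ∧ l = l'.map tsq := by
  induction l with
  | nil => exact ⟨[], by simp, by simp⟩
  | cons a l ih =>
    obtain ⟨l', h1, h2⟩ := ih (fun x hx => hl x (List.mem_cons_of_mem _ hx))
    obtain ⟨g, hg, rfl⟩ := hl a (List.mem_cons_self)
    refine ⟨g :: l', ?_, by rw [h2, List.map_cons]⟩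
    intro y hy
    rcases List.mem_cons.mp hy with rfl | hy
    · exact hg
    · exact h1 y hy

/-- The set of elements moving `x` by at most `ρ`. -/
def near (Γ : Subgroup (GLn n)) (ρ : ℝ) (x : Fin (n+1) → ℝ) : Set (GLn n) :=
  {g : GLn n | g ∈ Γ ∧ hd x (ac g x) ≤ ρ}

theorem near_inv {Γ : Subgroup (GLn n)} (hΓ : IsoGrp Γ) {ρ : ℝ} {x : Fin (n+1) → ℝ} {g : GLn n}
    (hg : g⁻¹ ∈ near Γ ρ x) : g ∈ near Γ ρ x := by
  obtain ⟨h1, h2⟩ := hg
  have h3 : g ∈ Γ := by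
    have := Γ.inv_mem h1
    rwa [inv_inv] at this
  refine ⟨h3, ?_⟩
  have h4 := hd_ac (hΓ g h3) x (ac g⁻¹ x)
  rw [ac_ac_inv] at h4
  rw [hd_symm, h4]
  exact h2

theorem prod_near {Γ : Subgroup (GLn n)} (hΓ : IsoGrp Γ) {ρ : ℝ} {x : Fin (n+1) → ℝ}
    (hx : x ∈ Hyp n) (l : List (GLn n)) (hl : ∀ g ∈ l, g ∈ near Γ ρ x) :
    l.prod ∈ Γ ∧ hd x (ac l.prod x) ≤ l.length * ρ := by
  induction l with
  | nil =>
    rw [List.prod_nil, ac_one, hd_self hx]
    exact ⟨Γ.one_mem, by simp⟩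
  | cons a l ih =>
    obtain ⟨h1, h2⟩ := ih (fun g hg => hl g (List.mem_cons_of_mem _ hg))
    obtain ⟨h3, h4⟩ := hl a List.mem_cons_self
    rw [List.prod_cons]
    refine ⟨Γ.mul_mem h3 h1, ?_⟩
    have h5 := hd_triangle hx (ac_mem (hΓ a h3) hx) (ac_mem (hΓ _ (Γ.mul_mem h3 h1)) hx)
    rw [ac_mul] at h5 ⊢
    rw [hd_ac (hΓ a h3)] at h5
    rw [List.length_cons]
    push_cast
    linarith

theorem loc_finite (n d : ℕ) : ∃ M : ℕ, ∀ ρ : ℝ, 0 < ρ → ∃ Bad : Set (IntermediateField ℚ ℝ),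
    Bad.Finite ∧ ∀ Γ : Subgroup (GLn n), IsoGrp Γ → PrDisc Γ → Cocpt Γ →
      ∀ K : IntermediateField ℚ ℝ, ArithOver Γ K → FiniteDimensional ℚ K →
        Module.finrank ℚ K = d → K ∉ Bad → ∀ x ∈ Hyp n, Finite (loc Γ ρ x) ∧
          Nat.card (loc Γ ρ x) ≤ M := by
  classical
  obtain ⟨T1, hT1⟩ := exists_finset_conj d (((n : ℝ) + 1) ^ 2)
  set T : Finset ℝ := T1.image Real.sqrt ∪ T1.image (fun t => -Real.sqrt t) with hT
  refine ⟨T.card ^ ((n + 1) ^ 2), ?_⟩
  intro ρ hρ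
  set Nd : ℕ := Fintype.card (Fin (n+1) × Fin (n+1)) ^ 2 with hNd
  set X1 : ℝ := ((n : ℝ) + 1) ^ 2 with hX1
  set X2 : ℝ := max X1 ((((n : ℝ) + 1) * Real.cosh (((2 * Nd + 1 : ℕ) : ℝ) * ρ)) ^ 2) with hX2
  obtain ⟨T2, hT2⟩ := exists_finset_conj d X2
  refine ⟨(fun S : Finset ℝ => IntermediateField.adjoin ℚ (S : Set ℝ)) '' (T2.powerset : Set (Finset ℝ)),
    (Finset.finite_toSet _).image _, ?_⟩
  intro Γ hΓ hpd hco K hK hfd hdim hBad x hx
  -- traces of elements of Γ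
  have htrK : ∀ g ∈ Γ, tr g ^ 2 ∈ K := by
    intro g hg
    rw [← hK.field]
    exact IntermediateField.subset_adjoin ℚ _ ⟨g, hg, rfl⟩
  have hint : ∀ g ∈ Γ, IsIntegral ℤ (tr g ^ 2) := fun g hg => (hK.integral g hg).pow 2
  -- short words
  set W : Set ℝ := {t | ∃ l : List (GLn n), (∀ g ∈ l, g ∈ near Γ ρ x) ∧ l.length ≤ 2 * Nd + 1 ∧
    t = tr l.prod ^ 2} with hW
  have hWT : ∀ t ∈ W, t ∈ T2 := by
    rintro t ⟨l, hl, hlen, rfl⟩
    obtain ⟨h1, h2⟩ := prod_near hΓ hx l hl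
    have h3 := hT2 K hfd hdim ⟨tr l.prod ^ 2, htrK _ h1⟩ (hint _ h1) ?_
    · exact h3
    · intro σ
      by_cases hσ : ∃ y : K, σ y ≠ ((y : ℝ) : ℂ)
      · exact (hK.bounded σ hσ _ h1 _ rfl).trans (le_max_left _ _)
      · push Not at hσ
        rw [hσ]
        simp only
        rw [Complex.norm_real, Real.norm_eq_abs, abs_pow]
        refine le_trans ?_ (le_max_right _ _)
        apply pow_le_pow_left₀ (abs_nonneg _)
        refine (abs_tr_le (hΓ _ h1) hx).trans ?_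
        apply mul_le_mul_of_nonneg_left _ (by positivity)
        have h4 : hd x (ac l.prod x) ≤ ((2 * Nd + 1 : ℕ) : ℝ) * ρ := by
          refine h2.trans ?_
          apply mul_le_mul_of_nonneg_right _ hρ.le
          exact_mod_cast hlen
        have h5 := hd_nonneg hx (ac_mem (hΓ _ h1) hx)
        rw [Real.cosh_le_cosh, abs_of_nonneg h5, abs_of_nonneg (h5.trans h4)]
        exact h4
  set K1 : IntermediateField ℚ ℝ := IntermediateField.adjoin ℚ W with hK1
  have hK1Bad : K1 ≠ K := by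
    intro h
    apply hBad
    refine ⟨T2.filter (fun t => t ∈ W), ?_, ?_⟩
    · rw [Finset.mem_coe, Finset.mem_powerset]
      exact Finset.filter_subset _ _
    · rw [← h, hK1]
      have : ((T2.filter (fun t => t ∈ W) : Finset ℝ) : Set ℝ) = W := by
        ext t
        rw [Finset.coe_filter]
        constructor
        · intro ht
          exact ht.2
        · intro ht
          exact ⟨hWT t ht, ht⟩
      simp only
      rw [this]
  have hK1K : K1 ≤ K := by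
    rw [hK1, IntermediateField.adjoin_le_iff]
    rintro t ⟨l, hl, hlen, rfl⟩
    exact htrK _ (prod_near hΓ hx l hl).1
  obtain ⟨σ, hσ1, hσ2⟩ := exists_other_embedding K K1 hfd hK1K hK1Bad
  -- all words
  have hall : ∀ l : List (GLn n), (∀ g ∈ l, g ∈ near Γ ρ x) → tr l.prod ^ 2 ∈ K1 := by
    intro l hl
    have h1 := trace_word_mem (tsq '' (near Γ ρ x)) K1.toSubfield Nd le_rfl ?_ (l.map tsq) ?_
    · rw [← tsq_prod, trace_tsq] at h1
      exact h1
    · intro l0 hl0 hlen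
      obtain ⟨l', h2, h3⟩ := exists_map_of_forall _ l0 hl0
      rw [h3, ← tsq_prod, trace_tsq]
      apply IntermediateField.subset_adjoin
      refine ⟨l', h2, ?_, rfl⟩
      rw [h3, List.length_map] at hlen
      exact hlen
    · intro y hy
      rw [List.mem_map] at hy
      obtain ⟨g, hg, rfl⟩ := hy
      exact ⟨g, hl g hg, rfl⟩
  have hle : loc Γ ρ x ≤ Γ := by
    unfold loc
    rw [Subgroup.closure_le]
    intro g hg
    exact hg.1
  have hF : ∀ g ∈ loc Γ ρ x, tr g ^ 2 ∈ K1 := by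
    intro g hg
    have hg' : g ∈ (Subgroup.closure (near Γ ρ x)).toSubmonoid := hg
    rw [Subgroup.closure_toSubmonoid] at hg'
    obtain ⟨l, hl, rfl⟩ := Submonoid.exists_list_of_mem_closure hg'
    apply hall
    intro y hy
    rcases hl y hy with h1 | h1
    · exact h1
    · exact near_inv hΓ h1
  have hFT : ∀ g ∈ loc Γ ρ x, tr g ∈ T := by
    intro g hg
    have hgΓ := hle hg
    have h1 : ‖((tr g ^ 2 : ℝ) : ℂ)‖ ≤ X1 := by
      have h2 := hσ2 ⟨tr g ^ 2, htrK g hgΓ⟩ (hF g hg)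
      have h3 := hK.bounded σ hσ1 g hgΓ ⟨tr g ^ 2, htrK g hgΓ⟩ rfl
      rw [h2] at h3
      exact h3
    have h4 := hT1 K hfd hdim ⟨tr g ^ 2, htrK g hgΓ⟩ (hint g hgΓ) (by
      intro σ'
      by_cases hσ' : ∃ y : K, σ' y ≠ ((y : ℝ) : ℂ)
      · exact hK.bounded σ' hσ' g hgΓ _ rfl
      · push Not at hσ'
        rw [hσ']
        exact h1)
    simp only at h4
    rw [hT, Finset.mem_union, Finset.mem_image, Finset.mem_image]
    rcases le_total 0 (tr g) with h5 | h5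
    · left
      exact ⟨_, h4, Real.sqrt_sq h5⟩
    · right
      refine ⟨_, h4, ?_⟩
      rw [Real.sqrt_sq_eq_abs, abs_of_nonpos h5, neg_neg]
  apply finite_of_traces (loc Γ ρ x) T hFT
  intro g hg hnil
  obtain ⟨m, hm⟩ := hnil
  exact no_unipotent hΓ hpd hco (hle hg) hm

end Pool.Agent.TGL
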