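import Pool.Agent.TGL.R6
import Pool.Agent.TGL.F7

set_option autoImplicit false
open Set

namespace Pool.Agent.TGL

theorem arith_finite (n : ℕ) (hn : 2 ≤ n) (d : ℕ) :
    {K : IntermediateField ℚ ℝ | FiniteDimensional ℚ K ∧ Module.finrank ℚ K = d ∧
      ∃ Γ : Subgroup (GLn n), IsoGrp Γ ∧ PrDisc Γ ∧ Cocpt Γ ∧ TorGen Γ ∧ ArithOver Γ K}.Finite := by
  obtain ⟨M, hM⟩ := loc_finite n d
  obtain ⟨ρ, hρ, hgeo⟩ := geometric M
  obtain ⟨Bad, hBad, h⟩ := hM ρ hρ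
  refine hBad.subset ?_
  rintro K ⟨hfd, hdim, Γ, hΓ, hpd, hco, htg, hK⟩
  by_contra hcon
  exact hgeo n hn Γ hΓ hpd hco htg (fun x hx => h Γ hΓ hpd hco K hK hfd hdim hcon x hx)

end Pool.Agent.TGL
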